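import Pool.Agent.H830.GT.Stm

/-!
# Assembly
-/

namespace Pool.Agent.H830.GT

open Pool.Agent.H830.OT (TF LF ncl CG S_A S_W S_L1)
open GenTriangulation

/-- final statement -/
def S_Final : Prop := ∀ (P : Type) [Finite P] [Nonempty P] (X : GenTriangulation P),
  X.Connected → X.Valid → X.Orientable → X.betti 1 = 0 →
  3 * (X.betti 2 + 1) ≤ 2 * Nat.card P + 3 * X.betti 3 ∧
  (X.onePoint = 0 ∨ X.cones ≤ X.onePoint + X.loops + 2 →
    2 * (X.betti 2 + 1) ≤ Nat.card P + 2 * X.betti 3) ∧
  (1 ≤ X.onePoint →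
    6 * (X.betti 2 + 1) + 2 * (X.onePoint + X.loops) ≤ 3 * Nat.card P + 6 * X.betti 3 + 2 * X.cones)

namespace GenTriangulation

variable {P : Type} (X : GenTriangulation P)

theorem gamL_gamL (x : P × LF) : X.gamL (X.gamL x) = x := by
  obtain ⟨p, ⟨⟨i, j, k⟩, h1, h2, h3⟩⟩ := x
  simp only at h1 h2 h3
  simp only [gamL, X.nb_nb]
  congr 1
  apply Subtype.ext
  simp only [gl_gl_apply]

theorem gamL_ne (x : P × LF) : X.gamL x ≠ x := by
  obtain ⟨p, ⟨⟨i, j, k⟩, h1, h2, h3⟩⟩ := x
  intro h
  have e1 : X.nb p j = p := congrArg (fun y : P × LF => y.1) h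
  have e2 : X.gl p j j = j := congrArg (fun y : P × LF => y.2.1.2.1) h
  exact X.no_fix p j e1 e2

theorem Flat.symm' {X : GenTriangulation P} {p : P} {i : Fin 5} (h : X.Flat p i) :
    X.Flat (X.nb p i) (X.gl p i i) := by
  intro a b ha hb z hz
  have ha' : (X.gl p i).symm a ≠ i := fun h' => ha ((Equiv.symm_apply_eq _).1 h')
  have hb' : (X.gl p i).symm b ≠ i := fun h' => hb ((Equiv.symm_apply_eq _).1 h')
  have h1 := hz.2 p i _ _ ha' hb'
  simp only [Equiv.apply_symm_apply] at h1
  rw [h1]
  exact h _ _ ha' hb' z hz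

end GenTriangulation

theorem T_LL (hA : S_A) (hL1 : S_L1) (h2 : S_L2) (h3 : S_L3) (h4 : S_L4) : S_LL := by
  intro P _ X hv
  have hA' := hA (P × LF) CG.al CG.be X.gamL (fun x => rfl)
    (by
      intro x h
      have e1 := congrArg (fun y : P × LF => y.2.1.2.1) h
      exact x.2.2.2.2 e1.symm)
    (fun x => rfl)
    (by
      intro x h
      have e1 := congrArg (fun y : P × LF => y.2.1.1) h
      exact x.2.2.2.1 e1.symm)
    X.gamL_gamL X.gamL_ne
  have e1 := hL1 P
  have e2 := h2 P X
  have e3 := h3 P X hv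
  have e4 := h4 P X
  have e5 : Nat.card (P × LF) = 60 * Nat.card P := by
    rw [Nat.card_prod, Nat.card_eq_fintype_card (α := LF)]
    have : Fintype.card LF = 60 := by decide
    rw [this, mul_comm]
  rw [e5] at hA'
  omega

theorem T_B (hc2 : S_c2) (hc1 : S_c1) (hz1 : S_z1) (hc3 : S_c3) (hr3 : S_r3) (hb2 : S_b2)
    (hb3 : S_b3) : S_B := by
  intro P _ _ X ho hv
  have e1 := hc2 P X
  have e2 := hc1 P X hv
  have e3 := hz1 P X
  have e4 := hc3 P X
  have e5 := hr3 P X ho
  have e6 := hb2 P X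
  have e7 := hb3 P X
  have hfin : Module.Finite ℚ (P → (Fin 2 → Fin 5) → ℚ) := by
    have := Fintype.ofFinite P
    infer_instance
  have e8 : Module.finrank ℚ ((X.cochains 1).map d) + Module.finrank ℚ (X.cocycles 1) =
      Module.finrank ℚ (X.cochains 1) := by
    have h1 := LinearMap.finrank_range_add_finrank_ker
      ((d (P := P) (k := 1)).domRestrict (X.cochains 1))
    rw [LinearMap.range_domRestrict] at h1
    have h2 : Module.finrank ℚ (LinearMap.ker ((d (P := P) (k := 1)).domRestrict (X.cochains 1))) =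
        Module.finrank ℚ (X.cocycles 1) := by
      rw [LinearMap.ker_domRestrict, cocycles]
      rw [← Submodule.finrank_map_subtype_eq, Submodule.map_comap_subtype]
    rw [h2] at h1
    exact h1
  omega

theorem T_Final (hLL : S_LL) (hB : S_B) (hG : S_G) (hD : S_D) (hSum : S_Sum) (hE : S_E)
    (hEv : S_Ev) (hCones : S_Cones) (hLoops : S_Loops) : S_Final := by
  intro P _ _ X hc hv ho hb1
  have e1 := hLL P X hv
  have e2 := hB P X ho hv
  have e3 := hE P X
  have e4 := hEv P X
  have e5 := hCones P X hb1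
  obtain ⟨e6, e7⟩ := hLoops P X hb1
  obtain ⟨m, hm⟩ := e4
  by_cases hfl : ∃ p i, X.Flat p i
  · have e8 := hSum P X hc hfl
    have e9 : 1 ≤ X.Ez := by
      obtain ⟨p, i, h⟩ := hfl
      have hdec : ∀ i : Fin 5, ∃ a b : Fin 5, a ≠ b ∧ a ≠ i ∧ b ≠ i := by decide
      obtain ⟨a, b, hab, ha, hb⟩ := hdec i
      have : Nonempty {c : Quot X.relE // ∃ x : P × TF, Quot.mk _ x = c ∧
          X.Zero x.1 x.2.1.1 x.2.1.2} :=
        ⟨⟨Quot.mk _ (p, ⟨(a, b), hab⟩), _, rfl, h a b ha hb⟩⟩
      exact Nat.card_pos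
    have e10 : X.nCap + X.nPure ≤ Nat.card P := by
      have h1 : X.nPure = Set.ncard {p | X.Pure p} := rfl
      have h2 : X.nCap = Set.ncard {p | X.IsCap p} := rfl
      have h3 : Disjoint {p | X.IsCap p} {p | X.Pure p} := by
        rw [Set.disjoint_left]
        intro p hp hp'
        exact hp.1 hp'
      rw [h1, h2, ← Set.ncard_union_eq h3 (Set.toFinite _) (Set.toFinite _)]
      calc _ ≤ (Set.univ : Set P).ncard := Set.ncard_le_ncard (Set.subset_univ _) (Set.toFinite _)
        _ = Nat.card P := Set.ncard_univ P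
    by_cases hall : ∀ p, X.Pure p
    · have h1 : X.nPure = Nat.card P := by
        unfold GenTriangulation.nPure
        exact Nat.card_congr (Equiv.subtypeUnivEquiv hall)
      refine ⟨by omega, fun h => by omega, fun h => by omega⟩
    · have e11 := hG P X hc (by
        push Not at hall
        obtain ⟨p0, hp0⟩ := hall
        by_contra hno
        push Not at hno
        obtain ⟨p, i, hpi⟩ := hfl
        have hS := hc {p | X.Pure p} ⟨p, hno p i hpi⟩ (by
          intro q hq j
          exact hno _ _ (Flat.symm' (i := j) (fun a b _ _ => hq a b)))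
        exact hp0 (by
          have : p0 ∈ {p | X.Pure p} := by rw [hS]; trivial
          exact this))
      refine ⟨by omega, fun h => by omega, fun h => by omega⟩
  · push Not at hfl
    have e8 := hD P X hc hfl
    have e9 : X.nPure = 0 := by
      unfold GenTriangulation.nPure
      rw [Nat.card_eq_zero]
      left
      constructor
      rintro ⟨p, hp⟩
      exact hfl p 0 (fun a b _ _ => hp a b)
    refine ⟨by omega, fun h => by omega, fun h => by omega⟩

end Pool.Agent.H830.GT
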