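import Mathlib

/-!
# Generalised triangulations of closed 4-dimensional pseudomanifolds

`P` is the set of pentachora, `Fin 5` are the vertices of a pentachoron, facet `i` is the one
opposite to the vertex `i`.
-/

namespace Pool.Agent.H830.GT

/-- A (closed) generalised triangulation: facet `i` of the pentachoron `p` is glued to the facet
`gl p i i` of the pentachoron `nb p i` by the affine bijection which maps the vertex `a ≠ i` of `p` to
the vertex `gl p i a` of `nb p i`. The gluings come in pairs of inverse maps, and no facet is glued to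
itself. Facets of the same pentachoron may be glued, and there may be only one vertex. -/
structure GenTriangulation (P : Type) where
  nb : P → Fin 5 → P
  gl : P → Fin 5 → Equiv.Perm (Fin 5)
  nb_nb : ∀ p i, nb (nb p i) (gl p i i) = p
  gl_gl : ∀ p i, gl (nb p i) (gl p i i) = (gl p i)⁻¹
  no_fix : ∀ p i, nb p i = p → gl p i i ≠ i

namespace GenTriangulation

variable {P : Type} (X : GenTriangulation P)

/-- any two pentachora are joined by a chain of glued ones -/
def Connected : Prop :=
  ∀ S : Set P, S.Nonempty → (∀ p ∈ S, ∀ i, X.nb p i ∈ S) → S = Set.univ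

/-- the pentachora have orientations such that all the gluings reverse the orientation -/
def Orientable : Prop := ∃ ε : P → ℤˣ, ∀ p i,
  ε (X.nb p i) * Equiv.Perm.sign (X.gl p i) = - ε p

/-- the faces with ordered vertices `x.2 0, …, x.2 (k-1)` of `x.1` and `y.2 0, …, y.2 (k-1)` of `y.1`
are glued along a facet (which contains the vertices) -/
def Glued {k : ℕ} (x y : P × (Fin k → Fin 5)) : Prop :=
  ∃ i, (∀ t, x.2 t ≠ i) ∧ y = (X.nb x.1 i, fun t => X.gl x.1 i (x.2 t))

/-- the faces with ordered vertices `x.2 0, …` of `x.1` and `y.2 0, …` of `y.1` are identified -/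
def Same {k : ℕ} (x y : P × (Fin k → Fin 5)) : Prop := Relation.EqvGen X.Glued x y

/-- no face is identified with itself by a nontrivial permutation of its vertices -/
def Valid : Prop := ∀ (k : ℕ) (p : P) (x : Fin k → Fin 5) (π : Equiv.Perm (Fin k)),
  Function.Injective x → X.Same (p, x) (p, x ∘ π) → π = 1

/-- `k`-cochains with values in `ℚ`: alternating functions of the `k + 1` vertices of the `k`-faces
of the pentachora, which agree on identified faces -/
def cochains (k : ℕ) : Submodule ℚ (P → (Fin (k + 1) → Fin 5) → ℚ) where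
  carrier := {f | (∀ p x (π : Equiv.Perm (Fin (k + 1))),
      f p (x ∘ π) = ((Equiv.Perm.sign π : ℤˣ) : ℤ) * f p x) ∧
    ∀ p x i, (∀ t, x t ≠ i) → f (X.nb p i) (fun t => X.gl p i (x t)) = f p x}
  add_mem' := by
    rintro f g ⟨hf1, hf2⟩ ⟨hg1, hg2⟩
    refine ⟨fun p x π => ?_, fun p x i h => ?_⟩
    · simp only [Pi.add_apply, hf1, hg1]; ring
    · simp only [Pi.add_apply, hf2 p x i h, hg2 p x i h]
  zero_mem' := by
    refine ⟨fun p x π => by simp, fun p x i h => rfl⟩
  smul_mem' := by
    rintro t f ⟨hf1, hf2⟩
    refine ⟨fun p x π => ?_, fun p x i h => ?_⟩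
    · simp only [Pi.smul_apply, hf1, smul_eq_mul]; ring
    · simp only [Pi.smul_apply, hf2 p x i h]

/-- the simplicial coboundary `(d f) (x 0, …, x (k+1)) = ∑ t, (-1)^t f (x without x t)` -/
def d {P : Type} {k : ℕ} : (P → (Fin (k + 1) → Fin 5) → ℚ) →ₗ[ℚ] (P → (Fin (k + 2) → Fin 5) → ℚ) where
  toFun f p x := ∑ t : Fin (k + 2), (-1) ^ (t : ℕ) * f p (fun s => x (t.succAbove s))
  map_add' f g := by
    funext p x
    simp only [Pi.add_apply, mul_add, Finset.sum_add_distrib]
  map_smul' c f := by
    funext p x
    simp only [Pi.smul_apply, smul_eq_mul, RingHom.id_apply, Finset.mul_sum]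
    exact Finset.sum_congr rfl fun t _ => by ring

/-- `k`-cocycles -/
def cocycles (k : ℕ) : Submodule ℚ (P → (Fin (k + 1) → Fin 5) → ℚ) :=
  X.cochains k ⊓ LinearMap.ker d

/-- `k`-coboundaries -/
def coboundaries : (k : ℕ) → Submodule ℚ (P → (Fin (k + 1) → Fin 5) → ℚ)
  | 0 => ⊥
  | k + 1 => (X.cochains k).map d

/-- the `k`-th Betti number: the dimension of the quotient of the `k`-cocycles by the
`k`-coboundaries -/
noncomputable def betti (k : ℕ) : ℕ :=
  Module.finrank ℚ (X.cocycles k ⧸ (X.coboundaries k).comap (X.cocycles k).subtype)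

/-- the number of pentachora all of whose five vertices are identified -/
noncomputable def onePoint : ℕ :=
  Nat.card {p : P // ∀ a b, X.Same (p, ![a]) (p, ![b])}

/-- the number of vertices which are a vertex of only one pentachoron (only once) and
an end of only one edge: the vertex `a` of `p` is not identified with any other vertex of a
pentachoron, and the four edges `a b` of `p` are identified -/
noncomputable def cones : ℕ :=
  Nat.card {x : P × Fin 5 // (∀ y, X.Same (x.1, ![x.2]) y → y = (x.1, ![x.2])) ∧
    ∀ b c, b ≠ x.2 → c ≠ x.2 → X.Same (x.1, ![x.2, b]) (x.1, ![x.2, c])}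

/-- the number of edges which are loops (their two ends are identified) -/
noncomputable def loops : ℕ :=
  Nat.card (Quot fun x y : {x : P × Fin 5 × Fin 5 //
      x.2.1 ≠ x.2.2 ∧ X.Same (x.1, ![x.2.1]) (x.1, ![x.2.2])} =>
    X.Same (x.1.1, ![x.1.2.1, x.1.2.2]) (y.1.1, ![y.1.2.1, y.1.2.2]) ∨
    X.Same (x.1.1, ![x.1.2.1, x.1.2.2]) (y.1.1, ![y.1.2.2, y.1.2.1]))

end GenTriangulation

end Pool.Agent.H830.GT
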