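import Pool.Agent.H830.GT.Def

/-!
# The definitions of `Def.lean` again, in smaller steps
-/

namespace Pool.Agent.H830.GT

/-- rational functions of the ordered `(k + 1)`-tuples of vertices of the pentachora -/
def Fn (P : Type) (k : ℕ) : Type := P → (Fin (k + 1) → Fin 5) → ℚ

/-- pointwise addition -/
noncomputable instance (P : Type) (k : ℕ) : AddCommGroup (Fn P k) :=
  Pi.addCommGroup (f := fun _ : P => (Fin (k + 1) → Fin 5) → ℚ)

/-- pointwise multiplication by scalars -/
noncomputable instance (P : Type) (k : ℕ) : Module ℚ (Fn P k) :=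
  Pi.module P (fun _ : P => (Fin (k + 1) → Fin 5) → ℚ) ℚ

/-- the simplicial coboundary `(d f) (x 0, …, x (k+1)) = ∑ t, (-1)^t f (x without x t)` -/
def delta0 {P : Type} {k : ℕ} (f : Fn P k) : Fn P (k + 1) :=
  fun p x => ∑ t : Fin (k + 2), (-1) ^ (t : ℕ) * f p (fun s => x (t.succAbove s))

theorem delta0_add {P : Type} {k : ℕ} (f g : Fn P k) : delta0 (f + g) = delta0 f + delta0 g :=
  (GenTriangulation.d (P := P) (k := k)).map_add' f g

theorem delta0_smul {P : Type} {k : ℕ} (c : ℚ) (f : Fn P k) :
    delta0 (c • f) = (RingHom.id ℚ) c • delta0 f :=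
  (GenTriangulation.d (P := P) (k := k)).map_smul' c f

/-- the simplicial coboundary as a linear map -/
noncomputable def delta (P : Type) (k : ℕ) : Fn P k →ₗ[ℚ] Fn P (k + 1) where
  toFun := delta0
  map_add' := delta0_add
  map_smul' := delta0_smul

namespace GenTriangulation

variable {P : Type} (X : GenTriangulation P)

/-- `f` is a `k`-cochain: an alternating function of the `k + 1` vertices of the `k`-faces of the
pentachora, which agrees on identified faces -/
def IsCochain {k : ℕ} (f : Fn P k) : Prop :=
  (∀ p x (π : Equiv.Perm (Fin (k + 1))),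
      f p (x ∘ π) = ((Equiv.Perm.sign π : ℤˣ) : ℤ) * f p x) ∧
    ∀ p x i, (∀ t, x t ≠ i) → f (X.nb p i) (fun t => X.gl p i (x t)) = f p x

theorem isCochain_add {k : ℕ} {f g : Fn P k} (hf : X.IsCochain f) (hg : X.IsCochain g) :
    X.IsCochain (f + g) := (X.cochains k).add_mem' hf hg

theorem isCochain_zero {k : ℕ} : X.IsCochain (0 : Fn P k) := (X.cochains k).zero_mem'

theorem isCochain_smul {k : ℕ} (c : ℚ) {f : Fn P k} (hf : X.IsCochain f) :
    X.IsCochain (c • f) := (X.cochains k).smul_mem' c hf

/-- `k`-cochains with values in `ℚ` -/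
noncomputable def Cochains (k : ℕ) : Submodule ℚ (Fn P k) where
  carrier := {f | X.IsCochain f}
  add_mem' := X.isCochain_add
  zero_mem' := X.isCochain_zero
  smul_mem' := X.isCochain_smul

/-- `k`-cocycles -/
noncomputable def Cocycles (k : ℕ) : Submodule ℚ (Fn P k) :=
  X.Cochains k ⊓ LinearMap.ker (delta P k)

/-- `k`-coboundaries -/
noncomputable def Coboundaries : (k : ℕ) → Submodule ℚ (Fn P k)
  | 0 => ⊥
  | k + 1 => (X.Cochains k).map (delta P k)

/-- the `k`-th Betti number: the dimension of the quotient of the `k`-cocycles by the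
`k`-coboundaries -/
noncomputable def bettiNumber (k : ℕ) : ℕ :=
  Module.finrank ℚ (X.Cocycles k ⧸ (X.Coboundaries k).comap (X.Cocycles k).subtype)

theorem bettiNumber_eq (k : ℕ) : X.bettiNumber (k + 1) = X.betti (k + 1) := rfl

/-- the vertex `x.2` of the pentachoron `x.1` is not identified with any other vertex of a
pentachoron, and the four edges of `x.1` at it are identified -/
def IsCone (x : P × Fin 5) : Prop :=
  (∀ y, X.Same (x.1, ![x.2]) y → y = (x.1, ![x.2])) ∧
    ∀ b c, b ≠ x.2 → c ≠ x.2 → X.Same (x.1, ![x.2, b]) (x.1, ![x.2, c])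

/-- the number of the vertices which are a vertex of only one pentachoron (only once) and
an end of only one edge -/
noncomputable def numCones : ℕ := Nat.card {x : P × Fin 5 // X.IsCone x}

/-- the ends of the edge `x.2.1 x.2.2` of the pentachoron `x.1` are identified -/
def IsLoop (x : P × Fin 5 × Fin 5) : Prop :=
  x.2.1 ≠ x.2.2 ∧ X.Same (x.1, ![x.2.1]) (x.1, ![x.2.2])

/-- the two edges are identified (in one of the two directions) -/
def SameEdge (x y : P × Fin 5 × Fin 5) : Prop :=
  X.Same (x.1, ![x.2.1, x.2.2]) (y.1, ![y.2.1, y.2.2]) ∨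
    X.Same (x.1, ![x.2.1, x.2.2]) (y.1, ![y.2.2, y.2.1])

/-- the number of edges which are loops (their two ends are identified) -/
noncomputable def numLoops : ℕ :=
  Nat.card (Quot fun x y : {x : P × Fin 5 × Fin 5 // X.IsLoop x} => X.SameEdge x.1 y.1)

theorem numCones_eq : X.numCones = X.cones := rfl

theorem numLoops_eq : X.numLoops = X.loops := rfl

end GenTriangulation

end Pool.Agent.H830.GT
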