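import Pool.Agent.H830.GT.Def
import Pool.Agent.H830.OT.Stm

/-!
# Statements of the lemmas for general triangulations

All statements were tested by computer on thousands of random triangulations.
We use from the project OT: `TF`, `LF` (pairs and triples of distinct elements of `Fin 5`), `ncl`
(number of classes), `CG.al`, `CG.be` (on `P × LF`), `S_A`, `S_W`, `S_L1` (proved: `T_A`, `T_W`, `T_L1`).
-/

namespace Pool.Agent.H830.GT

open Pool.Agent.H830.OT (TF LF ncl)

namespace GenTriangulation

variable {P : Type} (X : GenTriangulation P)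

/-! ### elementary facts -/

theorem gl_gl_apply (p : P) (i a : Fin 5) :
    X.gl (X.nb p i) (X.gl p i i) (X.gl p i a) = a := by
  rw [X.gl_gl]; simp

/-! ### triangles and edges -/

/-- `(j, k)` is the triangle `V \ {j, k}` in the facet `V \ {j}`: same triangle in the other facet, or
crossing the facet `j` -/
def relT (x y : P × TF) : Prop :=
  (y.1 = x.1 ∧ y.2.1 = (x.2.1.2, x.2.1.1)) ∨
  (y.1 = X.nb x.1 x.2.1.1 ∧
    y.2.1 = (X.gl x.1 x.2.1.1 x.2.1.1, X.gl x.1 x.2.1.1 x.2.1.2))

/-- `(a, b)` is the edge from `a` to `b`: reversal, or gluing along a facet `i ≠ a, b` -/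
def relE (x y : P × TF) : Prop :=
  (y.1 = x.1 ∧ y.2.1 = (x.2.1.2, x.2.1.1)) ∨
  ∃ i, x.2.1.1 ≠ i ∧ x.2.1.2 ≠ i ∧ y.1 = X.nb x.1 i ∧
    y.2.1 = (X.gl x.1 i x.2.1.1, X.gl x.1 i x.2.1.2)

/-- number of triangles -/
noncomputable def T : ℕ := ncl X.relT

/-- number of edges -/
noncomputable def E : ℕ := ncl X.relE

/-- crossing the facet `j` of the flag `(i, j, k)` -/
def gamL (x : P × LF) : P × LF :=
  (X.nb x.1 x.2.1.2.1,
    ⟨(X.gl x.1 x.2.1.2.1 x.2.1.1, X.gl x.1 x.2.1.2.1 x.2.1.2.1, X.gl x.1 x.2.1.2.1 x.2.1.2.2),
      fun h => x.2.2.1 ((X.gl x.1 x.2.1.2.1).injective h),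
      fun h => x.2.2.2.1 ((X.gl x.1 x.2.1.2.1).injective h),
      fun h => x.2.2.2.2 ((X.gl x.1 x.2.1.2.1).injective h)⟩)

/-! ### one-cocycles -/

/-- one-cocycles -/
def Z : Submodule ℚ (P → Fin 5 → Fin 5 → ℚ) where
  carrier := {z | (∀ p a b c, z p a b + z p b c = z p a c) ∧
    ∀ p i a b, a ≠ i → b ≠ i → z (X.nb p i) (X.gl p i a) (X.gl p i b) = z p a b}
  add_mem' := by
    rintro f g ⟨hf1, hf2⟩ ⟨hg1, hg2⟩
    refine ⟨fun p a b c => ?_, fun p j a b ha hb => ?_⟩
    · have h1 := hf1 p a b c
      have h2 := hg1 p a b c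
      simp only [Pi.add_apply]
      linarith
    · simp [hf2 p j a b ha hb, hg2 p j a b ha hb]
  zero_mem' := by
    refine ⟨fun p a b c => by simp, fun p j a b _ _ => rfl⟩
  smul_mem' := by
    rintro t f ⟨hf1, hf2⟩
    refine ⟨fun p a b c => ?_, fun p j a b ha hb => ?_⟩
    · have h1 := hf1 p a b c
      simp only [Pi.smul_apply, smul_eq_mul]
      rw [← h1]; ring
    · simp [hf2 p j a b ha hb]

/-- the dimension of the space of one-cocycles -/
noncomputable def w : ℕ := Module.finrank ℚ X.Z

/-- all the one-cocycles vanish on the edge `(a, b)` of `p` -/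
def Zero (p : P) (a b : Fin 5) : Prop := ∀ z ∈ X.Z, z p a b = 0

/-- all the one-cocycles vanish on the facet `i` of `p` -/
def Flat (p : P) (i : Fin 5) : Prop := ∀ a b, a ≠ i → b ≠ i → X.Zero p a b

/-- all the one-cocycles vanish on the pentachoron `p` -/
def Pure (p : P) : Prop := ∀ a b, X.Zero p a b

/-- the one-cocycles which vanish on the pentachora of `S` -/
def KS (S : Set P) : Submodule ℚ (P → Fin 5 → Fin 5 → ℚ) where
  carrier := {z | z ∈ X.Z ∧ ∀ p ∈ S, ∀ a b, z p a b = 0}
  add_mem' := by
    rintro f g ⟨hf1, hf2⟩ ⟨hg1, hg2⟩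
    exact ⟨X.Z.add_mem hf1 hg1, fun p hp a b => by simp [hf2 p hp a b, hg2 p hp a b]⟩
  zero_mem' := ⟨X.Z.zero_mem, fun p _ a b => rfl⟩
  smul_mem' := by
    rintro t f ⟨hf1, hf2⟩
    exact ⟨X.Z.smul_mem t hf1, fun p hp a b => by simp [hf2 p hp a b]⟩

/-- the dimension of the space of the one-cocycles which vanish on `S` -/
noncomputable def kS (S : Set P) : ℕ := Module.finrank ℚ (X.KS S)

/-- the edges with a representative in a pentachoron of `S` on which some one-cocycle does not
vanish -/
def nzc (S : Set P) : Set (Quot X.relE) :=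
  {c | ∃ x : P × TF, Quot.mk _ x = c ∧ x.1 ∈ S ∧ ¬ X.Zero x.1 x.2.1.1 x.2.1.2}

/-- their number -/
noncomputable def ez (S : Set P) : ℕ := (X.nzc S).ncard

/-- the number of edges on which all the one-cocycles vanish -/
noncomputable def Ez : ℕ :=
  Nat.card {c : Quot X.relE // ∃ x : P × TF, Quot.mk _ x = c ∧ X.Zero x.1 x.2.1.1 x.2.1.2}

/-- number of pure pentachora -/
noncomputable def nPure : ℕ := Nat.card {p : P // X.Pure p}

/-- `p` is a cap: it is not pure, has a flat facet `i`, the other facets are glued to facets of `p`, and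
all the edges of `p` with nonvanishing cocycles are identified -/
def IsCap (p : P) : Prop :=
  ¬ X.Pure p ∧ (∃ i, X.Flat p i ∧ ∀ j, j ≠ i → X.nb p j = p) ∧ X.ez {p} = 1

/-- number of caps -/
noncomputable def nCap : ℕ := Nat.card {p : P // X.IsCap p}

end GenTriangulation

open GenTriangulation Pool.Agent.H830.OT

/-! ### The inequality `3 T ≤ 5 n + 2 E` -/

/-- **S_L2**. `S_W` with `w = 1/4`, `N x = {x, be x, gamL x, be (gamL x)}`: `be` (swap `i`, `k`)
and `gamL` (apply `gl p j` to `i, j, k`) are involutions without fixed points (`gamL x ≠ x` and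
`gamL x ≠ be x` by `no_fix`, as `be` fixes `p` and `j`) and commute (`gl p j` depends only on `p`, `j`).
There are `60 n` flags (`Fintype.card LF = 60` by `decide`, see `T_L12.lean` of OT). -/
def S_L2 : Prop := ∀ (P : Type) [Finite P] (X : GenTriangulation P),
  15 * Nat.card P ≤ ncl (fun x y : P × LF => y = CG.be x ∨ y = X.gamL x)

/-- **S_L3**. Let `r` be the relation generated by `al` (swap `j, k`) and `gamL`.
(1) If `EqvGen r x y`, `x = (p,(i,j,k))`, `y = (q,(i',j',k'))` and `u, v` are the two other
elements of `Fin 5`, then there are `u', v'` with `{i',j',k',u',v'} = Fin 5` and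
`X.Same (p, ![i,u,v]) (q, ![i',u',v'])` (each step: `al` nothing changes; `gamL`: crossing the
facet `j`, which contains `i, u, v`).
(2) `EqvGen r (p,(i,j,k)) (p,(i',j,k))` implies `i = i'`: by (1) `![i',u',v'] = ![i,u,v] ∘ π` for a
permutation `π` (both are enumerations of `V \ {j,k}`), `π = 1` by `Valid`.
(3) choose for each class `c : Quot relT` a representative `(p,(j,k))`; the map
`(c, s) ↦ mk (p, (s-th element of V \ {j,k}, j, k))`, `Quot relT × Fin 3 → Quot r`, is injective:
forgetting `i` maps `r` to `relT`, and (2). -/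
def S_L3 : Prop := ∀ (P : Type) [Finite P] (X : GenTriangulation P), X.Valid →
  3 * X.T ≤ ncl (fun x y : P × LF => y = CG.al x ∨ y = X.gamL x)

/-- **S_L4**. Map an edge `(p,(a,b)) : P × TF` to the class of any flag `(p,(i,j,k))` with
`{i,j,k} = V \ {a,b}` (the six flags are equivalent under `al`, `be`). It is constant on classes of
`relE`: for a facet `f ≠ a, b` choose the flag with `j = f`; `gamL` of this flag is a
flag of the edge `(nb p f, (gl p f a, gl p f b))`. So it induces a surjection
`Quot relE → Quot (al, be, gamL)`. -/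
def S_L4 : Prop := ∀ (P : Type) [Finite P] (X : GenTriangulation P),
  ncl (fun x y : P × LF => y = CG.al x ∨ y = CG.be x ∨ y = X.gamL x) ≤ X.E

/-- **S_LL** (`3 T ≤ 5 n + 2 E`): `S_A` for `al`, `be`, `gamL` on `P × LF`
(`60 n` elements), `S_L1` … `S_L4`: `2 (10 n + 15 n + 3 T) ≤ 60 n + 4 E`. -/
def S_LL : Prop := ∀ (P : Type) [Finite P] (X : GenTriangulation P), X.Valid →
  3 * X.T ≤ 5 * Nat.card P + 2 * X.E

/-! ### Betti numbers -/

/-- **S_c2**. For each class of `relT` choose a representative `(p,(j,k))` and an injective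
`x : Fin 3 → Fin 5` with values `≠ j, k`; `f ↦ (f p x)_c` is injective on `cochains 2`: if
`f` vanishes on all `x` with values in `V \ {j, k}` for one element `(p,(j,k))` of a class then for all elements (a step of
`relT`: crossing the facet `j`); non injective `x` have `f p x = 0` (swap two equal entries). All injective
`x` with values in `V \ {j,k}` differ by a permutation of `Fin 3`. -/
def S_c2 : Prop := ∀ (P : Type) [Finite P] (X : GenTriangulation P),
  Module.finrank ℚ (X.cochains 2) ≤ X.T

/-- **S_c1**. For each class `c` of `relE` choose a representative `(p,(a,b))`, and let `f_c q y = 1` if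
`Same (p, ![a,b]) (q, y)`, `-1` if `Same (p, ![b,a]) (q, y)`, `0` otherwise (never both:
`Same (p, ![a,b]) (p, ![b,a])` contradicts `Valid`). These are cochains (a permutation of `Fin 2` is
`1` or the swap), with disjoint nonempty supports, so linearly independent. -/
def S_c1 : Prop := ∀ (P : Type) [Finite P] (X : GenTriangulation P), X.Valid →
  X.E ≤ Module.finrank ℚ (X.cochains 1)

/-- **S_z1**. `f ↦ z p a b = f p ![a, b]` maps `cocycles 1` injectively to `Z`. (`f p ![a,a] = 0` and
`f p ![b,a] = - f p ![a,b]` by alternation; `d f p ![a,b,c] = 0` is the cocycle condition.) -/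
def S_z1 : Prop := ∀ (P : Type) [Finite P] (X : GenTriangulation P),
  Module.finrank ℚ (X.cocycles 1) ≤ X.w

/-- **S_c3**. Let `D = P × Fin 5`, `τ (p,i) = (nb p i, gl p i i)` (involution without fixed points),
`std i : Fin 4 → Fin 5` the increasing enumeration `i.succAbove`. A cochain `f` is the same as
`h (p,i) = f p (std i)` with `h (τ x) = s x * h x`, `s (p,i) = ±1` the sign of the permutation `π` with
`gl p i ∘ std i = std (gl p i i) ∘ π` (`s (τ x) = s x`). (Given `h`, `f p x = sign π * h (p,i)` if
`x = std i ∘ π`, and `0` if `x` is not injective.) Let `W = {h | h (τ x) = s x * h x}`,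
`W' = {h | h (τ x) = - s x * h x}`. `W + W'` is everything (`h = (h + s h∘τ)/2 + (h - s h∘τ)/2`) and
multiplication by a function `u` with `u (τ x) = - u x`, `u = ±1` (e.g. `u x = 1` if `x < τ x` in some
linear order of `D`, `-1` otherwise) maps `W'` injectively to `W`. So `2 finrank W ≥ |D| = 5 n`. -/
def S_c3 : Prop := ∀ (P : Type) [Finite P] (X : GenTriangulation P),
  5 * Nat.card P ≤ 2 * Module.finrank ℚ (X.cochains 3)

/-- **S_r3**. For `f ∈ cochains 3` the function `d f` on `P × (Fin 5 → Fin 5)` is determined by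
`d f p id` (it is alternating; it vanishes on non injective `x`), and `∑ p, ε p * d f p id = 0`:
`d f p id = ∑ i, (-1)^i f p i.succAbove`, and the terms of `(p,i)` and `(nb p i, gl p i i)` cancel:
`f (nb p i) (gl p i ∘ i.succAbove) = f p i.succAbove`, `gl p i ∘ i.succAbove =
(gl p i i).succAbove ∘ π`, `sign π = sign (gl p i) * (-1)^(i + gl p i i)`
(`decide` over `i` and all permutations `gl p i`), and `ε (nb p i) * sign (gl p i) = - ε p`.
`Finset.sum_involution`. So the rank is at most `n - 1`. -/
def S_r3 : Prop := ∀ (P : Type) [Finite P] [Nonempty P] (X : GenTriangulation P),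
  X.Orientable → Module.finrank ℚ ((X.cochains 3).map d) + 1 ≤ Nat.card P

/-- **S_b2**. `coboundaries 2 ≤ cocycles 2`: for `f ∈ cochains 1`, `d f p x = f p (x1,x2) - f p (x0,x2)
+ f p (x0,x1)` is alternating (check for the permutations of `Fin 3`), compatible with the gluings, and
`d (d f) = 0`; and rank-nullity (see `T_BB.lean` of OT). -/
def S_b2 : Prop := ∀ (P : Type) [Finite P] (X : GenTriangulation P),
  X.betti 2 + Module.finrank ℚ ((X.cochains 2).map d) +
    Module.finrank ℚ ((X.cochains 1).map d) ≤ Module.finrank ℚ (X.cochains 2)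

/-- **S_b3**. Rank-nullity (`d² = 0` is not needed; see `T_BB.lean` of OT). -/
def S_b3 : Prop := ∀ (P : Type) [Finite P] (X : GenTriangulation P),
  Module.finrank ℚ (X.cochains 3) ≤ X.betti 3 +
    Module.finrank ℚ ((X.cochains 3).map d) +
    Module.finrank ℚ ((X.cochains 2).map d)

/-- **S_B** `2 (β₂ + 1) + 3 n + 2 E ≤ 2 T + 2 w + 2 β₃`: from the statements above and rank-nullity for
`cochains 1`: `finrank (cochains 1) = finrank (cocycles 1) + finrank (map d)`. -/
def S_B : Prop := ∀ (P : Type) [Finite P] [Nonempty P] (X : GenTriangulation P),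
  X.Orientable → X.Valid →
  2 * (X.betti 2 + 1) + 3 * Nat.card P + 2 * X.E ≤ 2 * X.T + 2 * X.w + 2 * X.betti 3

/-! ### Growth -/

/-- **S_Step** (adding the neighbour `p = nb q j ∉ S` of `q ∈ S`; `i = gl q j j` is its facet glued to
the facet `j` of `q`).
Proof. `z ∈ KS S` vanishes on the facet `i` of `p` (gluing), so `z p i a` does not depend on `a ≠ i`
(cocycle condition) and determines `z` on `p`: the kernel of `z ↦ z p i a₀`, `KS S → ℚ`, is
`KS (insert p S)`, so `kS S ≤ kS (insert p S) + 1`. If `kS (insert p S) < kS S` there is `z ∈ KS S` with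
`z p i a = c ≠ 0` for all `a ≠ i`. The classes of the edges `(p,(i,a))`, `a ≠ i`, are in
`nzc (insert p S)` but not in `nzc S`: for each class `c'` of `relE`: `|z|` is constant on the class
(`relE x y` implies `z y = ± z x`), and is `0` on edges of pentachora of `S`. So `ez` increases by at least 1. If the four
classes were all the same, then for any `a, b ≠ i` there is a sign `s = ±1` with
`z' p i a = s * z' p i b` for all `z' ∈ Z` (induction on `EqvGen relE`: there is a sign `s`
with `z' y = s * z' x` for all `z' ∈ Z`); `s = 1` by taking `z' = z`; so `z' p a b = 0` for all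
`z' ∈ Z` and `a, b ≠ i`, i.e. the facet `i` is flat. -/
def S_Step : Prop := ∀ (P : Type) [Finite P] (X : GenTriangulation P) (S : Set P) (q : P) (j : Fin 5),
  q ∈ S → X.nb q j ∉ S →
  X.kS S ≤ X.kS (insert (X.nb q j) S) + 1 ∧
  (X.kS (insert (X.nb q j) S) < X.kS S →
    (∃ c : ℚ, c ≠ 0 ∧ ∃ z ∈ X.KS S, ∀ a, a ≠ X.gl q j j → z (X.nb q j) (X.gl q j j) a = c) ∧
    X.ez S + 1 ≤ X.ez (insert (X.nb q j) S) ∧
    (¬ X.Flat (X.nb q j) (X.gl q j j) → X.ez S + 2 ≤ X.ez (insert (X.nb q j) S)))

/-- **S_Start** (a pentachoron with a flat facet which is not pure): a cocycle is determined on `p` by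
one number, and some cocycle does not vanish on `p`. The classes of edges of `p` which are not `Zero`
are the classes of the edges at the vertex `i`. Also `p` has only one flat facet (two
facets contain all the vertices and two of them have common vertices). -/
def S_Start : Prop := ∀ (P : Type) [Finite P] (X : GenTriangulation P) (p : P) (i : Fin 5),
  X.Flat p i → ¬ X.Pure p →
  X.w ≤ X.kS {p} + 1 ∧ 1 ≤ X.ez {p} ∧ ∀ j, X.Flat p j → j = i

/-- **S_G** (growth, several flat facets). `b = nPure`.
Proof. For `S : Set P` let `o S` be the number of pairs `(p, j)` with `p ∈ S`, `X.Flat p j`,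
`nb p j ∉ S`, and `b S` the number of pure `p ∈ S`. Claim: there is a chain of sets, each obtained from the
previous one by adding a neighbour, from `{p₀}` (`p₀` not pure with a flat facet) to `univ`, with
`3 w + o S ≤ 3 kS S + ez S + |S| + 2 + 2 b S`.
Start: `S_Start` (`o ≤ 1`). Step, `p = nb q j ∉ S`, `i = gl q j j` (facet `i` of `p` is flat iff
facet `j` of `q` is flat), by `S_Step`:
facet `i` not flat, `kS` decreases: `p` has no flat facets (`z p i a = c ≠ 0`), `ez` increases by 2;
facet `i` not flat, `kS` does not decrease: `p` is not pure, has at most one flat facet (`S_Start`), so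
`o` increases by at most 1 and `|S|` by 1;
facet `i` flat, `kS` decreases: `p` has no other flat facet, `o` decreases by at least 1 (the pair `(q,j)`),
`ez` increases by 1, `|S|` by 1;
facet `i` flat, `kS` does not decrease: if `p` is not pure, `o` decreases by 1; if `p` is pure then `o`
increases by at most `4 - 1 = 3`, `|S|` increases by 1, `2 b S` by 2.
End: `kS univ = 0`, `o univ = 0`. -/
def S_G : Prop := ∀ (P : Type) [Finite P] (X : GenTriangulation P), X.Connected →
  (∃ p i, X.Flat p i ∧ ¬ X.Pure p) →
  3 * X.w ≤ Nat.card P + X.ez Set.univ + 2 + 2 * X.nPure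

/-- **S_D** (growth without flat facets).
Proof. `3 w ≤ 3 kS S + ez S + |S| + 2`. Step: `S_Step`. Start `S = {p}`: let `D = w - kS {p} ≤ 4` be the
rank of the restriction of `Z` to `p`; then `ez {p} ≥ D (D+1) / 2 ≥ 3 D - 3`: add the vertices
`0, 1, 2, 3, 4` one by one. Let `A = {0, …, v-1}`, `D_A` the rank of the restriction of `Z` to the edges of
`A`. If the rank increases by one when `v` is added there is `z ∈ Z` which vanishes on the edges of `A` with
`z p a v = c ≠ 0` for `a ∈ A`; so the edges `(a,v)` are not in the classes of the edges of `A`, and they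
are in at least `D_A + 1` classes: if `(a,v)` and `(b,v)` are in one class then `z' p a v = s * z' p b v` for all
`z' ∈ Z` with a sign `s`, `s = 1` because of `z`, so `z' p a b = 0` for all `z'`; the number of classes of
the relation `X.Zero p a b` on `A` is at least `D_A + 1`. So `ez {p} ≥ 1 + 2 + … + D`. -/
def S_D : Prop := ∀ (P : Type) [Finite P] [Nonempty P] (X : GenTriangulation P), X.Connected →
  (∀ p i, ¬ X.Flat p i) →
  3 * X.w ≤ Nat.card P + X.ez Set.univ + 2

/-- **S_C** (growth in a component with respect to the nonflat facets).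
Proof. Call `a, b` equivalent in `p` if `X.Zero p a b`. Grow from `S = {p₀}`, `p₀ ∈ C` with a flat facet and
not pure (`S_Start`), inside `C` by adding neighbours `p = nb q j` through nonflat facets `j` of `q`.
Invariant: `p₀ ∈ S ⊆ C` and either (1) `3 w ≤ 3 kS S + ez S + |S|`, or (2) `3 w ≤ 3 kS S + ez S + |S| + 1` and for each
`q ∈ S` there is at most one equivalence class in `q` with more than one element (i.e. `Zero q a b`,
`Zero q c d`, `a ≠ b`, `c ≠ d` imply `Zero q a c`). Start: (2) (if `ez {p₀} ≥ 2` even (1)).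
Step by `S_Step`: if `kS` does not decrease, (1) holds for the new set; if it decreases, (1) is
inherited (`ez` increases by 2, `|S|` by 1), and so is (2): the facet `i` of the new `p` has the equivalence
classes of the facet `j` of `q`, and the vertex `i` is equivalent to no other vertex as `z p i a = c ≠ 0`.
Last step: `S ≠ C`, `insert p S = C`, (2) holds for `S`, and `kS` decreases; contradiction as follows.
Let `z ∈ KS S`, `z p i a = c ≠ 0` for `a ≠ i`. Each facet `m ≠ i` of `p` contains `i` and is not flat, so
`nb p m ∈ C`; it is not in `S`, since `z` vanishes on `S` but not on this facet, so `nb p m = p`. Also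
`gl p m m ≠ i` (the facet `i` is glued to `q ∈ S`, `q ≠ p`). `σ = gl p m` fixes `i`: `z` (extended to
`z p a i = - c`, `z p a b = 0` for `a, b ≠ i`) is preserved on the facet `m`, and
`i` is the only vertex of the facet `m` on which ... `z p i a = c ≠ 0` for all the other vertices. And for all `z' ∈ Z`:
`z' p i (σ a) = z' p (σ i) (σ a) = z' p i a`, so `a` and `σ a` are equivalent in `p` (`a ≠ i, m`).
Let `m' = σ m` (`≠ m` by `no_fix`). `σ` maps `V \ {i, m}` bijectively to `V \ {i, m'}` preserving
equivalence classes; counting the elements of an equivalence class in both sets gives that `m` and `m'`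
are equivalent. The map `m ↦ m'` is an involution without fixed points of the four vertices `≠ i`, so there are two
disjoint pairs of equivalent vertices; by (2) for `q` (transported to the facet `i` of `p`) all four
are equivalent, i.e. the facet `i` is flat, but it is not.
So (1) holds at the end if `C ≠ {p₀}`; if `C = {p₀}` then `w ≤ kS + 1`, `ez ≥ 1`, `|C| = 1`. -/
def S_C : Prop := ∀ (P : Type) [Finite P] (X : GenTriangulation P) (C : Set P),
  (∀ p ∈ C, ∀ j, ¬ X.Flat p j → X.nb p j ∈ C) →
  (∀ S : Set P, S ⊆ C → S.Nonempty → (∀ p ∈ S, ∀ j, ¬ X.Flat p j → X.nb p j ∈ S) → S = C) →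
  (∃ p ∈ C, (∃ i, X.Flat p i) ∧ ¬ X.Pure p) →
  3 * X.w ≤ 3 * X.kS C + X.ez C + C.ncard + 1 ∧
  (¬ (C.ncard = 1 ∧ X.ez C = 1) → 3 * X.w ≤ 3 * X.kS C + X.ez C + C.ncard)

/-- **S_Sum** (sum over the components). Let `N p q := ∃ j, ¬ X.Flat p j ∧ q = nb p j`, `Q = Quot N`,
`C_c = {p | mk p = c}` for `c : Q`. By connectedness and since there is a flat facet, each `C_c` contains some
`p` with a flat facet (otherwise `C_c` is closed under all `nb`, so `C_c = univ`). If this `p` is pure then
`C_c = {p}`, `kS C_c = w`, `ez C_c = 0`; otherwise `S_C` applies; if moreover `|C_c| = 1` and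
`ez C_c = 1` then `C_c = {p}` and `p` is a cap (its facets other than the flat facet `i` are not flat, so
they are glued to `C_c = {p}`). Sum over all `c`: `∑ |C_c| = n`; `∑ ez C_c ≤ ez univ` (the sets
`nzc C_c` are disjoint: if an edge of `p` is not `Zero` then the facets which contain it are not flat,
so the component is constant on the classes of `relE` of edges which are not `Zero`); `∑ (w - kS C_c) ≥ w` (a
cocycle which vanishes on all `C_c` is `0`; the codimension of an intersection of finitely many
subspaces is at most the sum of the codimensions). -/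
def S_Sum : Prop := ∀ (P : Type) [Finite P] (X : GenTriangulation P), X.Connected →
  (∃ p i, X.Flat p i) →
  3 * X.w + X.nPure ≤ Nat.card P + X.ez Set.univ + X.nCap

/-! ### Counting -/

/-- **S_E**. A class of `relE` consists of `Zero` edges or of edges which are not `Zero`. -/
def S_E : Prop := ∀ (P : Type) [Finite P] (X : GenTriangulation P),
  X.E = X.Ez + X.ez Set.univ

/-- **S_Ev**: `(p,i) ↦ (nb p i, gl p i i)` is an involution of `P × Fin 5` without fixed points. -/
def S_Ev : Prop := ∀ (P : Type) [Finite P] (_ : GenTriangulation P), Even (Nat.card P)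

/-- **S_V**: if `β₁ = 0` then all cocycles are coboundaries. (`z ∈ Z` gives the cocycle
`f p x = z p (x 0) (x 1)` in `cocycles 1`; `betti 1 = 0` means `cocycles 1 ≤ coboundaries 1`;
`d φ p x = φ p (x ∘ succAbove 0) - φ p (x ∘ succAbove 1)`.) -/
def S_V : Prop := ∀ (P : Type) [Finite P] (X : GenTriangulation P), X.betti 1 = 0 →
  ∀ z ∈ X.Z, ∃ φ : P → Fin 5 → ℚ, (∀ p i a, a ≠ i → φ (X.nb p i) (X.gl p i a) = φ p a) ∧
    ∀ p a b, z p a b = φ p b - φ p a

/-- **S_Z** (uses `S_V`): `Zero` edges are the edges whose ends are identified. If the ends are not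
identified use `φ =` the indicator function of the class of `(p, a)`. -/
def S_Z : Prop := ∀ (P : Type) [Finite P] (X : GenTriangulation P), X.betti 1 = 0 →
  ∀ p a b, X.Zero p a b ↔ X.Same (p, ![a]) (p, ![b])

/-- **S_Cones** (with `S_Z` as hypothesis): for a cap `p` with flat facet `i`: the
vertex `i` of `p` is not `Same` as the other vertices of `p`, and is fixed by `gl p j` for `j ≠ i`
(facet `j` is glued to a facet of `p` which is not the facet `i`, as `i` is flat and `j` is not; the vertices
`≠ i` of `p` are all `Same`, `i` is not). So the class of `(p, i)` is `{(p, i)}`. The four edges `(i, b)` are not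
`Zero`, so `ez {p} = 1` says that they are in one class of `relE`; `EqvGen relE (p,(i,b)) (p,(i,c))` implies
`Same (p,![i,b]) (p,![i,c])` or `Same (p,![i,b]) (p,![c,i])`; the second is impossible since
it gives `Same (p,![i]) (p,![c])`. `p ↦ (p, i)` is injective. -/
def S_Cones : Prop := ∀ (P : Type) [Finite P] (X : GenTriangulation P), X.betti 1 = 0 →
  X.nCap ≤ X.cones

/-- **S_Loops** (with `S_Z` as hypothesis): the classes of loops map injectively to the classes of `Zero` edges
(`EqvGen relE (p,(a,b)) (q,(c,e))` implies `Same (p,![a,b]) (q,![c,e])` or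
`Same (p,![a,b]) (q,![e,c])`); and `nPure = onePoint`. -/
def S_Loops : Prop := ∀ (P : Type) [Finite P] (X : GenTriangulation P), X.betti 1 = 0 →
  X.loops ≤ X.Ez ∧ X.nPure = X.onePoint

end Pool.Agent.H830.GT
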