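import Pool.Agent.H830.GT.Stm

/-!
# S_b2 and S_b3 (helper921 for helper830)
-/

namespace Pool.Agent.H830.GT

open GenTriangulation (d)

namespace BBaux

open Module

section

variable {E F : Type} [AddCommGroup E] [Module ℚ E] [FiniteDimensional ℚ E] [AddCommGroup F]
  [Module ℚ F]

omit [FiniteDimensional ℚ E] in
theorem finrank_comap (C D : Submodule ℚ E) :
    finrank ℚ (D.comap C.subtype) = finrank ℚ (C ⊓ D : Submodule ℚ E) := by
  rw [← Submodule.map_comap_subtype, Submodule.finrank_map_subtype_eq]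

theorem rk_null (C : Submodule ℚ E) (d : E →ₗ[ℚ] F) :
    finrank ℚ (C.map d) + finrank ℚ (C ⊓ LinearMap.ker d : Submodule ℚ E) = finrank ℚ C := by
  have h := LinearMap.finrank_range_add_finrank_ker (d.domRestrict C)
  rw [LinearMap.range_domRestrict, LinearMap.ker_domRestrict] at h
  rw [← finrank_comap]
  exact h

end

variable {P : Type}

theorem d_apply {k : ℕ} (f : P → (Fin (k + 1) → Fin 5) → ℚ) (p : P) (x : Fin (k + 2) → Fin 5) :
    d f p x = ∑ t : Fin (k + 2), (-1) ^ (t : ℕ) * f p (fun s => x (t.succAbove s)) := rfl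

theorem two (g : (Fin 2 → Fin 5) → ℚ) (y : Fin 2 → Fin 5) : g y = g ![y 0, y 1] := by
  congr 1
  funext s
  fin_cases s <;> rfl

theorem d1 (f : P → (Fin 2 → Fin 5) → ℚ) (p : P) (x : Fin 3 → Fin 5) :
    d f p x = f p ![x 1, x 2] - f p ![x 0, x 2] + f p ![x 0, x 1] := by
  rw [d_apply, Fin.sum_univ_three, two (f p) (fun s => x ((0 : Fin 3).succAbove s)),
    two (f p) (fun s => x ((1 : Fin 3).succAbove s)), two (f p) (fun s => x ((2 : Fin 3).succAbove s))]
  have e0 : (0 : Fin 3).succAbove 0 = 1 := by decide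
  have e1 : (0 : Fin 3).succAbove 1 = 2 := by decide
  have e2 : (1 : Fin 3).succAbove 0 = 0 := by decide
  have e3 : (1 : Fin 3).succAbove 1 = 2 := by decide
  have e4 : (2 : Fin 3).succAbove 0 = 0 := by decide
  have e5 : (2 : Fin 3).succAbove 1 = 1 := by decide
  rw [e0, e1, e2, e3, e4, e5]
  simp
  ring

theorem dd (f : P → (Fin 2 → Fin 5) → ℚ) : d (d f) = 0 := by
  funext p x
  rw [d_apply, Fin.sum_univ_four, d1, d1, d1, d1]
  have e00 : (0 : Fin 4).succAbove 0 = 1 := by decide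
  have e01 : (0 : Fin 4).succAbove 1 = 2 := by decide
  have e02 : (0 : Fin 4).succAbove 2 = 3 := by decide
  have e10 : (1 : Fin 4).succAbove 0 = 0 := by decide
  have e11 : (1 : Fin 4).succAbove 1 = 2 := by decide
  have e12 : (1 : Fin 4).succAbove 2 = 3 := by decide
  have e20 : (2 : Fin 4).succAbove 0 = 0 := by decide
  have e21 : (2 : Fin 4).succAbove 1 = 1 := by decide
  have e22 : (2 : Fin 4).succAbove 2 = 3 := by decide
  have e30 : (3 : Fin 4).succAbove 0 = 0 := by decide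
  have e31 : (3 : Fin 4).succAbove 1 = 1 := by decide
  have e32 : (3 : Fin 4).succAbove 2 = 2 := by decide
  rw [e00, e01, e02, e10, e11, e12, e20, e21, e22, e30, e31, e32]
  simp only [Fin.val_zero, Fin.val_one, Fin.val_two, Pi.zero_apply]
  have : ((3 : Fin 4) : ℕ) = 3 := rfl
  rw [this]
  ring

/-- an alternating function: it is enough to look at the transpositions -/
theorem alt_of_swap {g : (Fin 3 → Fin 5) → ℚ}
    (h : ∀ (i j : Fin 3) (x : Fin 3 → Fin 5), i ≠ j → g (x ∘ Equiv.swap i j) = - g x)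
    (π : Equiv.Perm (Fin 3)) : ∀ x, g (x ∘ π) = ((Equiv.Perm.sign π : ℤˣ) : ℤ) * g x := by
  induction π using Equiv.Perm.swap_induction_on with
  | one => intro x; simp
  | swap_mul π i j hij ih =>
    intro x
    have e : x ∘ (Equiv.swap i j * π : Equiv.Perm (Fin 3)) = (x ∘ Equiv.swap i j) ∘ π := rfl
    rw [e, ih, h i j x hij, Equiv.Perm.sign_mul, Equiv.Perm.sign_swap hij]
    push_cast
    ring

theorem f_swap {f : (Fin 2 → Fin 5) → ℚ}
    (h : ∀ x (π : Equiv.Perm (Fin 2)), f (x ∘ π) = ((Equiv.Perm.sign π : ℤˣ) : ℤ) * f x) (a b : Fin 5) :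
    f ![a, b] = - f ![b, a] := by
  have h1 := h ![b, a] (Equiv.swap 0 1)
  rw [Equiv.Perm.sign_swap (by decide)] at h1
  have e : (![b, a] ∘ (Equiv.swap (0 : Fin 2) 1) : Fin 2 → Fin 5) = ![a, b] := by
    funext s
    fin_cases s <;> rfl
  rw [e] at h1
  rw [h1]
  push_cast
  ring

theorem d_mem (X : GenTriangulation P) (f : P → (Fin 2 → Fin 5) → ℚ)
    (hf : f ∈ X.cochains 1) : (d f : P → (Fin 3 → Fin 5) → ℚ) ∈ X.cochains 2 := by
  obtain ⟨hf1, hf2⟩ := hf
  refine ⟨fun p x π => ?_, fun p x i h => ?_⟩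
  · refine alt_of_swap (g := fun x => (d f : P → (Fin 3 → Fin 5) → ℚ) p x) ?_ π x
    intro i j x hij
    simp only [d1, Function.comp_apply]
    have hs := fun a b => f_swap (fun x π => hf1 p x π) a b
    have hs' : ∀ a b, f p ![a, b] = - f p ![b, a] := hs
    fin_cases i <;> fin_cases j
    · exact absurd rfl hij
    · have e0 : Equiv.swap (0 : Fin 3) 1 0 = 1 := by decide
      have e1 : Equiv.swap (0 : Fin 3) 1 1 = 0 := by decide
      have e2 : Equiv.swap (0 : Fin 3) 1 2 = 2 := by decide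
      show f p ![x (Equiv.swap (0 : Fin 3) 1 1), x (Equiv.swap (0 : Fin 3) 1 2)] -
        f p ![x (Equiv.swap (0 : Fin 3) 1 0), x (Equiv.swap (0 : Fin 3) 1 2)] +
        f p ![x (Equiv.swap (0 : Fin 3) 1 0), x (Equiv.swap (0 : Fin 3) 1 1)] = _
      rw [e0, e1, e2, hs' (x 1) (x 0)]
      ring
    · have e0 : Equiv.swap (0 : Fin 3) 2 0 = 2 := by decide
      have e1 : Equiv.swap (0 : Fin 3) 2 1 = 1 := by decide
      have e2 : Equiv.swap (0 : Fin 3) 2 2 = 0 := by decide
      show f p ![x (Equiv.swap (0 : Fin 3) 2 1), x (Equiv.swap (0 : Fin 3) 2 2)] -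
        f p ![x (Equiv.swap (0 : Fin 3) 2 0), x (Equiv.swap (0 : Fin 3) 2 2)] +
        f p ![x (Equiv.swap (0 : Fin 3) 2 0), x (Equiv.swap (0 : Fin 3) 2 1)] = _
      rw [e0, e1, e2, hs' (x 1) (x 0), hs' (x 2) (x 0), hs' (x 2) (x 1)]
      ring
    · have e0 : Equiv.swap (1 : Fin 3) 0 0 = 1 := by decide
      have e1 : Equiv.swap (1 : Fin 3) 0 1 = 0 := by decide
      have e2 : Equiv.swap (1 : Fin 3) 0 2 = 2 := by decide
      show f p ![x (Equiv.swap (1 : Fin 3) 0 1), x (Equiv.swap (1 : Fin 3) 0 2)] -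
        f p ![x (Equiv.swap (1 : Fin 3) 0 0), x (Equiv.swap (1 : Fin 3) 0 2)] +
        f p ![x (Equiv.swap (1 : Fin 3) 0 0), x (Equiv.swap (1 : Fin 3) 0 1)] = _
      rw [e0, e1, e2, hs' (x 1) (x 0)]
      ring
    · exact absurd rfl hij
    · have e0 : Equiv.swap (1 : Fin 3) 2 0 = 0 := by decide
      have e1 : Equiv.swap (1 : Fin 3) 2 1 = 2 := by decide
      have e2 : Equiv.swap (1 : Fin 3) 2 2 = 1 := by decide
      show f p ![x (Equiv.swap (1 : Fin 3) 2 1), x (Equiv.swap (1 : Fin 3) 2 2)] -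
        f p ![x (Equiv.swap (1 : Fin 3) 2 0), x (Equiv.swap (1 : Fin 3) 2 2)] +
        f p ![x (Equiv.swap (1 : Fin 3) 2 0), x (Equiv.swap (1 : Fin 3) 2 1)] = _
      rw [e0, e1, e2, hs' (x 2) (x 1)]
      ring
    · have e0 : Equiv.swap (2 : Fin 3) 0 0 = 2 := by decide
      have e1 : Equiv.swap (2 : Fin 3) 0 1 = 1 := by decide
      have e2 : Equiv.swap (2 : Fin 3) 0 2 = 0 := by decide
      show f p ![x (Equiv.swap (2 : Fin 3) 0 1), x (Equiv.swap (2 : Fin 3) 0 2)] -
        f p ![x (Equiv.swap (2 : Fin 3) 0 0), x (Equiv.swap (2 : Fin 3) 0 2)] +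
        f p ![x (Equiv.swap (2 : Fin 3) 0 0), x (Equiv.swap (2 : Fin 3) 0 1)] = _
      rw [e0, e1, e2, hs' (x 1) (x 0), hs' (x 2) (x 0), hs' (x 2) (x 1)]
      ring
    · have e0 : Equiv.swap (2 : Fin 3) 1 0 = 0 := by decide
      have e1 : Equiv.swap (2 : Fin 3) 1 1 = 2 := by decide
      have e2 : Equiv.swap (2 : Fin 3) 1 2 = 1 := by decide
      show f p ![x (Equiv.swap (2 : Fin 3) 1 1), x (Equiv.swap (2 : Fin 3) 1 2)] -
        f p ![x (Equiv.swap (2 : Fin 3) 1 0), x (Equiv.swap (2 : Fin 3) 1 2)] +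
        f p ![x (Equiv.swap (2 : Fin 3) 1 0), x (Equiv.swap (2 : Fin 3) 1 1)] = _
      rw [e0, e1, e2, hs' (x 2) (x 1)]
      ring
    · exact absurd rfl hij
  · rw [d_apply, d_apply]
    refine Finset.sum_congr rfl fun t _ => ?_
    rw [hf2 p (fun s => x (t.succAbove s)) i (fun s => h _)]

theorem le_cocycles (X : GenTriangulation P) : X.coboundaries 2 ≤ X.cocycles 2 := by
  intro g hg
  obtain ⟨f, hf, rfl⟩ := (Submodule.mem_map.1 hg : ∃ f ∈ X.cochains 1, d f = g)
  refine Submodule.mem_inf.2 ⟨d_mem X f hf, ?_⟩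
  rw [LinearMap.mem_ker]
  exact dd f

theorem betti_eq [Finite P] (X : GenTriangulation P) (k : ℕ) :
    X.betti k + finrank ℚ (X.cocycles k ⊓ X.coboundaries k : Submodule ℚ _) =
      finrank ℚ (X.cocycles k) := by
  have h := Submodule.finrank_quotient_add_finrank ((X.coboundaries k).comap (X.cocycles k).subtype)
  rw [finrank_comap (X.cocycles k) (X.coboundaries k)] at h
  exact h

end BBaux

open BBaux in
theorem T_b2 : S_b2 := by
  intro P _ X
  have h1 := betti_eq X 2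
  have h2 := rk_null (X.cochains 2) (d (P := P))
  have h3 : X.cocycles 2 ⊓ X.coboundaries 2 = X.coboundaries 2 :=
    inf_eq_right.2 (le_cocycles X)
  have h5 : Module.finrank ℚ (X.coboundaries 2) =
    Module.finrank ℚ ((X.cochains 1).map d) := rfl
  have h4 : Module.finrank ℚ (X.cocycles 2) =
    Module.finrank ℚ (X.cochains 2 ⊓ LinearMap.ker d : Submodule ℚ _) := rfl
  rw [h3] at h1
  omega

open BBaux in
theorem T_b3 : S_b3 := by
  intro P _ X
  have h1 := betti_eq X 3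
  have h2 := rk_null (X.cochains 3) (d (P := P))
  have h3 : Module.finrank ℚ (X.cocycles 3 ⊓ X.coboundaries 3 : Submodule ℚ _) ≤
      Module.finrank ℚ (X.coboundaries 3) := Submodule.finrank_mono inf_le_right
  have h5 : Module.finrank ℚ (X.coboundaries 3) =
    Module.finrank ℚ ((X.cochains 2).map d) := rfl
  have h4 : Module.finrank ℚ (X.cocycles 3) =
    Module.finrank ℚ (X.cochains 3 ⊓ LinearMap.ker d : Submodule ℚ _) := rfl
  omega

end Pool.Agent.H830.GT
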