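import Pool.Agent.H830.GT.Stm

/-!
# Cochains and classes
-/

set_option autoImplicit false

namespace Pool.Agent.H830.GT

open Pool.Agent.H830.OT (TF LF ncl)

namespace C12aux

open GenTriangulation

variable {P : Type} (X : GenTriangulation P)

/-! ### two-cochains -/

theorem card_compl_pair (x : TF) : ({x.1.1, x.1.2}ᶜ : Finset (Fin 5)).card = 3 := by
  rw [Finset.card_compl, Finset.card_pair x.2]
  rfl

/-- the vertices of a triangle -/
def tri (x : TF) : Fin 3 → Fin 5 :=
  (({x.1.1, x.1.2}ᶜ : Finset (Fin 5)).orderEmbOfFin (card_compl_pair x))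

theorem tri_inj (x : TF) : Function.Injective (tri x) :=
  (({x.1.1, x.1.2}ᶜ : Finset (Fin 5)).orderEmbOfFin (card_compl_pair x)).injective

theorem tri_surj (x : TF) (a : Fin 5) (h1 : a ≠ x.1.1) (h2 : a ≠ x.1.2) : ∃ t, tri x t = a := by
  have h : a ∈ (({x.1.1, x.1.2}ᶜ : Finset (Fin 5)) : Set (Fin 5)) := by
    simp [h1, h2]
  rw [← Finset.range_orderEmbOfFin _ (card_compl_pair x)] at h
  exact h

theorem tri_perm (x : TF) (y : Fin 3 → Fin 5) (hy : Function.Injective y)
    (h : ∀ t, y t ≠ x.1.1 ∧ y t ≠ x.1.2) : ∃ π : Equiv.Perm (Fin 3), y = tri x ∘ π := by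
  have h1 : ∀ t, ∃ s, tri x s = y t := fun t => tri_surj x (y t) (h t).1 (h t).2
  choose g hg using h1
  have hgi : Function.Injective g := by
    intro s t hst
    apply hy
    rw [← hg s, ← hg t, hst]
  refine ⟨Equiv.ofBijective g (Finite.injective_iff_bijective.1 hgi), ?_⟩
  funext t
  exact (hg t).symm

theorem exists_pair : ∀ a b c : Fin 5, ∃ j k : Fin 5, j ≠ k ∧ a ≠ j ∧ a ≠ k ∧ b ≠ j ∧ b ≠ k ∧
    c ≠ j ∧ c ≠ k := by
  decide

/-- an alternating function vanishes on repeated vertices -/
theorem alt_zero {k : ℕ} {f : P → (Fin (k + 1) → Fin 5) → ℚ} (hf : f ∈ X.cochains k) (p : P)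
    (y : Fin (k + 1) → Fin 5) (hy : ¬ Function.Injective y) : f p y = 0 := by
  unfold Function.Injective at hy
  push Not at hy
  obtain ⟨s, t, h1, h2⟩ := hy
  have h3 := hf.1 p y (Equiv.swap s t)
  have h4 : y ∘ (Equiv.swap s t) = y := by
    funext u
    simp only [Function.comp_apply]
    rcases eq_or_ne u s with h | h
    · rw [h, Equiv.swap_apply_left, h1]
    · rcases eq_or_ne u t with h' | h'
      · rw [h', Equiv.swap_apply_right, h1]
      · rw [Equiv.swap_apply_of_ne_of_ne h h']
  rw [h4, Equiv.Perm.sign_swap h2] at h3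
  push_cast at h3
  linarith

/-- the function vanishes on a triangle -/
def Van (f : P → (Fin 3 → Fin 5) → ℚ) (x : P × TF) : Prop :=
  ∀ y : Fin 3 → Fin 5, (∀ t, y t ≠ x.2.1.1 ∧ y t ≠ x.2.1.2) → f x.1 y = 0

theorem van_rel {f : P → (Fin 3 → Fin 5) → ℚ} (hf : f ∈ X.cochains 2) (x y : P × TF)
    (h : X.relT x y) : Van f x ↔ Van f y := by
  obtain ⟨p, ⟨⟨j, k⟩, hjk⟩⟩ := x
  obtain ⟨q, ⟨⟨j', k'⟩, hjk'⟩⟩ := y
  rcases h with ⟨h1, h2⟩ | ⟨h1, h2⟩
  · simp only [Prod.mk.injEq] at h1 h2
    obtain ⟨h2, h3⟩ := h2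
    subst h1 h2 h3
    constructor
    · intro H z hz
      exact H z (fun t => ⟨(hz t).2, (hz t).1⟩)
    · intro H z hz
      exact H z (fun t => ⟨(hz t).2, (hz t).1⟩)
  · simp only [Prod.mk.injEq] at h1 h2
    obtain ⟨h2, h3⟩ := h2
    subst h1 h2 h3
    constructor
    · intro H z hz
      have h4 := hf.2 p (fun t => (X.gl p j).symm (z t)) j (by
        intro t ht
        apply (hz t).1
        exact (Equiv.symm_apply_eq _).1 ht)
      simp only [Equiv.apply_symm_apply] at h4
      show f (X.nb p j) z = 0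
      rw [h4]
      refine H _ (fun t => ⟨?_, ?_⟩)
      · intro ht
        apply (hz t).1
        have ht' : (X.gl p j).symm (z t) = j := ht
        exact (Equiv.symm_apply_eq _).1 ht'
      · intro ht
        apply (hz t).2
        have ht' : (X.gl p j).symm (z t) = k := ht
        exact (Equiv.symm_apply_eq _).1 ht'
    · intro H z hz
      have h4 := hf.2 p z j (fun t => (hz t).1)
      show f p z = 0
      rw [← h4]
      refine H _ (fun t => ⟨?_, ?_⟩)
      · intro ht
        exact (hz t).1 ((X.gl p j).injective ht)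
      · intro ht
        exact (hz t).2 ((X.gl p j).injective ht)

theorem van_eqv {f : P → (Fin 3 → Fin 5) → ℚ} (hf : f ∈ X.cochains 2) {x y : P × TF}
    (h : Relation.EqvGen X.relT x y) : Van f x ↔ Van f y := by
  induction h with
  | rel x y h => exact van_rel X hf x y h
  | refl x => exact Iff.rfl
  | symm x y _ ih => exact ih.symm
  | trans x y z _ _ ih1 ih2 => exact ih1.trans ih2

/-- two-cochains as functions on the triangle classes -/
noncomputable def L2 : X.cochains 2 →ₗ[ℚ] (Quot X.relT → ℚ) where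
  toFun f c := f.1 (Quot.out c).1 (tri (Quot.out c).2)
  map_add' f g := rfl
  map_smul' c f := rfl

theorem L2_inj : Function.Injective (L2 X) := by
  rw [injective_iff_map_eq_zero]
  intro f hf
  apply Subtype.ext
  funext p y
  show f.1 p y = 0
  by_cases hy : Function.Injective y
  · obtain ⟨j, k, hjk, a1, a2, b1, b2, c1, c2⟩ := exists_pair (y 0) (y 1) (y 2)
    set x : P × TF := (p, ⟨(j, k), hjk⟩) with hx
    set r : P × TF := Quot.out (Quot.mk X.relT x) with hr
    have h1 : Relation.EqvGen X.relT r x := Quot.eqvGen_exact (Quot.out_eq (Quot.mk X.relT x))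
    have h2 : Van f.1 r := by
      intro z hz
      by_cases hzi : Function.Injective z
      · obtain ⟨π, rfl⟩ := tri_perm r.2 z hzi hz
        have h3 : f.1 r.1 (tri r.2) = 0 := congrFun hf (Quot.mk X.relT x)
        rw [f.2.1 r.1 (tri r.2) π, h3, mul_zero]
      · exact alt_zero X f.2 r.1 z hzi
    have h4 := (van_eqv X f.2 h1).1 h2
    refine h4 y (fun t => ?_)
    fin_cases t
    · exact ⟨a1, a2⟩
    · exact ⟨b1, b2⟩
    · exact ⟨c1, c2⟩
  · exact alt_zero X f.2 p y hy

/-! ### one-cochains -/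

/-- the edge -/
def ed (x : P × TF) : P × (Fin 2 → Fin 5) := (x.1, ![x.2.1.1, x.2.1.2])

/-- the reversed element -/
def rv (x : P × TF) : P × TF := (x.1, ⟨(x.2.1.2, x.2.1.1), fun h => x.2.2 h.symm⟩)

theorem rv_rv (x : P × TF) : rv (rv x) = x := rfl

theorem same_comp {k : ℕ} {x y : P × (Fin k → Fin 5)} (h : X.Same x y)
    (π : Equiv.Perm (Fin k)) : X.Same (x.1, x.2 ∘ π) (y.1, y.2 ∘ π) := by
  unfold Same at h ⊢
  induction h with
  | rel x y h =>
    obtain ⟨i, h1, h2⟩ := h
    refine Relation.EqvGen.rel _ _ ⟨i, fun t => h1 (π t), ?_⟩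
    rw [h2]
    rfl
  | refl x => exact Relation.EqvGen.refl _
  | symm x y _ ih => exact Relation.EqvGen.symm _ _ ih
  | trans x y z _ _ ih1 ih2 => exact Relation.EqvGen.trans _ _ _ ih1 ih2

theorem same_symm {k : ℕ} {x y : P × (Fin k → Fin 5)} (h : X.Same x y) : X.Same y x :=
  Relation.EqvGen.symm _ _ h

theorem same_trans {k : ℕ} {x y z : P × (Fin k → Fin 5)} (h : X.Same x y) (h' : X.Same y z) :
    X.Same x z := Relation.EqvGen.trans _ _ _ h h'

theorem vec_comp_swap (a b : Fin 5) : (![a, b] : Fin 2 → Fin 5) ∘ (Equiv.swap 0 1) = ![b, a] := by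
  funext t
  fin_cases t
  · simp
  · simp

theorem same_rv {x y : P × TF} (h : X.Same (ed x) (ed y)) : X.Same (ed (rv x)) (ed (rv y)) := by
  have h1 := same_comp X h (Equiv.swap 0 1)
  unfold ed at h1
  simp only [vec_comp_swap] at h1
  exact h1

theorem relE_same {x y : P × TF} (h : Relation.EqvGen X.relE x y) :
    X.Same (ed x) (ed y) ∨ X.Same (ed x) (ed (rv y)) := by
  induction h with
  | rel x y h =>
    rcases h with ⟨h1, h2⟩ | ⟨i, h1, h2, h3, h4⟩
    · right
      have : rv y = x := by
        obtain ⟨p, ⟨⟨j, k⟩, hjk⟩⟩ := x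
        obtain ⟨q, ⟨⟨j', k'⟩, hjk'⟩⟩ := y
        simp only [Prod.mk.injEq] at h1 h2
        obtain ⟨h2, h3⟩ := h2
        subst h1 h2 h3
        rfl
      rw [this]
      exact Relation.EqvGen.refl _
    · left
      refine Relation.EqvGen.rel _ _ ⟨i, ?_, ?_⟩
      · intro t
        fin_cases t
        · exact h1
        · exact h2
      · unfold ed
        rw [h3]
        apply Prod.ext
        · rfl
        · funext t
          fin_cases t
          · show y.2.1.1 = _
            rw [h4]
            rfl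
          · show y.2.1.2 = _
            rw [h4]
            rfl
  | refl x => left; exact Relation.EqvGen.refl _
  | symm x y _ ih =>
    rcases ih with h | h
    · left; exact same_symm X h
    · right
      have := same_rv X (same_symm X h)
      rwa [rv_rv] at this
  | trans x y z _ _ ih1 ih2 =>
    rcases ih1 with h | h
    · rcases ih2 with h' | h'
      · left; exact same_trans X h h'
      · right; exact same_trans X h h'
    · rcases ih2 with h' | h'
      · right; exact same_trans X h (same_rv X h')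
      · left
        have := same_rv X h'
        rw [rv_rv] at this
        exact same_trans X h this

theorem not_same_rv (hV : X.Valid) (x : P × TF) : ¬ X.Same (ed x) (ed (rv x)) := by
  intro h
  have h1 := hV 2 x.1 ![x.2.1.1, x.2.1.2] (Equiv.swap 0 1) (by
    intro s t hst
    fin_cases s <;> fin_cases t
    · rfl
    · exact absurd hst x.2.2
    · exact absurd hst.symm x.2.2
    · rfl) (by
    rw [vec_comp_swap]
    exact h)
  have h2 := congrArg (fun π : Equiv.Perm (Fin 2) => π 0) h1
  simp at h2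

open Classical in
/-- the sign of an edge -/
noncomputable def sg (x : P × TF) : ℚ :=
  if X.Same (ed (Quot.out (Quot.mk X.relE x))) (ed x) then 1 else -1

theorem sg_ne (x : P × TF) : sg X x ≠ 0 := by
  unfold sg
  split_ifs <;> norm_num

theorem relE_rv (x : P × TF) : X.relE x (rv x) := Or.inl ⟨rfl, rfl⟩

theorem mk_rv (x : P × TF) : Quot.mk X.relE (rv x) = Quot.mk X.relE x :=
  (Quot.sound (relE_rv X x)).symm

theorem out_same (x : P × TF) : X.Same (ed (Quot.out (Quot.mk X.relE x))) (ed x) ∨
    X.Same (ed (Quot.out (Quot.mk X.relE x))) (ed (rv x)) :=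
  relE_same X (Quot.eqvGen_exact (Quot.out_eq (Quot.mk X.relE x)))

theorem sg_rv (hV : X.Valid) (x : P × TF) : sg X (rv x) = - sg X x := by
  unfold sg
  rw [mk_rv]
  by_cases h : X.Same (ed (Quot.out (Quot.mk X.relE x))) (ed x)
  · rw [if_pos h, if_neg]
    intro h'
    exact not_same_rv X hV x (same_trans X (same_symm X h) h')
  · rw [if_neg h, if_pos, neg_neg]
    exact (out_same X x).resolve_left h

theorem sg_glue (x y : P × TF) (h : X.Same (ed x) (ed y)) (h' : X.relE x y) :
    sg X y = sg X x := by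
  unfold sg
  rw [← Quot.sound h']
  by_cases h1 : X.Same (ed (Quot.out (Quot.mk X.relE x))) (ed x)
  · rw [if_pos h1, if_pos (same_trans X h1 h)]
  · rw [if_neg h1, if_neg]
    intro h2
    exact h1 (same_trans X h2 (same_symm X h))

open Classical in
/-- the one-cochain of a function on the edge classes -/
noncomputable def f1 (φ : Quot X.relE → ℚ) (p : P) (y : Fin 2 → Fin 5) : ℚ :=
  if h : y 0 ≠ y 1 then sg X (p, ⟨(y 0, y 1), h⟩) * φ (Quot.mk _ (p, ⟨(y 0, y 1), h⟩)) else 0

theorem f1_mem (hV : X.Valid) (φ : Quot X.relE → ℚ) : f1 X φ ∈ X.cochains 1 := by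
  refine ⟨fun p y π => ?_, fun p y i h => ?_⟩
  · have hπ : π = 1 ∨ π = Equiv.swap 0 1 := by
      revert π
      decide
    rcases hπ with rfl | rfl
    · rw [Equiv.Perm.sign_one]
      simp
    · have hs : Equiv.Perm.sign (Equiv.swap (0 : Fin (1 + 1)) 1) = -1 :=
        Equiv.Perm.sign_swap (by decide)
      rw [hs]
      unfold f1
      have e0 : (y ∘ (Equiv.swap (0 : Fin (1 + 1)) 1)) 0 = y 1 := by
        simp
      have e1 : (y ∘ (Equiv.swap (0 : Fin (1 + 1)) 1)) 1 = y 0 := by
        simp
      by_cases h : y 0 ≠ y 1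
      · have h' : (y ∘ (Equiv.swap (0 : Fin (1 + 1)) 1)) 0 ≠
            (y ∘ (Equiv.swap (0 : Fin (1 + 1)) 1)) 1 := by
          rw [e0, e1]
          exact h.symm
        rw [dif_pos h, dif_pos h']
        have e2 : ((p, ⟨((y ∘ (Equiv.swap (0 : Fin (1 + 1)) 1)) 0,
            (y ∘ (Equiv.swap (0 : Fin (1 + 1)) 1)) 1), h'⟩) : P × TF) =
            rv (p, ⟨(y 0, y 1), h⟩) := by
          unfold rv
          simp only [e0, e1]
        rw [e2, mk_rv, sg_rv X hV]
        push_cast
        ring
      · have h' : ¬ ((y ∘ (Equiv.swap (0 : Fin (1 + 1)) 1)) 0 ≠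
            (y ∘ (Equiv.swap (0 : Fin (1 + 1)) 1)) 1) := by
          rw [e0, e1]
          intro h''
          exact h h''.symm
        rw [dif_neg h, dif_neg h', mul_zero]
  · unfold f1
    by_cases hy : y 0 ≠ y 1
    · have hy' : X.gl p i (y 0) ≠ X.gl p i (y 1) := fun h' => hy ((X.gl p i).injective h')
      rw [dif_pos hy, dif_pos hy']
      have hrel : X.relE (p, ⟨(y 0, y 1), hy⟩) (X.nb p i, ⟨(X.gl p i (y 0), X.gl p i (y 1)), hy'⟩) :=
        Or.inr ⟨i, h 0, h 1, rfl, rfl⟩
      have hsame : X.Same (ed ((p, ⟨(y 0, y 1), hy⟩) : P × TF))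
          (ed ((X.nb p i, ⟨(X.gl p i (y 0), X.gl p i (y 1)), hy'⟩) : P × TF)) := by
        refine Relation.EqvGen.rel _ _ ⟨i, ?_, ?_⟩
        · intro t
          fin_cases t
          · exact h 0
          · exact h 1
        · apply Prod.ext
          · rfl
          · funext t
            fin_cases t
            · rfl
            · rfl
      rw [sg_glue X _ _ hsame hrel, ← Quot.sound hrel]
    · have hy' : ¬ (X.gl p i (y 0) ≠ X.gl p i (y 1)) := by
        push Not at hy ⊢
        rw [hy]
      rw [dif_neg hy, dif_neg hy']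

/-- functions on the edge classes as one-cochains -/
noncomputable def L1 (hV : X.Valid) : (Quot X.relE → ℚ) →ₗ[ℚ] X.cochains 1 where
  toFun φ := ⟨f1 X φ, f1_mem X hV φ⟩
  map_add' φ ψ := by
    apply Subtype.ext
    funext p y
    change f1 X (φ + ψ) p y = f1 X φ p y + f1 X ψ p y
    unfold f1
    split_ifs
    · simp only [Pi.add_apply]
      ring
    · ring
  map_smul' c φ := by
    apply Subtype.ext
    funext p y
    change f1 X (c • φ) p y = c * f1 X φ p y
    unfold f1
    split_ifs
    · simp only [Pi.smul_apply, smul_eq_mul]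
      ring
    · ring

theorem L1_inj (hV : X.Valid) : Function.Injective (L1 X hV) := by
  rw [injective_iff_map_eq_zero]
  intro φ hφ
  funext x
  induction x using Quot.ind with
  | mk x =>
    obtain ⟨p, ⟨⟨a, b⟩, hab⟩⟩ := x
    have h1 : f1 X φ = 0 := congrArg Subtype.val hφ
    have h2 : f1 X φ p ![a, b] = 0 := by rw [h1]; rfl
    unfold f1 at h2
    have h3 : (![a, b] : Fin 2 → Fin 5) 0 ≠ (![a, b] : Fin 2 → Fin 5) 1 := hab
    rw [dif_pos h3] at h2
    rcases mul_eq_zero.1 h2 with h | h
    · exact absurd h (sg_ne X _)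
    · exact h

/-! ### one-cocycles -/

theorem vec2 (y : Fin 2 → Fin 5) : ![y 0, y 1] = y := by
  funext t
  fin_cases t
  · rfl
  · rfl

theorem zz_mem {f : P → (Fin 2 → Fin 5) → ℚ} (hf : f ∈ X.cocycles 1) :
    (fun p a b => f p ![a, b]) ∈ X.Z := by
  have h1 : f ∈ X.cochains 1 := hf.1
  have h2 : d f = 0 := hf.2
  refine ⟨fun p a b c => ?_, fun p i a b ha hb => ?_⟩
  · have h3 : ∑ t : Fin 3, (-1 : ℚ) ^ (t : ℕ) * f p (fun s => ![a, b, c] (t.succAbove s)) = 0 :=
      congrFun (congrFun h2 p) ![a, b, c]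
    rw [Fin.sum_univ_three] at h3
    have e0 : (fun s : Fin 2 => (![a, b, c] : Fin 3 → Fin 5) ((0 : Fin 3).succAbove s)) = ![b, c] := by
      funext s
      fin_cases s <;> rfl
    have e1 : (fun s : Fin 2 => (![a, b, c] : Fin 3 → Fin 5) ((1 : Fin 3).succAbove s)) = ![a, c] := by
      funext s
      fin_cases s <;> rfl
    have e2 : (fun s : Fin 2 => (![a, b, c] : Fin 3 → Fin 5) ((2 : Fin 3).succAbove s)) = ![a, b] := by
      funext s
      fin_cases s <;> rfl
    rw [e0, e1, e2] at h3
    simp only [Fin.val_zero, Fin.val_one, Fin.val_two, pow_zero, pow_one, one_mul] at h3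
    show f p ![a, b] + f p ![b, c] = f p ![a, c]
    linarith
  · have h3 := h1.2 p ![a, b] i (by
      intro t
      fin_cases t
      · exact ha
      · exact hb)
    have e : (fun t : Fin 2 => X.gl p i ((![a, b] : Fin 2 → Fin 5) t)) =
        ![X.gl p i a, X.gl p i b] := by
      funext t
      fin_cases t <;> rfl
    show f (X.nb p i) ![X.gl p i a, X.gl p i b] = f p ![a, b]
    rw [← h3, ← e]

/-- one-cocycles as functions on the pairs of vertices -/
def LZ : X.cocycles 1 →ₗ[ℚ] X.Z where
  toFun f := ⟨fun p a b => f.1 p ![a, b], zz_mem X f.2⟩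
  map_add' f g := rfl
  map_smul' c f := rfl

theorem LZ_inj : Function.Injective (LZ X) := by
  rw [injective_iff_map_eq_zero]
  intro f hf
  apply Subtype.ext
  funext p y
  have h1 : (fun p a b => f.1 p ![a, b]) = (0 : P → Fin 5 → Fin 5 → ℚ) := congrArg Subtype.val hf
  have h2 : f.1 p ![y 0, y 1] = 0 := congrFun (congrFun (congrFun h1 p) (y 0)) (y 1)
  rw [vec2] at h2
  exact h2

end C12aux

open C12aux in
theorem T_c2 : S_c2 := by
  intro P _ X
  have : Finite (Quot X.relT) := inferInstance
  have := Fintype.ofFinite (Quot X.relT)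
  have h := LinearMap.finrank_le_finrank_of_injective (L2_inj X)
  rw [Module.finrank_fintype_fun_eq_card, ← Nat.card_eq_fintype_card] at h
  exact h

open C12aux in
theorem T_c1 : S_c1 := by
  intro P _ X hV
  have : Finite (Quot X.relE) := inferInstance
  have := Fintype.ofFinite (Quot X.relE)
  have h := LinearMap.finrank_le_finrank_of_injective (L1_inj X hV)
  rw [Module.finrank_fintype_fun_eq_card, ← Nat.card_eq_fintype_card] at h
  exact h

open C12aux in
theorem T_z1 : S_z1 := by
  intro P _ X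
  exact LinearMap.finrank_le_finrank_of_injective (LZ_inj X)

end Pool.Agent.H830.GT
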