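import Pool.Agent.H830.GT.Stm

/-!
# Growth in a component: `S_C` from `S_Step` and `S_Start`
-/

namespace Pool.Agent.H830.GT

open GenTriangulation

namespace Cc

variable {P : Type} {X : GenTriangulation P}

theorem Z_self {z : P → Fin 5 → Fin 5 → ℚ} (hz : z ∈ X.Z) (p : P) (a : Fin 5) : z p a a = 0 := by
  have := hz.1 p a a a
  linarith

theorem Z_symm {z : P → Fin 5 → Fin 5 → ℚ} (hz : z ∈ X.Z) (p : P) (a b : Fin 5) :
    z p b a = - z p a b := by
  have := hz.1 p a b a
  have := Z_self hz p a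
  linarith

theorem zero_refl (p : P) (a : Fin 5) : X.Zero p a a := fun _ hz => Z_self hz p a

theorem zero_symm {p : P} {a b : Fin 5} (h : X.Zero p a b) : X.Zero p b a := by
  intro z hz
  rw [Z_symm hz p a b, h z hz, neg_zero]

theorem zero_trans {p : P} {a b c : Fin 5} (h : X.Zero p a b) (h' : X.Zero p b c) :
    X.Zero p a c := by
  intro z hz
  have := hz.1 p a b c
  rw [h z hz, h' z hz] at this
  linarith

theorem zero_gl {p : P} {i a b : Fin 5} (ha : a ≠ i) (hb : b ≠ i) :
    X.Zero (X.nb p i) (X.gl p i a) (X.gl p i b) ↔ X.Zero p a b := by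
  constructor
  · intro h z hz
    rw [← hz.2 p i a b ha hb]
    exact h z hz
  · intro h z hz
    rw [hz.2 p i a b ha hb]
    exact h z hz

theorem flat_gl {q : P} {j : Fin 5} (h : X.Flat (X.nb q j) (X.gl q j j)) : X.Flat q j := by
  intro a b ha hb
  rw [← zero_gl ha hb]
  exact h _ _ (fun h => ha ((X.gl q j).injective h)) (fun h => hb ((X.gl q j).injective h))

/-- at most one class with more than one element -/
def One (X : GenTriangulation P) (p : P) : Prop :=
  ∀ a b c d, a ≠ b → c ≠ d → X.Zero p a b → X.Zero p c d → X.Zero p a c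

/-- the property `One` is transported to the facet of the neighbour -/
theorem one_facet {q : P} {j : Fin 5} (h : One X q) (a b c d : Fin 5)
    (ha : a ≠ X.gl q j j) (hb : b ≠ X.gl q j j) (hc : c ≠ X.gl q j j) (hd : d ≠ X.gl q j j)
    (hab : a ≠ b) (hcd : c ≠ d) (h1 : X.Zero (X.nb q j) a b) (h2 : X.Zero (X.nb q j) c d) :
    X.Zero (X.nb q j) a c := by
  have key : ∀ x y : Fin 5, x ≠ X.gl q j j → y ≠ X.gl q j j →
      (X.Zero q ((X.gl q j)⁻¹ x) ((X.gl q j)⁻¹ y) ↔ X.Zero (X.nb q j) x y) := by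
    intro x y hx hy
    have hx' : (X.gl q j)⁻¹ x ≠ j := by
      intro h
      apply hx
      calc x = X.gl q j ((X.gl q j)⁻¹ x) := ((X.gl q j).apply_symm_apply _).symm
        _ = X.gl q j j := by rw [h]
    have hy' : (X.gl q j)⁻¹ y ≠ j := by
      intro h
      apply hy
      calc y = X.gl q j ((X.gl q j)⁻¹ y) := ((X.gl q j).apply_symm_apply _).symm
        _ = X.gl q j j := by rw [h]
    have := zero_gl (X := X) (p := q) hx' hy'
    rw [show X.gl q j ((X.gl q j)⁻¹ x) = x from (X.gl q j).apply_symm_apply _,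
      show X.gl q j ((X.gl q j)⁻¹ y) = y from (X.gl q j).apply_symm_apply _] at this
    exact this.symm
  rw [← key a c ha hc]
  rw [← key a b ha hb] at h1
  rw [← key c d hc hd] at h2
  exact h _ _ _ _ (fun h => hab ((X.gl q j)⁻¹.injective h))
    (fun h => hcd ((X.gl q j)⁻¹.injective h)) h1 h2

/-- a vertex whose edges have a nonzero value is alone in its class -/
theorem one_new {q : P} {j : Fin 5} (h : One X q) {z : P → Fin 5 → Fin 5 → ℚ} (hz : z ∈ X.Z)
    {c : ℚ} (hc : c ≠ 0) (hzc : ∀ a, a ≠ X.gl q j j → z (X.nb q j) (X.gl q j j) a = c) :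
    One X (X.nb q j) := by
  have key : ∀ a b, a ≠ b → X.Zero (X.nb q j) a b → a ≠ X.gl q j j ∧ b ≠ X.gl q j j := by
    intro a b hab h0
    constructor
    · rintro rfl
      have := hzc b hab.symm
      rw [h0 z hz] at this
      exact hc this.symm
    · rintro rfl
      have := hzc a hab
      rw [zero_symm h0 z hz] at this
      exact hc this.symm
  intro a b c d hab hcd h1 h2
  obtain ⟨ha, hb⟩ := key a b hab h1
  obtain ⟨hc', hd⟩ := key c d hcd h2
  exact one_facet h a b c d ha hb hc' hd hab hcd h1 h2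

/-- orbit argument -/
theorem orbit {p : P} (σ : Equiv.Perm (Fin 5)) (i m : Fin 5) (him : m ≠ i) (hi : σ i = i)
    (h : ∀ a, a ≠ i → a ≠ m → X.Zero p a (σ a)) : X.Zero p m (σ m) := by
  have hex : ∃ n : ℕ, (σ ^ n) (σ m) = m := by
    refine ⟨orderOf σ - 1, ?_⟩
    have h1 : orderOf σ - 1 + 1 = orderOf σ := Nat.sub_add_cancel (orderOf_pos σ)
    have h2 : (σ ^ (orderOf σ - 1)) (σ m) = (σ ^ (orderOf σ - 1 + 1)) m := by
      rw [pow_succ]; rfl
    rw [h2, h1, pow_orderOf_eq_one]
    rfl
  classical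
  have hmin : ∀ k, k < Nat.find hex → (σ ^ k) (σ m) ≠ m := fun k hk => Nat.find_min hex hk
  have hne : ∀ k, (σ ^ k) (σ m) ≠ i := by
    intro k
    induction k with
    | zero =>
      intro h'
      apply him
      apply σ.injective
      rw [hi]
      exact h'
    | succ k ih =>
      intro h'
      apply ih
      apply σ.injective
      rw [hi, ← h', pow_succ']
      rfl
  have hall : ∀ k, k ≤ Nat.find hex → X.Zero p (σ m) ((σ ^ k) (σ m)) := by
    intro k
    induction k with
    | zero => intro _; exact zero_refl p _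
    | succ k ih =>
      intro hk
      have h1 := ih (by omega)
      have h2 := h _ (hne k) (hmin k (by omega))
      have h3 : (σ ^ (k + 1)) (σ m) = σ ((σ ^ k) (σ m)) := by
        rw [pow_succ']; rfl
      rw [h3]
      exact zero_trans h1 h2
  have h4 := hall _ le_rfl
  rw [Nat.find_spec hex] at h4
  exact zero_symm h4

/-- the last step -/
theorem last {C S : Set P} (hC : ∀ p ∈ C, ∀ j, ¬ X.Flat p j → X.nb p j ∈ C) {q : P} {j : Fin 5}
    (hnf : ¬ X.Flat q j) (hins : insert (X.nb q j) S = C)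
    (h1 : One X q) {z : P → Fin 5 → Fin 5 → ℚ} (hz : z ∈ X.KS S)
    {c : ℚ} (hc : c ≠ 0) (hzc : ∀ a, a ≠ X.gl q j j → z (X.nb q j) (X.gl q j j) a = c) : False := by
  obtain ⟨hzZ, hzS⟩ := hz
  have hnfp : ¬ X.Flat (X.nb q j) (X.gl q j j) := fun h => hnf (flat_gl h)
  have hnb : X.nb (X.nb q j) (X.gl q j j) = q := X.nb_nb q j
  have hone := one_facet (X := X) (j := j) h1
  generalize X.gl q j j = i at *
  generalize X.nb q j = p at *
  have hz0 : ∀ a b, a ≠ i → b ≠ i → z p a b = 0 := by
    intro a b ha hb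
    have e1 := hzZ.1 p i a b
    rw [hzc a ha, hzc b hb] at e1
    linarith
  have hpC : p ∈ C := hins ▸ Set.mem_insert _ _
  -- facets of `p` are glued to `p`
  have hfac : ∀ m, m ≠ i → ∀ a, a ≠ i → a ≠ m → ¬ X.Zero p i a := by
    intro m _ a ha _ h0
    have := hzc a ha
    rw [h0 z hzZ] at this
    exact hc this.symm
  have hex2 : ∀ i m : Fin 5, ∃ a : Fin 5, a ≠ i ∧ a ≠ m := by decide
  have hself : ∀ m, m ≠ i → X.nb p m = p := by
    intro m hm
    obtain ⟨a, ha, ham⟩ := hex2 i m
    have hfl : ¬ X.Flat p m := fun hf => hfac m hm a ha ham (hf i a hm.symm ham)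
    have hmem := hC p hpC m hfl
    rw [← hins] at hmem
    rcases hmem with hmem | hmem
    · exact hmem
    · exfalso
      have e1 := hzZ.2 p m i a hm.symm ham
      rw [hzS _ hmem, hzc a ha] at e1
      exact hc e1.symm
  have hgi : ∀ m, m ≠ i → X.gl p m i = i := by
    intro m hm
    by_contra hne
    have hex3 : ∀ i m k : Fin 5, ∃ a : Fin 5, a ≠ i ∧ a ≠ m ∧ a ≠ k := by decide
    obtain ⟨a, ha, ham, hak⟩ := hex3 i m ((X.gl p m)⁻¹ i)
    have e1 := hzZ.2 p m i a hm.symm ham
    rw [hself m hm, hzc a ha] at e1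
    have : X.gl p m a ≠ i := by
      intro h
      apply hak
      rw [← h]
      simp
    rw [hz0 _ _ hne this] at e1
    exact hc e1.symm
  have hmm : ∀ m, m ≠ i → X.Zero p m (X.gl p m m) := by
    intro m hm
    apply orbit (X.gl p m) i m hm (hgi m hm)
    intro a ha ham z' hz'
    have e1 := hz'.2 p m i a hm.symm ham
    rw [hself m hm, hgi m hm] at e1
    have e2 := hz'.1 p i a (X.gl p m a)
    linarith
  have hmne : ∀ m, m ≠ i → m ≠ X.gl p m m := fun m hm h => X.no_fix p m (hself m hm) h.symm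
  have hmi : ∀ m, m ≠ i → X.gl p m m ≠ i := by
    intro m hm h
    apply hm
    apply (X.gl p m).injective
    rw [h, hgi m hm]
  apply hnfp
  intro a b ha hb
  exact hone a (X.gl p a a) b (X.gl p b b) ha (hmi a ha) hb (hmi b hb) (hmne a ha) (hmne b hb)
    (hmm a ha) (hmm b hb)

theorem nzc_mono {S S' : Set P} (h : S ⊆ S') : X.nzc S ⊆ X.nzc S' := by
  rintro c ⟨x, hx, hxS, hz⟩
  exact ⟨x, hx, h hxS, hz⟩

theorem ez_mono [Finite P] {S S' : Set P} (h : S ⊆ S') : X.ez S ≤ X.ez S' := by
  have : Finite (Quot X.relE) := Quot.finite _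
  exact Set.ncard_le_ncard (nzc_mono h) (Set.toFinite _)

theorem one_start {p : P} {i : Fin 5} (hf : X.Flat p i) (hp : ¬ X.Pure p) : One X p := by
  have key : ∀ a b, a ≠ b → X.Zero p a b → a ≠ i ∧ b ≠ i := by
    have h0 : ∀ b, b ≠ i → ¬ X.Zero p i b := by
      intro b hb h
      apply hp
      have h1 : ∀ a, X.Zero p i a := by
        intro a
        by_cases ha : a = i
        · subst ha; exact zero_refl p _
        · exact zero_trans h (hf b a hb ha)
      intro a b
      exact zero_trans (zero_symm (h1 a)) (h1 b)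
    intro a b hab h
    constructor
    · rintro rfl
      exact h0 b hab.symm h
    · rintro rfl
      exact h0 a hab (zero_symm h)
  intro a b c d hab hcd h1 h2
  exact hf a c (key a b hab h1).1 (key c d hcd h2).1

/-- growth -/
theorem grow [Finite P] (h1 : S_Step) {C : Set P}
    (hC : ∀ p ∈ C, ∀ j, ¬ X.Flat p j → X.nb p j ∈ C)
    (hcon : ∀ S : Set P, S ⊆ C → S.Nonempty → (∀ p ∈ S, ∀ j, ¬ X.Flat p j → X.nb p j ∈ S) → S = C) :
    ∀ (n : ℕ) (S : Set P), (C \ S).ncard = n → S.Nonempty → S ⊆ C → S ≠ C →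
      ((3 * X.w ≤ 3 * X.kS S + X.ez S + S.ncard) ∨
        (3 * X.w ≤ 3 * X.kS S + X.ez S + S.ncard + 1 ∧ ∀ q ∈ S, One X q)) →
      3 * X.w ≤ 3 * X.kS C + X.ez C + C.ncard := by
  intro n
  induction n using Nat.strong_induction_on with
  | _ n ih =>
    intro S hn hne hSC hSneC hinv
    have hex : ∃ q ∈ S, ∃ j, ¬ X.Flat q j ∧ X.nb q j ∉ S := by
      by_contra hcontra
      push Not at hcontra
      exact hSneC (hcon S hSC hne hcontra)
    obtain ⟨q, hq, j, hnf, hp⟩ := hex
    have hpC : X.nb q j ∈ C := hC q (hSC hq) j hnf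
    obtain ⟨hs1, hs2⟩ := h1 P X S q j hq hp
    have hnfp : ¬ X.Flat (X.nb q j) (X.gl q j j) := fun h => hnf (flat_gl h)
    have hcard : (insert (X.nb q j) S).ncard = S.ncard + 1 :=
      Set.ncard_insert_of_notMem hp (Set.toFinite _)
    have hez : X.ez S ≤ X.ez (insert (X.nb q j) S) := ez_mono (Set.subset_insert _ _)
    have hsub : insert (X.nb q j) S ⊆ C := Set.insert_subset hpC hSC
    have hlt : (C \ insert (X.nb q j) S).ncard < n := by
      rw [← hn]
      apply Set.ncard_lt_ncard _ (Set.toFinite _)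
      refine ⟨fun x hx => ⟨hx.1, fun h => hx.2 (Set.mem_insert_of_mem _ h)⟩, fun h => ?_⟩
      exact (h ⟨hpC, hp⟩).2 (Set.mem_insert _ _)
    have hne' : (insert (X.nb q j) S).Nonempty := Set.insert_nonempty _ _
    -- the conclusion from (1) for the new set
    have hfin : 3 * X.w ≤ 3 * X.kS (insert (X.nb q j) S) + X.ez (insert (X.nb q j) S) +
        (insert (X.nb q j) S).ncard → 3 * X.w ≤ 3 * X.kS C + X.ez C + C.ncard := by
      intro h
      by_cases heq : insert (X.nb q j) S = C
      · rw [← heq]; exact h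
      · exact ih _ hlt _ rfl hne' hsub heq (Or.inl h)
    by_cases hk : X.kS (insert (X.nb q j) S) < X.kS S
    · obtain ⟨⟨c, hc, z, hz, hzc⟩, _, hez2⟩ := hs2 hk
      have hez2' := hez2 hnfp
      rcases hinv with hinv | ⟨hinv, hone⟩
      · apply hfin
        omega
      · by_cases heq : insert (X.nb q j) S = C
        · exact (last hC hnf heq (hone q hq) hz hc hzc).elim
        · refine ih _ hlt _ rfl hne' hsub heq (Or.inr ⟨by omega, ?_⟩)
          rintro r (rfl | hr)
          · exact one_new (hone q hq) hz.1 hc hzc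
          · exact hone r hr
    · apply hfin
      rcases hinv with hinv | ⟨hinv, hone⟩ <;> omega

end Cc

theorem T_Cc (h1 : S_Step) (h2 : S_Start) : S_C := by
  intro P _ X C hC hcon ⟨p₀, hp₀, ⟨i, hi⟩, hpure⟩
  obtain ⟨hw, hez, _⟩ := h2 P X p₀ i hi hpure
  by_cases heq : ({p₀} : Set P) = C
  · rw [← heq]
    have hcard : ({p₀} : Set P).ncard = 1 := Set.ncard_singleton _
    constructor
    · omega
    · intro h
      have : X.ez {p₀} ≠ 1 := fun h' => h ⟨hcard, h'⟩
      omega
  · have hcard : ({p₀} : Set P).ncard = 1 := Set.ncard_singleton _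
    have := Cc.grow h1 hC hcon _ {p₀} rfl (Set.singleton_nonempty _)
      (Set.singleton_subset_iff.2 hp₀) heq (Or.inr ⟨by omega, by
        rintro q hq
        rw [Set.mem_singleton_iff] at hq
        subst hq
        exact Cc.one_start hi hpure⟩)
    exact ⟨by omega, fun _ => this⟩

end Pool.Agent.H830.GT
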