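import Pool.Agent.H830.GT.Stm

/-! # Caps give vertices of degree one (S_Cones), loops (S_Loops) -/

set_option autoImplicit false

namespace Pool.Agent.H830.GT

open GenTriangulation Pool.Agent.H830.OT

namespace ConesN

variable {P : Type} (X : GenTriangulation P)

theorem glued_symm {k : ℕ} {x y : P × (Fin k → Fin 5)} (h : X.Glued x y) : X.Glued y x := by
  obtain ⟨i, hi, rfl⟩ := h
  refine ⟨X.gl x.1 i i, fun t ht => hi t ((X.gl x.1 i).injective ht), ?_⟩
  refine Prod.ext ?_ ?_
  · exact (X.nb_nb x.1 i).symm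
  · funext t
    show x.2 t = X.gl (X.nb x.1 i) (X.gl x.1 i i) (X.gl x.1 i (x.2 t))
    rw [X.gl_gl_apply]

theorem same_refl {k : ℕ} (x : P × (Fin k → Fin 5)) : X.Same x x := Relation.EqvGen.refl _

theorem same_symm {k : ℕ} {x y : P × (Fin k → Fin 5)} (h : X.Same x y) : X.Same y x :=
  Relation.EqvGen.symm _ _ h

theorem same_trans {k : ℕ} {x y z : P × (Fin k → Fin 5)} (h : X.Same x y) (h' : X.Same y z) :
    X.Same x z :=
  Relation.EqvGen.trans _ _ _ h h'

theorem same_comp {k m : ℕ} {x y : P × (Fin k → Fin 5)} (h : X.Same x y) (σ : Fin m → Fin k) :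
    X.Same (x.1, x.2 ∘ σ) (y.1, y.2 ∘ σ) := by
  unfold GenTriangulation.Same at h ⊢
  induction h with
  | rel x y h =>
    obtain ⟨i, hi, rfl⟩ := h
    exact Relation.EqvGen.rel _ _ ⟨i, fun t => hi _, rfl⟩
  | refl x => exact Relation.EqvGen.refl _
  | symm x y _ ih => exact Relation.EqvGen.symm _ _ ih
  | trans x y z _ _ ih1 ih2 => exact Relation.EqvGen.trans _ _ _ ih1 ih2

theorem same_fst {p q : P} {a b c e : Fin 5} (h : X.Same (p, ![a, b]) (q, ![c, e])) :
    X.Same (p, ![a]) (q, ![c]) := by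
  have h1 := same_comp X h (fun _ : Fin 1 => (0 : Fin 2))
  have e1 : (![a, b] ∘ fun _ : Fin 1 => (0 : Fin 2)) = ![a] := by
    funext t
    fin_cases t
    rfl
  have e2 : (![c, e] ∘ fun _ : Fin 1 => (0 : Fin 2)) = ![c] := by
    funext t
    fin_cases t
    rfl
  simp only [e1, e2] at h1
  exact h1

theorem same_swap {p q : P} {a b c e : Fin 5} (h : X.Same (p, ![a, b]) (q, ![c, e])) :
    X.Same (p, ![b, a]) (q, ![e, c]) := by
  have h1 := same_comp X h (![1, 0] : Fin 2 → Fin 2)
  have e1 : ∀ a b : Fin 5, (![a, b] ∘ (![1, 0] : Fin 2 → Fin 2)) = ![b, a] := by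
    intro a b
    funext t
    fin_cases t <;> rfl
  simp only [e1] at h1
  exact h1

/-- classes of edges -/
theorem relE_same {x y : P × TF} (h : Relation.EqvGen X.relE x y) :
    X.Same (x.1, ![x.2.1.1, x.2.1.2]) (y.1, ![y.2.1.1, y.2.1.2]) ∨
    X.Same (x.1, ![x.2.1.1, x.2.1.2]) (y.1, ![y.2.1.2, y.2.1.1]) := by
  induction h with
  | rel x y h =>
    rcases h with ⟨h1, h2⟩ | ⟨i, hi1, hi2, h1, h2⟩
    · right
      rw [h1, h2]
      exact same_refl X _
    · left
      rw [h1, h2]
      refine Relation.EqvGen.rel _ _ ⟨i, fun t => ?_, ?_⟩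
      · fin_cases t
        · exact hi1
        · exact hi2
      · refine Prod.ext rfl ?_
        funext t
        fin_cases t <;> rfl
  | refl x => exact Or.inl (same_refl X _)
  | symm x y _ ih =>
    rcases ih with ih | ih
    · exact Or.inl (same_symm X ih)
    · exact Or.inr (same_swap X (same_symm X ih))
  | trans x y z _ _ ih1 ih2 =>
    rcases ih1 with ih1 | ih1
    · rcases ih2 with ih2 | ih2
      · exact Or.inl (same_trans X ih1 ih2)
      · exact Or.inr (same_trans X ih1 ih2)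
    · rcases ih2 with ih2 | ih2
      · exact Or.inr (same_trans X ih1 (same_swap X ih2))
      · exact Or.inl (same_trans X ih1 (same_swap X ih2))

/-- a point class which is closed under the gluings -/
theorem same_single {p : P} {i : Fin 5}
    (h : ∀ y, X.Glued (p, ![i]) y → y = (p, ![i])) (y : P × (Fin 1 → Fin 5))
    (hy : X.Same (p, ![i]) y) : y = (p, ![i]) := by
  have key : ∀ x y : P × (Fin 1 → Fin 5), X.Same x y → (x = (p, ![i]) ↔ y = (p, ![i])) := by
    intro x y hxy
    unfold GenTriangulation.Same at hxy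
    induction hxy with
    | rel x y hg =>
      constructor
      · intro hx
        rw [hx] at hg
        exact h y hg
      · intro hy
        rw [hy] at hg
        exact h x (glued_symm X hg)
    | refl x => exact Iff.rfl
    | symm x y _ ih => exact ih.symm
    | trans x y z _ _ ih1 ih2 => exact ih1.trans ih2
  exact (key _ _ hy).1 rfl

/-- the properties of a cap -/
theorem cap_cone (hZ : ∀ p a b, X.Zero p a b ↔ X.Same (p, ![a]) (p, ![b])) (p : P)
    (hp : ¬ X.Pure p) (i : Fin 5) (hi : X.Flat p i) (hnb : ∀ j, j ≠ i → X.nb p j = p)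
    (hez : X.ez {p} = 1) :
    (∀ y, X.Same (p, ![i]) y → y = (p, ![i])) ∧
      ∀ b c, b ≠ i → c ≠ i → X.Same (p, ![i, b]) (p, ![i, c]) := by
  have hb : ∀ b, b ≠ i → ¬ X.Same (p, ![i]) (p, ![b]) := by
    intro b hb hs
    apply hp
    have hall : ∀ c, X.Same (p, ![i]) (p, ![c]) := by
      intro c
      by_cases hc : c = i
      · rw [hc]
        exact same_refl X _
      · exact same_trans X hs ((hZ p b c).1 (hi b c hb hc))
    intro a c
    exact (hZ p a c).2 (same_trans X (same_symm X (hall a)) (hall c))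
  have hgl : ∀ j, j ≠ i → X.gl p j i = i := by
    intro j hj
    by_contra hne
    apply hb _ hne
    refine Relation.EqvGen.rel _ _ ⟨j, fun t => ?_, ?_⟩
    · fin_cases t
      exact Ne.symm hj
    · refine Prod.ext (hnb j hj).symm ?_
      funext t
      fin_cases t
      rfl
  constructor
  · apply same_single X
    rintro y ⟨j, hj, rfl⟩
    have hj' : j ≠ i := Ne.symm (hj 0)
    refine Prod.ext (hnb j hj') ?_
    funext t
    fin_cases t
    exact hgl j hj'
  · intro b c hbi hci
    have hmem : ∀ b : Fin 5, ∀ hb' : b ≠ i,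
        Quot.mk X.relE (p, (⟨(i, b), Ne.symm hb'⟩ : TF)) ∈ X.nzc {p} := by
      intro b hb'
      refine ⟨(p, ⟨(i, b), Ne.symm hb'⟩), rfl, rfl, ?_⟩
      intro hz
      exact hb b hb' ((hZ p i b).1 hz)
    unfold GenTriangulation.ez at hez
    obtain ⟨d, hd⟩ := Set.ncard_eq_one.1 hez
    have h1 := hmem b hbi
    have h2 := hmem c hci
    rw [hd, Set.mem_singleton_iff] at h1 h2
    have h3 := Quot.eqvGen_exact (h1.trans h2.symm)
    rcases relE_same X h3 with h4 | h4
    · exact h4
    · exact absurd (same_fst X h4) (hb c hci)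

end ConesN

theorem T_Cones (hZ : S_Z) : S_Cones := by
  intro P _ X hbetti
  have hz := hZ P X hbetti
  have hi : ∀ p : {p : P // X.IsCap p}, ∃ i, X.Flat p.1 i ∧ ∀ j, j ≠ i → X.nb p.1 j = p.1 :=
    fun p => p.2.2.1
  choose i hi1 hi2 using hi
  refine Nat.card_le_card_of_injective (fun p : {p : P // X.IsCap p} =>
    (⟨(p.1, i p), ConesN.cap_cone X hz p.1 p.2.1 (i p) (hi1 p) (hi2 p) p.2.2.2⟩ :
      {x : P × Fin 5 // (∀ y, X.Same (x.1, ![x.2]) y → y = (x.1, ![x.2])) ∧
        ∀ b c, b ≠ x.2 → c ≠ x.2 → X.Same (x.1, ![x.2, b]) (x.1, ![x.2, c])})) ?_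
  intro p q hpq
  have h1 := congrArg (fun z => z.1.1) hpq
  exact Subtype.ext h1

theorem T_Loops (hZ : S_Z) : S_Loops := by
  intro P _ X hbetti
  have hz := hZ P X hbetti
  constructor
  · -- the representatives
    let f : {x : P × Fin 5 × Fin 5 // x.2.1 ≠ x.2.2 ∧ X.Same (x.1, ![x.2.1]) (x.1, ![x.2.2])} →
        P × TF := fun x => (x.1.1, ⟨(x.1.2.1, x.1.2.2), x.2.1⟩)
    have hout : ∀ c : Quot (fun x y : {x : P × Fin 5 × Fin 5 //
        x.2.1 ≠ x.2.2 ∧ X.Same (x.1, ![x.2.1]) (x.1, ![x.2.2])} =>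
      X.Same (x.1.1, ![x.1.2.1, x.1.2.2]) (y.1.1, ![y.1.2.1, y.1.2.2]) ∨
      X.Same (x.1.1, ![x.1.2.1, x.1.2.2]) (y.1.1, ![y.1.2.2, y.1.2.1])), ∃ x, Quot.mk _ x = c :=
      fun c => Quot.exists_rep c
    choose r hr using hout
    refine Nat.card_le_card_of_injective (fun c => (⟨Quot.mk X.relE (f (r c)), f (r c), rfl,
      (hz _ _ _).2 (r c).2.2⟩ : {c : Quot X.relE //
        ∃ x : P × TF, Quot.mk _ x = c ∧ X.Zero x.1 x.2.1.1 x.2.1.2})) ?_
    intro c c' hcc
    have h1 : Quot.mk X.relE (f (r c)) = Quot.mk X.relE (f (r c')) := congrArg Subtype.val hcc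
    have h2 := ConesN.relE_same X (Quot.eqvGen_exact h1)
    rw [← hr c, ← hr c']
    exact Quot.sound h2
  · refine Nat.card_congr (Equiv.subtypeEquivRight fun p => ?_)
    constructor
    · intro h a b
      exact (hz p a b).1 (h a b)
    · intro h a b
      exact (hz p a b).2 (h a b)

end Pool.Agent.H830.GT
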