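import Pool.Agent.H830.GT.Stm

/-!
# Growth without flat facets (subtask by helper284)
-/

set_option autoImplicit false

namespace Pool.Agent.H830.GT

open Pool.Agent.H830.OT (TF LF ncl)

namespace TD

open GenTriangulation

/-- a linear functional cuts the dimension by at most one -/
theorem finrank_le_inf_ker {M : Type} [AddCommGroup M] [Module ℚ M] [FiniteDimensional ℚ M]
    (K : Submodule ℚ M) (l : M →ₗ[ℚ] ℚ) :
    Module.finrank ℚ K ≤ Module.finrank ℚ ↥(K ⊓ LinearMap.ker l) + 1 := by
  have h1 := Submodule.finrank_sup_add_finrank_inf_eq K (LinearMap.ker l)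
  have h2 := Submodule.finrank_le (K ⊔ LinearMap.ker l)
  have h3 := LinearMap.finrank_range_add_finrank_ker l
  have h4 : Module.finrank ℚ (LinearMap.range l) ≤ 1 := by
    have := Submodule.finrank_le (LinearMap.range l)
    simpa using this
  omega

variable {P : Type} {X : GenTriangulation P}

/-- value of a function on an edge flag -/
def val (z : P → Fin 5 → Fin 5 → ℚ) (x : P × TF) : ℚ := z x.1 x.2.1.1 x.2.1.2

theorem Z_self {z : P → Fin 5 → Fin 5 → ℚ} (hz : z ∈ X.Z) (p : P) (a : Fin 5) : z p a a = 0 := by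
  have := hz.1 p a a a
  linarith

theorem Z_symm {z : P → Fin 5 → Fin 5 → ℚ} (hz : z ∈ X.Z) (p : P) (a b : Fin 5) :
    z p b a = - z p a b := by
  have := hz.1 p a b a
  have := Z_self hz p a
  linarith

theorem sign_of_eqv {x y : P × TF} (h : Relation.EqvGen X.relE x y) :
    ∃ s : ℚ, (s = 1 ∨ s = -1) ∧ ∀ z ∈ X.Z, val z y = s * val z x := by
  induction h with
  | rel x y hxy =>
    rcases hxy with ⟨h1, h2⟩ | ⟨i, ha, hb, h1, h2⟩
    · refine ⟨-1, Or.inr rfl, fun z hz => ?_⟩
      unfold val
      rw [h1, h2]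
      have := Z_symm hz x.1 x.2.1.1 x.2.1.2
      simp only
      linarith
    · refine ⟨1, Or.inl rfl, fun z hz => ?_⟩
      unfold val
      rw [h1, h2, one_mul]
      exact hz.2 x.1 i _ _ ha hb
  | refl x => exact ⟨1, Or.inl rfl, fun z _ => (one_mul _).symm⟩
  | symm x y _ ih =>
    obtain ⟨s, hs, h⟩ := ih
    refine ⟨s, hs, fun z hz => ?_⟩
    rw [h z hz]
    rcases hs with rfl | rfl <;> ring
  | trans x y w _ _ ih1 ih2 =>
    obtain ⟨s, hs, h⟩ := ih1
    obtain ⟨s', hs', h'⟩ := ih2
    refine ⟨s' * s, ?_, fun z hz => ?_⟩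
    · rcases hs with rfl | rfl <;> rcases hs' with rfl | rfl <;> norm_num
    · rw [h' z hz, h z hz, mul_assoc]

variable (X)

/-- cocycles vanishing on the edges of `{a | a < v}` -/
def Kv (p : P) (v : ℕ) : Submodule ℚ (P → Fin 5 → Fin 5 → ℚ) where
  carrier := {z | z ∈ X.Z ∧ ∀ a b : Fin 5, a.1 < v → b.1 < v → z p a b = 0}
  add_mem' := by
    rintro f g ⟨hf1, hf2⟩ ⟨hg1, hg2⟩
    exact ⟨X.Z.add_mem hf1 hg1, fun a b ha hb => by simp [hf2 a b ha hb, hg2 a b ha hb]⟩
  zero_mem' := ⟨X.Z.zero_mem, fun _ _ _ _ => rfl⟩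
  smul_mem' := by
    rintro t f ⟨hf1, hf2⟩
    exact ⟨X.Z.smul_mem t hf1, fun a b ha hb => by simp [hf2 a b ha hb]⟩

/-- nonzero classes of the edges of `{a | a < v}` -/
def nzv (p : P) (v : ℕ) : Set (Quot X.relE) :=
  {c | ∃ x : TF, Quot.mk _ (p, x) = c ∧ x.1.1.1 < v ∧ x.1.2.1 < v ∧ ¬ X.Zero p x.1.1 x.1.2}

/-- functional `z ↦ z p a b` -/
def ev (p : P) (a b : Fin 5) : (P → Fin 5 → Fin 5 → ℚ) →ₗ[ℚ] ℚ where
  toFun z := z p a b
  map_add' _ _ := rfl
  map_smul' _ _ := rfl

variable {X}

theorem nzv_mono (p : P) {v v' : ℕ} (h : v ≤ v') : nzv X p v ⊆ nzv X p v' := by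
  rintro c ⟨x, h1, h2, h3, h4⟩
  exact ⟨x, h1, by omega, by omega, h4⟩

theorem nzc_mono {S S' : Set P} (h : S ⊆ S') : X.nzc S ⊆ X.nzc S' := by
  rintro c ⟨x, h1, h2, h3⟩
  exact ⟨x, h1, h h2, h3⟩

theorem zero_symm {p : P} {a b : Fin 5} (h : X.Zero p a b) : X.Zero p b a := by
  intro z hz
  rw [Z_symm hz p a b, h z hz, neg_zero]

/-- the local estimate -/
theorem local_est [Finite P] (p : P) : ∀ v : ℕ, v ≤ 4 →
    ∃ R : Finset (Fin 5), (∀ a ∈ R, a.1 < v + 1) ∧ (∀ a ∈ R, ∀ b ∈ R, a ≠ b → ¬ X.Zero p a b) ∧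
      X.w + 1 ≤ R.card + Module.finrank ℚ (Kv X p (v + 1)) ∧
      R.card * R.card ≤ 2 * (nzv X p (v + 1)).ncard + R.card := by
  have hfq : Finite (Quot X.relE) := Quot.finite _
  have := Fintype.ofFinite P
  intro v
  induction v with
  | zero =>
    intro _
    refine ⟨{0}, ?_, ?_, ?_, ?_⟩
    · intro a ha
      rw [Finset.mem_singleton] at ha
      subst ha
      decide
    · intro a ha b hb hab
      rw [Finset.mem_singleton] at ha hb
      exact absurd (ha.trans hb.symm) hab
    · have h1 : X.Z ≤ Kv X p (0 + 1) := by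
        intro z hz
        refine ⟨hz, fun a b ha hb => ?_⟩
        have h2 : a = b := by
          apply Fin.ext
          omega
        rw [h2]
        exact Z_self hz p b
      have h2 := Submodule.finrank_mono h1
      rw [Finset.card_singleton]
      unfold w
      omega
    · rw [Finset.card_singleton]
      omega
  | succ v ih =>
    intro hv
    obtain ⟨R, hR1, hR2, hR3, hR4⟩ := ih (by omega)
    obtain ⟨v', hv'⟩ : ∃ v' : Fin 5, v' = ⟨v + 1, by omega⟩ := ⟨_, rfl⟩
    have hvv : v'.1 = v + 1 := by rw [hv']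
    have hlt : ∀ a : Fin 5, a.1 < v + 1 + 1 → a.1 < v + 1 ∨ a = v' := by
      intro a ha
      rcases Nat.lt_or_ge a.1 (v + 1) with h | h
      · exact Or.inl h
      · right
        apply Fin.ext
        omega
    have h0lt : (0 : Fin 5).1 < v + 1 := Nat.succ_pos v
    have hker : Kv X p (v + 1) ⊓ LinearMap.ker (ev p 0 v') ≤ Kv X p (v + 1 + 1) := by
      rintro z ⟨⟨hz, hz1⟩, hz2⟩
      have hz2' : z p 0 v' = 0 := hz2
      have hav : ∀ a : Fin 5, a.1 < v + 1 → z p a v' = 0 := by
        intro a ha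
        have h1 := hz.1 p a 0 v'
        rw [hz1 a 0 ha h0lt, hz2'] at h1
        linarith
      refine ⟨hz, fun a b ha hb => ?_⟩
      rcases hlt a ha with h1 | h1
      · rcases hlt b hb with h2 | h2
        · exact hz1 a b h1 h2
        · rw [h2]
          exact hav a h1
      · rcases hlt b hb with h2 | h2
        · rw [h1, Z_symm hz p b v', hav b h2, neg_zero]
        · rw [h1, h2]
          exact Z_self hz p v'
    by_cases hcase : ∀ z ∈ Kv X p (v + 1), z p 0 v' = 0
    · -- no increase
      have h1 : Kv X p (v + 1) ≤ Kv X p (v + 1 + 1) := fun z hz => hker ⟨hz, hcase z hz⟩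
      have h2 := Submodule.finrank_mono h1
      have h3 := Set.ncard_le_ncard (nzv_mono (X := X) p (Nat.le_succ (v + 1))) (Set.toFinite _)
      refine ⟨R, fun a ha => (hR1 a ha).trans (Nat.lt_succ_self _), hR2, by omega, ?_⟩
      have h4 : (nzv X p (v + 1)).ncard ≤ (nzv X p (v + 1 + 1)).ncard := h3
      omega
    · push Not at hcase
      obtain ⟨z, ⟨hz, hz1⟩, hc⟩ := hcase
      have hzv : ∀ a : Fin 5, a.1 < v + 1 → z p a v' = z p 0 v' := by
        intro a ha
        have h1 := hz.1 p a 0 v'
        rw [hz1 a 0 ha h0lt] at h1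
        linarith
      have hvR : v' ∉ R := fun h => by
        have := hR1 v' h
        omega
      have hne : ∀ a ∈ R, a ≠ v' := fun a ha h => hvR (h ▸ ha)
      have hnz : ∀ a ∈ R, ¬ X.Zero p a v' := by
        intro a ha h
        apply hc
        rw [← hzv a (hR1 a ha)]
        exact h z hz
      -- the new classes
      have hchoice : ∃ F : Fin 5 → Quot X.relE, ∀ (a : Fin 5) (h : a ≠ v'),
          F a = Quot.mk _ (p, ⟨(a, v'), h⟩) := by
        classical
        refine ⟨fun a => if h : a ≠ v' then Quot.mk _ (p, ⟨(a, v'), h⟩) else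
          Quot.mk _ (p, ⟨(0, 1), by decide⟩), fun a h => ?_⟩
        exact dif_pos h
      obtain ⟨F, hF⟩ := hchoice
      have hinj : Set.InjOn F (R : Set (Fin 5)) := by
        intro a ha b hb hab
        have ha' : a ∈ R := ha
        have hb' : b ∈ R := hb
        rw [hF a (hne a ha'), hF b (hne b hb')] at hab
        obtain ⟨s, hs, h⟩ := sign_of_eqv (Quot.eqvGen_exact hab)
        have h1 := h z hz
        unfold val at h1 h
        simp only at h1 h
        rw [hzv b (hR1 b hb'), hzv a (hR1 a ha')] at h1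
        have hs1 : s = 1 := by
          have h2 : (s - 1) * z p 0 v' = 0 := by linarith
          rcases mul_eq_zero.1 h2 with h3 | h3
          · linarith
          · exact absurd h3 hc
        by_contra hab'
        apply hR2 a ha' b hb' hab'
        intro z' hz'
        have h2 := h z' hz'
        rw [hs1, one_mul] at h2
        have h3 := hz'.1 p a v' b
        have h4 := Z_symm hz' p b v'
        linarith
      have hdisj : Disjoint (nzv X p (v + 1)) (F '' (R : Set (Fin 5))) := by
        rw [Set.disjoint_left]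
        rintro c ⟨x, hx1, hx2, hx3, -⟩ ⟨a, ha, rfl⟩
        have ha' : a ∈ R := ha
        rw [hF a (hne a ha')] at hx1
        obtain ⟨s, -, h⟩ := sign_of_eqv (Quot.eqvGen_exact hx1)
        have h1 := h z hz
        unfold val at h1
        simp only at h1
        rw [hz1 x.1.1 x.1.2 hx2 hx3, mul_zero, hzv a (hR1 a ha')] at h1
        exact hc h1
      have hsub : nzv X p (v + 1) ∪ F '' (R : Set (Fin 5)) ⊆ nzv X p (v + 1 + 1) := by
        rintro c (h | ⟨a, ha, rfl⟩)
        · exact nzv_mono p (Nat.le_succ _) h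
        · have ha' : a ∈ R := ha
          rw [hF a (hne a ha')]
          refine ⟨⟨(a, v'), hne a ha'⟩, rfl, (hR1 a ha').trans (Nat.lt_succ_self _), ?_, hnz a ha'⟩
          show v'.1 < v + 1 + 1
          omega
      have hcard := Set.ncard_le_ncard hsub (Set.toFinite _)
      rw [Set.ncard_union_eq hdisj (Set.toFinite _) (Set.toFinite _), hinj.ncard_image,
        Set.ncard_coe_finset] at hcard
      have hfr := finrank_le_inf_ker (Kv X p (v + 1)) (ev p 0 v')
      have hfr2 := Submodule.finrank_mono hker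
      refine ⟨insert v' R, ?_, ?_, ?_, ?_⟩
      · intro a ha
        rcases Finset.mem_insert.1 ha with rfl | h
        · omega
        · exact (hR1 a h).trans (Nat.lt_succ_self _)
      · intro a ha b hb hab
        rcases Finset.mem_insert.1 ha with h1 | h1
        · rcases Finset.mem_insert.1 hb with h2 | h2
          · exact absurd (h1.trans h2.symm) hab
          · rw [h1]
            exact fun h => hnz b h2 (zero_symm h)
        · rcases Finset.mem_insert.1 hb with h2 | h2
          · rw [h2]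
            exact hnz a h1
          · exact hR2 a h1 b h2 hab
      · rw [Finset.card_insert_of_notMem hvR]
        omega
      · rw [Finset.card_insert_of_notMem hvR]
        nlinarith

end TD

open GenTriangulation TD

/-- growth -/
theorem TD.grow (h1 : S_Step) {P : Type} [Finite P] (X : GenTriangulation P)
    (hconn : X.Connected) (hflat : ∀ p i, ¬ X.Flat p i) : ∀ (n : ℕ) (S : Set P), S.Nonempty →
      Sᶜ.ncard = n → 3 * X.kS S + X.ez S + S.ncard ≤ X.ez Set.univ + Nat.card P := by
  have hfq : Finite (Quot X.relE) := Quot.finite _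
  intro n
  induction n with
  | zero =>
    intro S _ hn
    have h2 : Sᶜ = ∅ := (Set.ncard_eq_zero (Set.toFinite _)).1 hn
    rw [Set.compl_empty_iff.1 h2, Set.ncard_univ]
    have h3 : X.KS Set.univ = ⊥ := by
      rw [eq_bot_iff]
      intro z hz
      have : z = 0 := by
        funext p a b
        exact hz.2 p trivial a b
      simp [this]
    unfold kS
    rw [h3, finrank_bot]
    omega
  | succ n ih =>
    intro S hS hcard
    have hne : S ≠ Set.univ := by
      rintro rfl
      simp at hcard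
    obtain ⟨q, hq, j, hj⟩ : ∃ q ∈ S, ∃ j, X.nb q j ∉ S := by
      by_contra hcon
      push Not at hcon
      exact hne (hconn S hS hcon)
    have hc1 : Sᶜ = insert (X.nb q j) (insert (X.nb q j) S)ᶜ := by
      ext r
      by_cases hr : r = X.nb q j
      · subst hr; simp [hj]
      · simp [hr]
    have hc2 : X.nb q j ∉ (insert (X.nb q j) S)ᶜ := by simp
    rw [hc1, Set.ncard_insert_of_notMem hc2 (Set.toFinite _)] at hcard
    have h2 := ih (insert (X.nb q j) S) (Set.insert_nonempty _ _) (by omega)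
    rw [Set.ncard_insert_of_notMem hj (Set.toFinite _)] at h2
    obtain ⟨h3, h4⟩ := h1 P X S q j hq hj
    by_cases hlt : X.kS (insert (X.nb q j) S) < X.kS S
    · obtain ⟨-, -, h5⟩ := h4 hlt
      have h6 := h5 (hflat _ _)
      omega
    · have h5 : X.ez S ≤ X.ez (insert (X.nb q j) S) :=
        Set.ncard_le_ncard (nzc_mono (Set.subset_insert _ _)) (Set.toFinite _)
      omega

/-- **S_D** -/
theorem T_D (h1 : S_Step) : S_D := by
  intro P _ _ X hconn hflat
  obtain ⟨p⟩ := (inferInstance : Nonempty P)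
  obtain ⟨R, hR1, hR2, hR3, hR4⟩ := local_est (X := X) p 4 le_rfl
  have hK : Module.finrank ℚ (Kv X p (4 + 1)) ≤ X.kS {p} := by
    refine Submodule.finrank_mono ?_
    rintro z ⟨hz, hz1⟩
    refine ⟨hz, fun p' hp' a b => ?_⟩
    rw [Set.mem_singleton_iff] at hp'
    rw [hp']
    exact hz1 a b a.2 b.2
  have hfq : Finite (Quot X.relE) := Quot.finite _
  have hN : (nzv X p (4 + 1)).ncard ≤ X.ez {p} := by
    refine Set.ncard_le_ncard ?_ (Set.toFinite _)
    rintro c ⟨x, hx1, -, -, hx4⟩
    exact ⟨(p, x), hx1, rfl, hx4⟩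
  have hg := TD.grow h1 X hconn hflat _ {p} (Set.singleton_nonempty p) rfl
  rw [Set.ncard_singleton] at hg
  have hR5 : R.card ≤ 5 := by
    have := Finset.card_le_univ R
    simpa using this
  generalize R.card = ρ at hR3 hR4 hR5
  interval_cases ρ <;> omega

end Pool.Agent.H830.GT
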