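import Pool.Agent.H830.GT.Stm

/-!
# T_GG: growth with several flat facets (helper100, for helper830)
-/

set_option autoImplicit false

namespace Pool.Agent.H830.GT

open Pool.Agent.H830.OT (TF LF ncl)
open GenTriangulation

namespace GGr

variable {P : Type} (X : GenTriangulation P)

/-- the open flat sides of `S` -/
def oS (S : Set P) : Set (P × Fin 5) := {x | x.1 ∈ S ∧ X.Flat x.1 x.2 ∧ X.nb x.1 x.2 ∉ S}

/-- the pure pentachora of `S` -/
def bS (S : Set P) : Set P := {p | p ∈ S ∧ X.Pure p}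

/-- the invariant -/
def Inv (S : Set P) : Prop :=
  3 * X.w + (oS X S).ncard ≤ 3 * X.kS S + X.ez S + S.ncard + 2 + 2 * (bS X S).ncard

/-- new open flat sides -/
def nS (p : P) (i : Fin 5) : Set (P × Fin 5) := {x | x.1 = p ∧ X.Flat p x.2 ∧ x.2 ≠ i}

variable {X}

theorem flat_symm {p : P} {i : Fin 5} (h : X.Flat p i) :
    X.Flat (X.nb p i) (X.gl p i i) := by
  intro a b ha hb z hz
  have ha' : (X.gl p i).symm a ≠ i := fun h' => ha ((Equiv.symm_apply_eq _).1 h')
  have hb' : (X.gl p i).symm b ≠ i := fun h' => hb ((Equiv.symm_apply_eq _).1 h')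
  have h1 := hz.2 p i _ _ ha' hb'
  simp only [Equiv.apply_symm_apply] at h1
  rw [h1]
  exact h _ _ ha' hb' z hz

theorem ez_mono [Finite P] {S S' : Set P} (h : S ⊆ S') : X.ez S ≤ X.ez S' := by
  unfold ez
  refine Set.ncard_le_ncard ?_ (Set.toFinite _)
  rintro c ⟨x, hx1, hx2, hx3⟩
  exact ⟨x, hx1, h hx2, hx3⟩

theorem bS_mono [Finite P] {S S' : Set P} (h : S ⊆ S') : (bS X S).ncard ≤ (bS X S').ncard :=
  Set.ncard_le_ncard (fun _ hp => ⟨h hp.1, hp.2⟩) (Set.toFinite _)

theorem bS_insert [Finite P] {S : Set P} {p : P} (hp : p ∉ S) (hpure : X.Pure p) :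
    (bS X S).ncard + 1 ≤ (bS X (insert p S)).ncard := by
  have h1 : p ∉ bS X S := fun h => hp h.1
  rw [← Set.ncard_insert_of_notMem h1 (Set.toFinite _)]
  refine Set.ncard_le_ncard ?_ (Set.toFinite _)
  rintro x (rfl | hx)
  · exact ⟨Set.mem_insert _ _, hpure⟩
  · exact ⟨Set.mem_insert_of_mem _ hx.1, hx.2⟩

/-- the new open flat sides, general case -/
theorem oS_sub {S : Set P} {p q : P} {i : Fin 5} (hq : q ∈ S) (hnb : X.nb p i = q) :
    oS X (insert p S) ⊆ oS X S ∪ nS X p i := by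
  rintro ⟨r, m⟩ ⟨h1, h2, h3⟩
  rcases h1 with h1 | h1
  · right
    have h1' : r = p := h1
    subst h1'
    refine ⟨rfl, h2, ?_⟩
    intro hm
    have hm' : m = i := hm
    apply h3
    change X.nb r m ∈ _
    rw [hm', hnb]
    exact Set.mem_insert_of_mem _ hq
  · left
    exact ⟨h1, h2, fun h => h3 (Set.mem_insert_of_mem _ h)⟩

theorem oS_le [Finite P] {S : Set P} {p q : P} {i : Fin 5} (hq : q ∈ S) (hnb : X.nb p i = q) :
    (oS X (insert p S)).ncard ≤ (oS X S).ncard + (nS X p i).ncard :=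
  (Set.ncard_le_ncard (oS_sub hq hnb) (Set.toFinite _)).trans (Set.ncard_union_le _ _)

/-- the new open flat sides if the side is flat -/
theorem oS_le' [Finite P] {S : Set P} {q : P} {j : Fin 5} (hq : q ∈ S) (hp : X.nb q j ∉ S)
    (hflat : X.Flat q j) :
    (oS X (insert (X.nb q j) S)).ncard + 1 ≤
      (oS X S).ncard + (nS X (X.nb q j) (X.gl q j j)).ncard := by
  have hmem : (q, j) ∈ oS X S := ⟨hq, hflat, hp⟩
  have hsub : oS X (insert (X.nb q j) S) ⊆
      (oS X S \ {(q, j)}) ∪ nS X (X.nb q j) (X.gl q j j) := by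
    intro x hx
    rcases oS_sub hq (X.nb_nb q j) hx with h | h
    · left
      refine ⟨h, ?_⟩
      intro hxq
      have hxq' : x = (q, j) := hxq
      rw [hxq'] at hx
      exact hx.2.2 (Set.mem_insert _ _)
    · right; exact h
  have h1 := (Set.ncard_le_ncard hsub (Set.toFinite _)).trans (Set.ncard_union_le _ _)
  have h2 := Set.ncard_sdiff_singleton_add_one hmem (Set.toFinite _)
  omega

theorem nS_empty {p : P} {i : Fin 5} (h : ∀ m, m ≠ i → ¬ X.Flat p m) : (nS X p i).ncard = 0 := by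
  have : nS X p i = ∅ := by
    ext x
    constructor
    · rintro ⟨-, h2, h3⟩
      exact (h _ h3 h2).elim
    · intro hx
      exact hx.elim
  rw [this, Set.ncard_empty]

theorem nS_le_four [Finite P] (p : P) (i : Fin 5) : (nS X p i).ncard ≤ 4 := by
  have h1 : nS X p i ⊆ (fun m : Fin 5 => (p, m)) '' {m | m ≠ i} := by
    rintro ⟨r, m⟩ ⟨h1, -, h3⟩
    have h1' : r = p := h1
    subst h1'
    exact ⟨m, h3, rfl⟩
  have h2 : ({m : Fin 5 | m ≠ i}).ncard ≤ 4 := by
    have h3 : {m : Fin 5 | m ≠ i} = ((Finset.univ.erase i : Finset (Fin 5)) : Set (Fin 5)) := by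
      ext m
      simp
    rw [h3, Set.ncard_coe_finset, Finset.card_erase_of_mem (Finset.mem_univ i)]
    simp
  exact ((Set.ncard_le_ncard h1 (Set.toFinite _)).trans
    (Set.ncard_image_le (Set.toFinite _))).trans h2

theorem nS_le_one [Finite P] {p : P} {i : Fin 5} (h : ∀ m m', X.Flat p m → X.Flat p m' → m = m') :
    (nS X p i).ncard ≤ 1 := by
  rw [Set.ncard_le_one (Set.toFinite _)]
  rintro ⟨r, m⟩ ⟨h1, h2, -⟩ ⟨r', m'⟩ ⟨h1', h2', -⟩
  have e1 : r = p := h1
  have e2 : r' = p := h1'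
  have e3 : m = m' := h m m' h2 h2'
  rw [e1, e2, e3]

/-- no flat facet contains the vertex `i` -/
theorem no_flat {p : P} {i : Fin 5} {c : ℚ} (hc : c ≠ 0) {z : P → Fin 5 → Fin 5 → ℚ}
    (hz : z ∈ X.Z) (h : ∀ a, a ≠ i → z p i a = c) (m : Fin 5) (hm : m ≠ i) : ¬ X.Flat p m := by
  intro hf
  have hex : ∀ i m : Fin 5, ∃ a : Fin 5, a ≠ i ∧ a ≠ m := by decide
  obtain ⟨a, ha1, ha2⟩ := hex i m
  have h1 := hf i a (Ne.symm hm) ha2 z hz
  rw [h a ha1] at h1
  exact hc h1

theorem step [Finite P] (h1 : S_Step) (h2 : S_Start) (S : Set P) (q : P) (j : Fin 5)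
    (hq : q ∈ S) (hp : X.nb q j ∉ S) (hinv : Inv X S) : Inv X (insert (X.nb q j) S) := by
  obtain ⟨s1, s2⟩ := h1 P X S q j hq hp
  have hcard : (insert (X.nb q j) S).ncard = S.ncard + 1 :=
    Set.ncard_insert_of_notMem hp (Set.toFinite _)
  have hez := ez_mono (X := X) (Set.subset_insert (X.nb q j) S)
  have hbm := bS_mono (X := X) (Set.subset_insert (X.nb q j) S)
  have hflat : X.Flat (X.nb q j) (X.gl q j j) → X.Flat q j := by
    intro h
    have h3 := flat_symm h
    rw [X.nb_nb, X.gl_gl_apply] at h3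
    exact h3
  have hpf : X.Pure (X.nb q j) → X.Flat (X.nb q j) (X.gl q j j) := fun h a b _ _ => h a b
  unfold Inv at hinv ⊢
  by_cases hdec : X.kS (insert (X.nb q j) S) < X.kS S
  · obtain ⟨⟨c, hc, z, hz, hzc⟩, s3, s4⟩ := s2 hdec
    have hno : ∀ m, m ≠ X.gl q j j → ¬ X.Flat (X.nb q j) m :=
      fun m hm => no_flat hc hz.1 hzc m hm
    have hn0 := nS_empty hno
    by_cases hf : X.Flat (X.nb q j) (X.gl q j j)
    · have ho := oS_le' hq hp (hflat hf)
      omega
    · have ho := oS_le (i := X.gl q j j) hq (X.nb_nb q j)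
      have s5 := s4 hf
      omega
  · by_cases hf : X.Flat (X.nb q j) (X.gl q j j)
    · have ho := oS_le' hq hp (hflat hf)
      by_cases hpure : X.Pure (X.nb q j)
      · have hn4 := nS_le_four (X := X) (X.nb q j) (X.gl q j j)
        have hb := bS_insert hp hpure
        omega
      · have hn0 := nS_empty (X := X) (p := X.nb q j) (i := X.gl q j j)
          (fun m hm hfm => hm ((h2 P X _ _ hf hpure).2.2 m hfm))
        omega
    · have hpure : ¬ X.Pure (X.nb q j) := fun h => hf (hpf h)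
      have hn1 := nS_le_one (X := X) (p := X.nb q j) (i := X.gl q j j)
        (fun m m' hm hm' => (h2 P X _ _ hm' hpure).2.2 m hm)
      have ho := oS_le (i := X.gl q j j) hq (X.nb_nb q j)
      omega

theorem start [Finite P] (h2 : S_Start) {p : P} {i : Fin 5} (hf : X.Flat p i)
    (hp : ¬ X.Pure p) : Inv X {p} := by
  obtain ⟨s1, s2, s3⟩ := h2 P X p i hf hp
  have ho : (oS X {p}).ncard ≤ 1 := by
    rw [Set.ncard_le_one (Set.toFinite _)]
    rintro ⟨r, m⟩ ⟨k1, k2, -⟩ ⟨r', m'⟩ ⟨k1', k2', -⟩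
    have e1 : r = p := k1
    have e2 : r' = p := k1'
    subst e1
    subst e2
    have e3 : m = i := s3 m k2
    have e4 : m' = i := s3 m' k2'
    rw [e3, e4]
  unfold Inv
  rw [Set.ncard_singleton]
  omega

theorem kS_univ [Finite P] : X.kS Set.univ = 0 := by
  have : X.KS Set.univ = ⊥ := by
    rw [eq_bot_iff]
    rintro z ⟨-, hz⟩
    rw [Submodule.mem_bot]
    funext p a b
    exact hz p (Set.mem_univ p) a b
  unfold kS
  rw [this, finrank_bot]

theorem grow [Finite P] (h1 : S_Step) (h2 : S_Start) (hconn : X.Connected) (n : ℕ) :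
    ∀ S : Set P, S.Nonempty → (Sᶜ).ncard = n → Inv X S → Inv X Set.univ := by
  induction n using Nat.strong_induction_on with
  | _ n ih =>
    intro S hne hn hinv
    by_cases hS : S = Set.univ
    · rw [← hS]; exact hinv
    · have hex : ∃ q ∈ S, ∃ j, X.nb q j ∉ S := by
        by_contra hcon
        push Not at hcon
        exact hS (hconn S hne hcon)
      obtain ⟨q, hq, j, hj⟩ := hex
      refine ih ((insert (X.nb q j) S)ᶜ).ncard ?_ (insert (X.nb q j) S)
        (Set.insert_nonempty _ _) rfl (step h1 h2 S q j hq hj hinv)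
      rw [← hn]
      refine Set.ncard_lt_ncard ?_ (Set.toFinite _)
      rw [Set.ssubset_iff_of_subset]
      · exact ⟨X.nb q j, hj, fun h => h (Set.mem_insert _ _)⟩
      · intro x hx hxS
        exact hx (Set.mem_insert_of_mem _ hxS)

end GGr

theorem T_GG (h1 : S_Step) (h2 : S_Start) : S_G := by
  rintro P _ X hconn ⟨p, i, hf, hp⟩
  have h := GGr.grow h1 h2 hconn _ {p} (Set.singleton_nonempty p) rfl (GGr.start h2 hf hp)
  unfold GGr.Inv at h
  rw [GGr.kS_univ, Set.ncard_univ] at h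
  have hb : (GGr.bS X Set.univ).ncard = X.nPure := by
    have h3 : GGr.bS X Set.univ = {p | X.Pure p} := by
      ext x
      exact ⟨fun hx => hx.2, fun hx => ⟨Set.mem_univ _, hx⟩⟩
    rw [h3]
    unfold nPure
    rw [← Nat.card_coe_set_eq]
    rfl
  rw [hb] at h
  omega

end Pool.Agent.H830.GT
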