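import Pool.Agent.H830.GT.Stm

/-!
# S_L2: orbit count; S_Ev: the number of pentachora is even
-/

set_option autoImplicit false

namespace Pool.Agent.H830.GT

open Pool.Agent.H830.OT (TF LF ncl)

namespace L2

open Finset Pool.Agent.H830.OT

theorem card_LF : Fintype.card LF = 60 := by decide

variable {P : Type} (X : GenTriangulation P)

theorem ext_LF {x y : P × LF} (h1 : x.1 = y.1) (h2 : x.2.1.1 = y.2.1.1)
    (h3 : x.2.1.2.1 = y.2.1.2.1) (h4 : x.2.1.2.2 = y.2.1.2.2) : x = y :=
  Prod.ext h1 (Subtype.ext (Prod.ext h2 (Prod.ext h3 h4)))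

theorem gamL_gamL (x : P × LF) : X.gamL (X.gamL x) = x := by
  refine ext_LF ?_ ?_ ?_ ?_
  · exact X.nb_nb _ _
  · exact X.gl_gl_apply _ _ _
  · exact X.gl_gl_apply _ _ _
  · exact X.gl_gl_apply _ _ _

theorem gamL_be (x : P × LF) : X.gamL (CG.be x) = CG.be (X.gamL x) := rfl

theorem be_be (x : P × LF) : CG.be (CG.be x) = x := rfl

end L2

open L2 Finset Pool.Agent.H830.OT in
theorem T_L2 (hW : S_W) : S_L2 := by
  classical
  intro P _ X
  let _ := Fintype.ofFinite P
  have hcl : ∀ x y z : P × LF, y ∈ ({x, CG.be x, X.gamL x, CG.be (X.gamL x)} :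
      Finset (P × LF)) → (z = CG.be y ∨ z = X.gamL y) →
      z ∈ ({x, CG.be x, X.gamL x, CG.be (X.gamL x)} : Finset (P × LF)) := by
    intro x y z hy h
    simp only [Finset.mem_insert, Finset.mem_singleton] at hy ⊢
    rcases hy with rfl | rfl | rfl | rfl <;> rcases h with rfl | rfl
    · tauto
    · tauto
    · left; rfl
    · right; right; right; rfl
    · tauto
    · left
      exact gamL_gamL X _
    · right; right; left; rfl
    · right; left
      rw [gamL_be X, gamL_gamL X]
  have h1 := hW (P × LF) (fun x y : P × LF => y = CG.be x ∨ y = X.gamL x) (fun _ => 1 / 4)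
    (fun x => {x, CG.be x, X.gamL x, CG.be (X.gamL x)})
    (fun x => Finset.mem_insert_self _ _)
    (fun x y z hy h => hcl x y z hy h)
    (fun x y z hy h => hcl x y z hy (by
      rcases h with rfl | rfl
      · left; rfl
      · right; exact (gamL_gamL X z).symm))
    (by intro x; norm_num)
    (by
      intro x
      rw [Finset.sum_const, nsmul_eq_mul]
      have h2 : ({x, CG.be x, X.gamL x, CG.be (X.gamL x)} : Finset (P × LF)).card ≤ 4 :=
        Finset.card_le_four
      have h3 : ((({x, CG.be x, X.gamL x, CG.be (X.gamL x)} :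
          Finset (P × LF)).card : ℕ) : ℚ) ≤ 4 := by exact_mod_cast h2
      linarith)
  rw [Finset.sum_const, Finset.card_univ, Fintype.card_prod, L2.card_LF, nsmul_eq_mul] at h1
  have h2 : (15 * Nat.card P : ℚ) ≤
      (ncl (fun x y : P × LF => y = CG.be x ∨ y = X.gamL x) : ℚ) := by
    rw [Nat.card_eq_fintype_card]
    push_cast at h1
    linarith
  exact_mod_cast h2

theorem T_Ev : S_Ev := by
  classical
  intro P _ X
  let _ := Fintype.ofFinite P
  have h1 : ∑ x : P × Fin 5, (1 : ZMod 2) = 0 := by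
    refine Finset.sum_involution (fun x _ => (X.nb x.1 x.2, X.gl x.1 x.2 x.2)) ?_ ?_ ?_ ?_
    · intro x _
      decide
    · intro x _ _ h
      have e1 : X.nb x.1 x.2 = x.1 := congrArg Prod.fst h
      have e2 : X.gl x.1 x.2 x.2 = x.2 := congrArg Prod.snd h
      exact X.no_fix x.1 x.2 e1 e2
    · intro x _
      exact Finset.mem_univ _
    · intro x _
      exact Prod.ext (X.nb_nb _ _) (X.gl_gl_apply _ _ _)
  rw [Finset.sum_const, Finset.card_univ, Fintype.card_prod, Fintype.card_fin, nsmul_eq_mul,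
    mul_one, ZMod.natCast_eq_zero_iff_even] at h1
  rw [Nat.card_eq_fintype_card]
  rcases Nat.even_mul.1 h1 with h | h
  · exact h
  · exact absurd h (by decide)

end Pool.Agent.H830.GT
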