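import Pool.Agent.H830.GT.Stm

/-!
# S_L3 and S_L4 for general triangulations (helper195 for helper830)
-/

namespace Pool.Agent.H830.GT

open Pool.Agent.H830.OT (TF LF ncl CG)

namespace L34

variable {P : Type} (X : GenTriangulation P)

/-- `i, j, k, u, v` are the five vertices -/
def C5 (i j k u v : Fin 5) : Prop := Function.Injective ![i, j, k, u, v]

theorem C5_mem {i j k u v : Fin 5} (h : C5 i j k u v) (a : Fin 5) :
    a = i ∨ a = j ∨ a = k ∨ a = u ∨ a = v := by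
  obtain ⟨t, ht⟩ := (Finite.injective_iff_surjective.1 h) a
  fin_cases t
  · exact Or.inl ht.symm
  · exact Or.inr (Or.inl ht.symm)
  · exact Or.inr (Or.inr (Or.inl ht.symm))
  · exact Or.inr (Or.inr (Or.inr (Or.inl ht.symm)))
  · exact Or.inr (Or.inr (Or.inr (Or.inr ht.symm)))

theorem C5_ne {i j k u v : Fin 5} (h : C5 i j k u v) :
    i ≠ j ∧ i ≠ k ∧ i ≠ u ∧ i ≠ v ∧ j ≠ k ∧ j ≠ u ∧ j ≠ v ∧ k ≠ u ∧ k ≠ v ∧ u ≠ v :=
  ⟨fun e => absurd (h (a₁ := 0) (a₂ := 1) e) (by decide),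
   fun e => absurd (h (a₁ := 0) (a₂ := 2) e) (by decide),
   fun e => absurd (h (a₁ := 0) (a₂ := 3) e) (by decide),
   fun e => absurd (h (a₁ := 0) (a₂ := 4) e) (by decide),
   fun e => absurd (h (a₁ := 1) (a₂ := 2) e) (by decide),
   fun e => absurd (h (a₁ := 1) (a₂ := 3) e) (by decide),
   fun e => absurd (h (a₁ := 1) (a₂ := 4) e) (by decide),
   fun e => absurd (h (a₁ := 2) (a₂ := 3) e) (by decide),
   fun e => absurd (h (a₁ := 2) (a₂ := 4) e) (by decide),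
   fun e => absurd (h (a₁ := 3) (a₂ := 4) e) (by decide)⟩

theorem C5_swap {i j k u v : Fin 5} (h : C5 i j k u v) : C5 i k j u v := by
  have : ![i, k, j, u, v] = ![i, j, k, u, v] ∘ (Equiv.swap (1 : Fin 5) 2) := by
    funext t
    fin_cases t <;> rfl
  unfold C5
  rw [this]
  exact Function.Injective.comp h (Equiv.injective _)

theorem C5_map {i j k u v : Fin 5} (σ : Equiv.Perm (Fin 5)) (h : C5 i j k u v) :
    C5 (σ i) (σ j) (σ k) (σ u) (σ v) := by
  have : ![σ i, σ j, σ k, σ u, σ v] = σ ∘ ![i, j, k, u, v] := by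
    funext t
    fin_cases t <;> rfl
  unfold C5
  rw [this]
  exact Function.Injective.comp (Equiv.injective _) h

theorem C5_exists (i j k : Fin 5) : i ≠ j → i ≠ k → j ≠ k → ∃ u v, C5 i j k u v := by
  revert i j k; unfold C5; decide

/-- the invariant -/
def R (x y : P × LF) : Prop :=
  ∀ u v, C5 x.2.1.1 x.2.1.2.1 x.2.1.2.2 u v → ∃ u' v', C5 y.2.1.1 y.2.1.2.1 y.2.1.2.2 u' v' ∧
    X.Same (x.1, ![x.2.1.1, u, v]) (y.1, ![y.2.1.1, u', v'])

/-- the relation generated by `al` and `gamL` -/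
def rel3 (x y : P × LF) : Prop := y = CG.al x ∨ y = X.gamL x

theorem R_gam (x : P × LF) : R X x (X.gamL x) := by
  intro u v h
  refine ⟨X.gl x.1 x.2.1.2.1 u, X.gl x.1 x.2.1.2.1 v, C5_map _ h, ?_⟩
  apply Relation.EqvGen.rel
  have hn := C5_ne h
  refine ⟨x.2.1.2.1, ?_, ?_⟩
  · intro t
    fin_cases t
    · exact hn.1
    · exact hn.2.2.2.2.2.1.symm
    · exact hn.2.2.2.2.2.2.1.symm
  · refine Prod.ext rfl ?_
    funext t
    fin_cases t <;> rfl

theorem R_gam' (x : P × LF) : R X (X.gamL x) x := by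
  intro u v h
  set σ := X.gl x.1 x.2.1.2.1 with hσ
  have h0 : C5 x.2.1.1 x.2.1.2.1 x.2.1.2.2 (σ⁻¹ u) (σ⁻¹ v) := by
    have h1 := C5_map σ⁻¹ h
    have e1 : σ⁻¹ (X.gamL x).2.1.1 = x.2.1.1 := σ.symm_apply_apply _
    have e2 : σ⁻¹ (X.gamL x).2.1.2.1 = x.2.1.2.1 := σ.symm_apply_apply _
    have e3 : σ⁻¹ (X.gamL x).2.1.2.2 = x.2.1.2.2 := σ.symm_apply_apply _
    rw [e1, e2, e3] at h1
    exact h1
  refine ⟨σ⁻¹ u, σ⁻¹ v, h0, ?_⟩
  apply Relation.EqvGen.symm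
  apply Relation.EqvGen.rel
  have hn := C5_ne h0
  refine ⟨x.2.1.2.1, ?_, ?_⟩
  · intro t
    fin_cases t
    · exact hn.1
    · exact hn.2.2.2.2.2.1.symm
    · exact hn.2.2.2.2.2.2.1.symm
  · refine Prod.ext rfl ?_
    funext t
    fin_cases t
    · rfl
    · exact (σ.apply_symm_apply u).symm
    · exact (σ.apply_symm_apply v).symm

theorem R_of {x y : P × LF} (h : Relation.EqvGen (rel3 X) x y) : R X x y ∧ R X y x := by
  induction h with
  | rel x y h =>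
    rcases h with h | h
    · subst h
      constructor
      · intro u v h
        exact ⟨u, v, C5_swap h, Relation.EqvGen.refl _⟩
      · intro u v h
        exact ⟨u, v, C5_swap h, Relation.EqvGen.refl _⟩
    · subst h
      exact ⟨R_gam X x, R_gam' X x⟩
  | refl x => exact ⟨fun u v h => ⟨u, v, h, Relation.EqvGen.refl _⟩,
      fun u v h => ⟨u, v, h, Relation.EqvGen.refl _⟩⟩
  | symm x y _ ih => exact ⟨ih.2, ih.1⟩
  | trans x y z _ _ ih1 ih2 =>
    constructor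
    · intro u v h
      obtain ⟨u1, v1, h1, s1⟩ := ih1.1 u v h
      obtain ⟨u2, v2, h2, s2⟩ := ih2.1 u1 v1 h1
      exact ⟨u2, v2, h2, s1.trans _ _ _ s2⟩
    · intro u v h
      obtain ⟨u1, v1, h1, s1⟩ := ih2.2 u v h
      obtain ⟨u2, v2, h2, s2⟩ := ih1.2 u1 v1 h1
      exact ⟨u2, v2, h2, s1.trans _ _ _ s2⟩

theorem range_eq {i j k u v : Fin 5} (h : C5 i j k u v) :
    Set.range ![i, u, v] = {a | a ≠ j ∧ a ≠ k} := by
  have hn := C5_ne h
  ext a
  constructor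
  · rintro ⟨t, rfl⟩
    fin_cases t
    · exact ⟨hn.1, hn.2.1⟩
    · exact ⟨hn.2.2.2.2.2.1.symm, hn.2.2.2.2.2.2.2.1.symm⟩
    · exact ⟨hn.2.2.2.2.2.2.1.symm, hn.2.2.2.2.2.2.2.2.1.symm⟩
  · rintro ⟨h1, h2⟩
    rcases C5_mem h a with e | e | e | e | e
    · exact ⟨0, e.symm⟩
    · exact absurd e h1
    · exact absurd e h2
    · exact ⟨1, e.symm⟩
    · exact ⟨2, e.symm⟩

theorem inj3 {i j k u v : Fin 5} (h : C5 i j k u v) : Function.Injective ![i, u, v] := by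
  have : ![i, u, v] = ![i, j, k, u, v] ∘ ![(0 : Fin 5), 3, 4] := by
    funext t
    fin_cases t <;> rfl
  rw [this]
  exact Function.Injective.comp h (by decide)

theorem exists_perm {x y : Fin 3 → Fin 5} (hx : Function.Injective x) (hy : Function.Injective y)
    (h : Set.range y = Set.range x) : ∃ π : Equiv.Perm (Fin 3), y = x ∘ π := by
  refine ⟨(Equiv.ofInjective y hy).trans ((Equiv.setCongr h).trans (Equiv.ofInjective x hx).symm), ?_⟩
  funext t
  have h1 := Equiv.apply_ofInjective_symm hx ((Equiv.setCongr h) ((Equiv.ofInjective y hy) t))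
  exact h1.symm

theorem key (hV : X.Valid) {p : P} {i i' j k : Fin 5} (h : i ≠ j ∧ i ≠ k ∧ j ≠ k)
    (h' : i' ≠ j ∧ i' ≠ k ∧ j ≠ k)
    (he : Relation.EqvGen (rel3 X) (p, ⟨(i, j, k), h⟩) (p, ⟨(i', j, k), h'⟩)) : i = i' := by
  obtain ⟨u, v, huv⟩ := C5_exists i j k h.1 h.2.1 h.2.2
  obtain ⟨u', v', huv', hs⟩ := (R_of X he).1 u v huv
  have hr : Set.range ![i', u', v'] = Set.range ![i, u, v] := by
    rw [range_eq huv, range_eq huv']
  obtain ⟨π, hπ⟩ := exists_perm (inj3 huv) (inj3 huv') hr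
  have h1 : X.Same (p, ![i, u, v]) (p, ![i, u, v] ∘ π) := by
    rw [← hπ]; exact hs
  have h2 := hV 3 p ![i, u, v] π (inj3 huv) h1
  rw [h2] at hπ
  exact (congrFun hπ 0).symm

/-- the triangle of a flag -/
def tri (x : P × LF) : P × TF := (x.1, ⟨(x.2.1.2.1, x.2.1.2.2), x.2.2.2.2⟩)

/-- forgetting `i` -/
def forget : Quot (rel3 X) → Quot X.relT :=
  Quot.lift (fun x => Quot.mk X.relT (tri x)) (by
    rintro x y (h | h)
    · subst h
      exact Quot.sound (Or.inl ⟨rfl, rfl⟩)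
    · subst h
      exact Quot.sound (Or.inr ⟨rfl, rfl⟩))

theorem three (j k : Fin 5) : j ≠ k → ∃ f : Fin 3 → Fin 5, Function.Injective f ∧
    ∀ s, f s ≠ j ∧ f s ≠ k := by
  intro h
  have h1 : ∀ j k : Fin 5, j ≠ k → ∃ a b c : Fin 5, a ≠ b ∧ a ≠ c ∧ b ≠ c ∧ a ≠ j ∧ a ≠ k ∧
      b ≠ j ∧ b ≠ k ∧ c ≠ j ∧ c ≠ k := by decide
  obtain ⟨a, b, c, hab, hac, hbc, h1, h2, h3, h4, h5, h6⟩ := h1 j k h
  refine ⟨![a, b, c], ?_, ?_⟩
  · intro s t hst
    fin_cases s <;> fin_cases t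
    · rfl
    · exact absurd hst hab
    · exact absurd hst hac
    · exact absurd hst hab.symm
    · rfl
    · exact absurd hst hbc
    · exact absurd hst hac.symm
    · exact absurd hst hbc.symm
    · rfl
  · intro s
    fin_cases s
    · exact ⟨h1, h2⟩
    · exact ⟨h3, h4⟩
    · exact ⟨h5, h6⟩

end L34

open L34

theorem T_L3 : S_L3 := by
  intro P _ X hV
  choose f hf hf' using fun t : TF => three t.1.1 t.1.2 t.2
  let F : Quot X.relT × Fin 3 → Quot (rel3 X) := fun x =>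
    Quot.mk _ ((Quot.out x.1).1, ⟨(f (Quot.out x.1).2 x.2, (Quot.out x.1).2.1.1,
      (Quot.out x.1).2.1.2), (hf' _ _).1, (hf' _ _).2, (Quot.out x.1).2.2⟩)
  have hF : Function.Injective F := by
    rintro ⟨c, s⟩ ⟨c', s'⟩ h
    have h1 := congrArg (forget X) h
    have h2 : forget X (F (c, s)) = c := Quot.out_eq c
    have h3 : forget X (F (c', s')) = c' := Quot.out_eq c'
    rw [h2, h3] at h1
    subst h1
    have h4 := Quot.eqvGen_exact h
    have h5 := key X hV _ _ h4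
    have h6 : s = s' := hf _ h5
    rw [h6]
  have h1 := Nat.card_le_card_of_injective F hF
  rw [Nat.card_prod, Nat.card_fin] at h1
  have h2 : ncl (fun x y : P × LF => y = CG.al x ∨ y = X.gamL x) = Nat.card (Quot (rel3 X)) := rfl
  have h3 : X.T = Nat.card (Quot X.relT) := rfl
  rw [h2, h3]
  omega

namespace L34

/-- the elements of rank `r` of `V \ {a, b}`, for `a < b` -/
def c3 (a b : Fin 5) (r : ℕ) : Fin 5 :=
  if r < a.val then Fin.ofNat 5 r else if r + 1 < b.val then Fin.ofNat 5 (r + 1)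
    else Fin.ofNat 5 (r + 2)

theorem c3_ne (a b : Fin 5) : a ≠ b → c3 (min a b) (max a b) 0 ≠ c3 (min a b) (max a b) 1 ∧
    c3 (min a b) (max a b) 0 ≠ c3 (min a b) (max a b) 2 ∧
    c3 (min a b) (max a b) 1 ≠ c3 (min a b) (max a b) 2 := by revert a b; decide

/-- a flag of an edge -/
def fl (e : TF) : LF :=
  ⟨(c3 (min e.1.1 e.1.2) (max e.1.1 e.1.2) 0, c3 (min e.1.1 e.1.2) (max e.1.1 e.1.2) 1,
    c3 (min e.1.1 e.1.2) (max e.1.1 e.1.2) 2), c3_ne _ _ e.2⟩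

set_option maxRecDepth 100000 in
theorem six0 (a b i j k : Fin 5) : a < b → i ≠ a → i ≠ b → j ≠ a → j ≠ b → k ≠ a → k ≠ b →
    i ≠ j → i ≠ k → j ≠ k →
    (i, j, k) = (c3 a b 0, c3 a b 1, c3 a b 2) ∨ (i, j, k) = (c3 a b 0, c3 a b 2, c3 a b 1) ∨
    (i, j, k) = (c3 a b 2, c3 a b 1, c3 a b 0) ∨ (i, j, k) = (c3 a b 1, c3 a b 2, c3 a b 0) ∨
    (i, j, k) = (c3 a b 2, c3 a b 0, c3 a b 1) ∨ (i, j, k) = (c3 a b 1, c3 a b 0, c3 a b 2) := by
  revert a b i j k; decide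

theorem compl_exists (i j k : Fin 5) : ∃ a b : Fin 5, a ≠ b ∧ i ≠ a ∧ i ≠ b ∧ j ≠ a ∧ j ≠ b ∧
    k ≠ a ∧ k ≠ b := by revert i j k; decide

theorem rest_exists (a b j : Fin 5) : ∃ i k : Fin 5, i ≠ a ∧ i ≠ b ∧ i ≠ j ∧ k ≠ a ∧ k ≠ b ∧
    j ≠ k ∧ i ≠ k := by revert a b j; decide

/-- the relation on flags -/
def rel {P : Type} (X : GenTriangulation P) (x y : P × LF) : Prop :=
  y = CG.al x ∨ y = CG.be x ∨ y = X.gamL x

variable {P : Type} (X : GenTriangulation P)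

theorem mk_al (x : P × LF) : Quot.mk (rel X) (CG.al x) = Quot.mk (rel X) x := by
  have h : rel X x (CG.al x) := Or.inl rfl
  exact (Quot.sound h).symm

theorem mk_be (x : P × LF) : Quot.mk (rel X) (CG.be x) = Quot.mk (rel X) x := by
  have h : rel X x (CG.be x) := Or.inr (Or.inl rfl)
  exact (Quot.sound h).symm

theorem mk_gamL (x : P × LF) : Quot.mk (rel X) (X.gamL x) = Quot.mk (rel X) x := by
  have h : rel X x (X.gamL x) := Or.inr (Or.inr rfl)
  exact (Quot.sound h).symm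

/-- all the flags of an edge are equivalent -/
theorem mk_fl (p : P) (e : TF) (z : LF) (h1 : z.1.1 ≠ e.1.1)
    (h2 : z.1.1 ≠ e.1.2) (h3 : z.1.2.1 ≠ e.1.1) (h4 : z.1.2.1 ≠ e.1.2) (h5 : z.1.2.2 ≠ e.1.1)
    (h6 : z.1.2.2 ≠ e.1.2) : Quot.mk (rel X) (p, z) = Quot.mk (rel X) (p, fl e) := by
  have hlt : min e.1.1 e.1.2 < max e.1.1 e.1.2 := min_lt_max.2 e.2
  have hm : ∀ c : Fin 5, c ≠ e.1.1 → c ≠ e.1.2 → c ≠ min e.1.1 e.1.2 ∧ c ≠ max e.1.1 e.1.2 := by
    intro c hc1 hc2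
    constructor
    · rcases min_choice e.1.1 e.1.2 with h | h <;> rw [h] <;> assumption
    · rcases max_choice e.1.1 e.1.2 with h | h <;> rw [h] <;> assumption
  rcases six0 (min e.1.1 e.1.2) (max e.1.1 e.1.2) z.1.1 z.1.2.1 z.1.2.2 hlt (hm _ h1 h2).1
    (hm _ h1 h2).2 (hm _ h3 h4).1 (hm _ h3 h4).2 (hm _ h5 h6).1 (hm _ h5 h6).2
    z.2.1 z.2.2.1 z.2.2.2 with h | h | h | h | h | h
  · have e1 : (p, z) = (p, fl e) := Prod.ext rfl (Subtype.ext h)
    rw [e1]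
  · have e1 : (p, z) = CG.al (p, fl e) := Prod.ext rfl (Subtype.ext h)
    rw [e1, mk_al]
  · have e1 : (p, z) = CG.be (p, fl e) := Prod.ext rfl (Subtype.ext h)
    rw [e1, mk_be]
  · have e1 : (p, z) = CG.be (CG.al (p, fl e)) := Prod.ext rfl (Subtype.ext h)
    rw [e1, mk_be, mk_al]
  · have e1 : (p, z) = CG.al (CG.be (p, fl e)) := Prod.ext rfl (Subtype.ext h)
    rw [e1, mk_al, mk_be]
  · have e1 : (p, z) = CG.be (CG.al (CG.be (p, fl e))) := Prod.ext rfl (Subtype.ext h)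
    rw [e1, mk_be, mk_al, mk_be]

theorem fl_symm (e e' : TF) (h : e'.1 = (e.1.2, e.1.1)) : fl e' = fl e := by
  apply Subtype.ext
  unfold fl
  simp only [h, min_comm e.1.2, max_comm e.1.2]

end L34

theorem T_L4 : S_L4 := by
  intro P _ X
  let f : Quot X.relE → Quot (rel X) :=
    Quot.lift (fun x => Quot.mk (rel X) (x.1, fl x.2)) (by
      rintro ⟨p, e⟩ ⟨q, e'⟩ (⟨h1, h2⟩ | ⟨j, hja, hjb, h1, h2⟩)
      · simp only at h1 h2
        subst h1
        show Quot.mk (rel X) (q, fl e) = Quot.mk (rel X) (q, fl e')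
        rw [fl_symm e e' h2]
      · obtain ⟨i, k, hia, hib, hij, hka, hkb, hjk, hik⟩ := rest_exists e.1.1 e.1.2 j
        show Quot.mk (rel X) (p, fl e) = Quot.mk (rel X) (q, fl e')
        simp only at h1 h2
        have e1 := mk_fl X p e ⟨(i, j, k), hij, hik, hjk⟩ hia hib hja.symm hjb.symm hka hkb
        have ea : e'.1.1 = X.gl p j e.1.1 := by rw [h2]
        have eb : e'.1.2 = X.gl p j e.1.2 := by rw [h2]
        have hinj := (X.gl p j).injective
        have e2 := mk_fl X q e' (X.gamL (p, ⟨(i, j, k), hij, hik, hjk⟩)).2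
          (fun h => hia (hinj (h.trans ea))) (fun h => hib (hinj (h.trans eb)))
          (fun h => hja.symm (hinj (h.trans ea))) (fun h => hjb.symm (hinj (h.trans eb)))
          (fun h => hka (hinj (h.trans ea))) (fun h => hkb (hinj (h.trans eb)))
        rw [← e1, ← e2, ← mk_gamL X (p, ⟨(i, j, k), hij, hik, hjk⟩)]
        congr 1
        exact Prod.ext h1.symm rfl)
  have hf : Function.Surjective f := by
    intro q
    induction q using Quot.ind with
    | mk x =>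
      obtain ⟨p, z⟩ := x
      obtain ⟨a, b, hab, h1, h2, h3, h4, h5, h6⟩ := compl_exists z.1.1 z.1.2.1 z.1.2.2
      exact ⟨Quot.mk _ (p, ⟨(a, b), hab⟩), (mk_fl X p ⟨(a, b), hab⟩ z h1 h2 h3 h4 h5 h6).symm⟩
  exact Nat.card_le_card_of_surjective f hf

end Pool.Agent.H830.GT
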