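import Pool.Agent.H830.GT.Stm

/-!
# Growth: adding one pentachoron (`T_Step`) and the start (`T_Start`)
-/

namespace Pool.Agent.H830.GT

namespace StepL

open Pool.Agent.H830.OT (TF)

/-- a linear functional cuts the dimension by at most one -/
theorem finrank_le_inf_ker {M : Type} [AddCommGroup M] [Module ℚ M] [FiniteDimensional ℚ M]
    (K : Submodule ℚ M) (l : M →ₗ[ℚ] ℚ) :
    Module.finrank ℚ K ≤ Module.finrank ℚ ↥(K ⊓ LinearMap.ker l) + 1 := by
  have h1 := Submodule.finrank_sup_add_finrank_inf_eq K (LinearMap.ker l)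
  have h2 := Submodule.finrank_le (K ⊔ LinearMap.ker l)
  have h3 := LinearMap.finrank_range_add_finrank_ker l
  have h4 : Module.finrank ℚ (LinearMap.range l) ≤ 1 := by
    have := Submodule.finrank_le (LinearMap.range l)
    simpa using this
  omega

variable {P : Type} {X : GenTriangulation P}

/-- functional `z ↦ z p a b` -/
def ev (p : P) (a b : Fin 5) : (P → Fin 5 → Fin 5 → ℚ) →ₗ[ℚ] ℚ where
  toFun z := z p a b
  map_add' _ _ := rfl
  map_smul' _ _ := rfl

/-- value of a function on an edge -/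
def val (z : P → Fin 5 → Fin 5 → ℚ) (x : P × TF) : ℚ := z x.1 x.2.1.1 x.2.1.2

theorem Z_self {z : P → Fin 5 → Fin 5 → ℚ} (hz : z ∈ X.Z) (p : P) (a : Fin 5) : z p a a = 0 := by
  have := hz.1 p a a a
  linarith

theorem Z_symm {z : P → Fin 5 → Fin 5 → ℚ} (hz : z ∈ X.Z) (p : P) (a b : Fin 5) :
    z p b a = - z p a b := by
  have := hz.1 p a b a
  have := Z_self hz p a
  linarith

theorem val_rel {x y : P × TF} (h : X.relE x y) :
    ∃ s : ℚ, (s = 1 ∨ s = -1) ∧ ∀ z ∈ X.Z, val z y = s * val z x := by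
  rcases h with ⟨h1, h2⟩ | ⟨i, hi1, hi2, h1, h2⟩
  · refine ⟨-1, Or.inr rfl, fun z hz => ?_⟩
    unfold val
    rw [h1, h2]
    rw [Z_symm hz]
    ring
  · refine ⟨1, Or.inl rfl, fun z hz => ?_⟩
    unfold val
    rw [h1, h2, one_mul]
    exact hz.2 x.1 i _ _ hi1 hi2

theorem val_quot {x y : P × TF} (h : Quot.mk X.relE x = Quot.mk X.relE y) :
    ∃ s : ℚ, (s = 1 ∨ s = -1) ∧ ∀ z ∈ X.Z, val z y = s * val z x := by
  have h' := Quot.eqvGen_exact h
  clear h
  induction h' with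
  | rel x y h => exact val_rel h
  | refl x => exact ⟨1, Or.inl rfl, fun z _ => (one_mul _).symm⟩
  | symm x y _ ih =>
    obtain ⟨s, hs, h⟩ := ih
    refine ⟨s, hs, fun z hz => ?_⟩
    rw [h z hz]
    rcases hs with rfl | rfl <;> ring
  | trans x y w _ _ ih1 ih2 =>
    obtain ⟨s, hs, h⟩ := ih1
    obtain ⟨t, ht, h'⟩ := ih2
    refine ⟨t * s, ?_, fun z hz => ?_⟩
    · rcases hs with rfl | rfl <;> rcases ht with rfl | rfl <;> norm_num
    · rw [h' z hz, h z hz]; ring

theorem finite_quot [Finite P] : Finite (Quot X.relE) := Quot.finite _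

/-- cocycles which vanish on a facet -/
theorem const_of_van {z : P → Fin 5 → Fin 5 → ℚ} (hz : z ∈ X.Z) {p : P} {i : Fin 5}
    (hv : ∀ a b, a ≠ i → b ≠ i → z p a b = 0) {a b : Fin 5} (ha : a ≠ i) (hb : b ≠ i) :
    z p i a = z p i b := by
  have h1 := hz.1 p i a b
  have h2 := hv a b ha hb
  linarith

theorem zero_of_van {z : P → Fin 5 → Fin 5 → ℚ} (hz : z ∈ X.Z) {p : P} {i a₀ : Fin 5}
    (ha₀ : a₀ ≠ i) (hv : ∀ a b, a ≠ i → b ≠ i → z p a b = 0) (h0 : z p i a₀ = 0) (a b : Fin 5) :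
    z p a b = 0 := by
  have h0 : ∀ a, z p i a = 0 := by
    intro a
    by_cases ha : a = i
    · subst ha; exact Z_self hz p _
    · rw [const_of_van hz hv ha ha₀, h0]
  have h1 := hz.1 p a i b
  have h2 := Z_symm hz p a i
  have h3 := h0 a
  have h4 := h0 b
  linarith

/-- the dimension drops by at most one -/
theorem drop [Finite P] {K K' : Submodule ℚ (P → Fin 5 → Fin 5 → ℚ)} {p : P} {i a₀ : Fin 5}
    (hker : ∀ z ∈ K, z p i a₀ = 0 → z ∈ K') :
    Module.finrank ℚ K ≤ Module.finrank ℚ K' + 1 := by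
  cases nonempty_fintype P
  have h1 := finrank_le_inf_ker K (ev p i a₀)
  have h2 : Module.finrank ℚ ↥(K ⊓ LinearMap.ker (ev p i a₀)) ≤ Module.finrank ℚ K' :=
    Submodule.finrank_mono fun z hz => hker z hz.1 hz.2
  omega

theorem nzc_mono {S S' : Set P} (h : S ⊆ S') : X.nzc S ⊆ X.nzc S' := by
  rintro c ⟨x, hx, hx1, hx2⟩
  exact ⟨x, hx, h hx1, hx2⟩

end StepL

open StepL Pool.Agent.H830.OT in
theorem T_Step : S_Step := by
  intro P _ X S q j hq hp
  have := finite_quot (X := X)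
  cases nonempty_fintype P
  set p := X.nb q j with hpdef
  set i := X.gl q j j with hidef
  have hnb : X.nb p i = q := X.nb_nb q j
  -- z ∈ K_S vanishes on facet i of p
  have hvan : ∀ z ∈ X.KS S, ∀ a b, a ≠ i → b ≠ i → z p a b = 0 := by
    intro z hz a b ha hb
    have := hz.1.2 p i a b ha hb
    rw [← this, hnb]
    exact hz.2 q hq _ _
  obtain ⟨a₀, ha₀⟩ : ∃ a : Fin 5, a ≠ i := exists_ne i
  have hker : ∀ z ∈ X.KS S, z p i a₀ = 0 → z ∈ X.KS (insert p S) := by
    intro z hz hz0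
    refine ⟨hz.1, fun p' hp' a b => ?_⟩
    rcases hp' with hp' | hp'
    · rw [hp']
      exact zero_of_van hz.1 ha₀ (hvan z hz) hz0 a b
    · exact hz.2 p' hp' a b
  refine ⟨drop hker, fun hlt => ?_⟩
  obtain ⟨z, hz, hc⟩ : ∃ z ∈ X.KS S, z p i a₀ ≠ 0 := by
    by_contra hcon
    push Not at hcon
    have h1 : X.KS S ≤ X.KS (insert p S) := fun z hz => hker z hz (hcon z hz)
    have h2 := Submodule.finrank_mono h1
    unfold GenTriangulation.kS at hlt
    omega
  set c := z p i a₀ with hcdef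
  have hzi : ∀ a, a ≠ i → z p i a = c := fun a ha => const_of_van hz.1 (hvan z hz) ha ha₀
  -- new classes
  have hnew : ∀ a (ha : i ≠ a), Quot.mk X.relE (p, (⟨(i, a), ha⟩ : TF)) ∉ X.nzc S := by
    rintro a ha ⟨x, hxq, hx, -⟩
    obtain ⟨s, -, h1⟩ := val_quot hxq
    have h2 := h1 z hz.1
    have h3 : val z x = 0 := hz.2 x.1 hx _ _
    have h4 : val z (p, (⟨(i, a), ha⟩ : TF)) = c := hzi a ha.symm
    rw [h3, h4, mul_zero] at h2
    exact hc h2
  have hin : ∀ a (ha : i ≠ a), Quot.mk X.relE (p, (⟨(i, a), ha⟩ : TF)) ∈ X.nzc (insert p S) := by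
    intro a ha
    refine ⟨(p, ⟨(i, a), ha⟩), rfl, Set.mem_insert _ _, fun h => ?_⟩
    have h1 : z p i a = 0 := h z hz.1
    rw [hzi a ha.symm] at h1
    exact hc h1
  refine ⟨⟨c, hc, z, hz, hzi⟩, ?_, fun hnf => ?_⟩
  · have hsub : insert (Quot.mk X.relE (p, (⟨(i, a₀), ha₀.symm⟩ : TF))) (X.nzc S) ⊆
        X.nzc (insert p S) := by
      rintro r (rfl | hr)
      · exact hin a₀ ha₀.symm
      · exact nzc_mono (Set.subset_insert _ _) hr
    have h1 := Set.ncard_le_ncard hsub (Set.toFinite _)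
    rwa [Set.ncard_insert_of_notMem (hnew a₀ ha₀.symm) (Set.toFinite _)] at h1
  · obtain ⟨a, ha, hab⟩ : ∃ a, ∃ ha : i ≠ a,
        Quot.mk X.relE (p, (⟨(i, a₀), ha₀.symm⟩ : TF)) ≠ Quot.mk X.relE (p, (⟨(i, a), ha⟩ : TF)) := by
      by_contra hcon
      push Not at hcon
      apply hnf
      intro a b ha hb z' hz'
      have heq : ∀ a (_ : a ≠ i), z' p i a = z' p i a₀ := by
        intro a ha
        obtain ⟨s, hs, h1⟩ := val_quot (hcon a ha.symm)
        have h2 := h1 z hz.1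
        have h3 := h1 z' hz'
        have h4 : val z (p, (⟨(i, a), ha.symm⟩ : TF)) = c := hzi a ha
        have h5 : val z (p, (⟨(i, a₀), ha₀.symm⟩ : TF)) = c := rfl
        rw [h4, h5] at h2
        rcases hs with rfl | rfl
        · rw [one_mul] at h3
          exact h3
        · exfalso
          apply hc
          linarith
      have h1 := hz'.1 p i a b
      rw [heq a ha, heq b hb] at h1
      linarith
    have hsub : insert (Quot.mk X.relE (p, (⟨(i, a), ha⟩ : TF)))
        (insert (Quot.mk X.relE (p, (⟨(i, a₀), ha₀.symm⟩ : TF))) (X.nzc S)) ⊆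
        X.nzc (insert p S) := by
      rintro r (rfl | rfl | hr)
      · exact hin a ha
      · exact hin a₀ ha₀.symm
      · exact nzc_mono (Set.subset_insert _ _) hr
    have h1 := Set.ncard_le_ncard hsub (Set.toFinite _)
    rw [Set.ncard_insert_of_notMem _ (Set.toFinite _),
      Set.ncard_insert_of_notMem (hnew a₀ ha₀.symm) (Set.toFinite _)] at h1
    · unfold GenTriangulation.ez
      omega
    · rintro (h | h)
      · exact hab h.symm
      · exact hnew a ha h

open StepL Pool.Agent.H830.OT in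
theorem T_Start : S_Start := by
  intro P _ X p i hf hnp
  have := finite_quot (X := X)
  cases nonempty_fintype P
  obtain ⟨a₀, ha₀⟩ : ∃ a : Fin 5, a ≠ i := exists_ne i
  have hvan : ∀ z ∈ X.Z, ∀ a b, a ≠ i → b ≠ i → z p a b = 0 :=
    fun z hz a b ha hb => hf a b ha hb z hz
  refine ⟨?_, ?_, fun j hj => ?_⟩
  · have hker : ∀ z ∈ X.Z, z p i a₀ = 0 → z ∈ X.KS {p} := by
      intro z hz hz0
      refine ⟨hz, fun p' hp' a b => ?_⟩
      rw [Set.mem_singleton_iff] at hp'
      rw [hp']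
      exact zero_of_van hz ha₀ (hvan z hz) hz0 a b
    exact drop hker
  · unfold GenTriangulation.Pure at hnp
    push Not at hnp
    obtain ⟨a, b, hab⟩ := hnp
    have hne : a ≠ b := by
      rintro rfl
      exact hab fun z hz => Z_self hz p a
    have h1 : Quot.mk X.relE (p, (⟨(a, b), hne⟩ : TF)) ∈ X.nzc {p} :=
      ⟨(p, ⟨(a, b), hne⟩), rfl, Set.mem_singleton _, hab⟩
    exact (Set.ncard_pos (Set.toFinite _)).2 ⟨_, h1⟩
  · by_contra hji
    apply hnp
    intro a b z hz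
    obtain ⟨c, hc1, hc2⟩ : ∃ a : Fin 5, a ≠ i ∧ a ≠ j := by
      have : ∀ i i' : Fin 5, ∃ a : Fin 5, a ≠ i ∧ a ≠ i' := by decide
      exact this i j
    have h1 : z p i c = 0 := hj i c (Ne.symm hji) hc2 z hz
    exact zero_of_van hz hc1 (hvan z hz) h1 a b

end Pool.Agent.H830.GT
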