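import Pool.Agent.H830.GT.Stm

/-! # Project GT: sum over the components (S_Sum from S_C) -/

set_option autoImplicit false

namespace Pool.Agent.H830.GT

open GenTriangulation Pool.Agent.H830.OT

namespace Sum81

variable {P : Type} (X : GenTriangulation P)

theorem mem_Z {z : P → Fin 5 → Fin 5 → ℚ} : z ∈ X.Z ↔
    ((∀ p a b c, z p a b + z p b c = z p a c) ∧
    ∀ p i a b, a ≠ i → b ≠ i → z (X.nb p i) (X.gl p i a) (X.gl p i b) = z p a b) := Iff.rfl

theorem mem_KS {S : Set P} {z : P → Fin 5 → Fin 5 → ℚ} : z ∈ X.KS S ↔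
    (z ∈ X.Z ∧ ∀ p ∈ S, ∀ a b, z p a b = 0) := Iff.rfl

theorem z_self {z : P → Fin 5 → Fin 5 → ℚ} (hz : z ∈ X.Z) (p : P) (a : Fin 5) : z p a a = 0 := by
  have := ((mem_Z X).1 hz).1 p a a a
  linarith

theorem z_symm {z : P → Fin 5 → Fin 5 → ℚ} (hz : z ∈ X.Z) (p : P) (a b : Fin 5) :
    z p b a = - z p a b := by
  have h1 := ((mem_Z X).1 hz).1 p a b a
  have h2 := z_self X hz p a
  linarith

theorem zero_symm {p : P} {a b : Fin 5} (h : X.Zero p a b) : X.Zero p b a := fun z hz => by
  rw [z_symm X hz p a b, h z hz]; simp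

theorem zero_nb (p : P) (i a b : Fin 5) (ha : a ≠ i) (hb : b ≠ i) :
    X.Zero (X.nb p i) (X.gl p i a) (X.gl p i b) ↔ X.Zero p a b := by
  constructor
  · intro h z hz
    rw [← ((mem_Z X).1 hz).2 p i a b ha hb]; exact h z hz
  · intro h z hz
    rw [((mem_Z X).1 hz).2 p i a b ha hb]; exact h z hz

theorem flat_nb (p : P) (i : Fin 5) : X.Flat (X.nb p i) (X.gl p i i) ↔ X.Flat p i := by
  constructor
  · intro h a b ha hb
    rw [← zero_nb X p i a b ha hb]
    exact h _ _ (fun h => ha ((X.gl p i).injective h)) (fun h => hb ((X.gl p i).injective h))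
  · intro h a b ha hb
    obtain ⟨a', rfl⟩ := (X.gl p i).surjective a
    obtain ⟨b', rfl⟩ := (X.gl p i).surjective b
    have ha' : a' ≠ i := fun h => ha (by rw [h])
    have hb' : b' ≠ i := fun h => hb (by rw [h])
    rw [zero_nb X p i a' b' ha' hb']
    exact h a' b' ha' hb'

theorem ex_third : ∀ i j : Fin 5, ∃ c : Fin 5, c ≠ i ∧ c ≠ j := by decide

theorem pure_of_two_flat {p : P} {i j : Fin 5} (hij : i ≠ j) (hi : X.Flat p i) (hj : X.Flat p j) :
    X.Pure p := by
  obtain ⟨c, hci, hcj⟩ : ∃ c : Fin 5, c ≠ i ∧ c ≠ j := ex_third i j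
  have key : ∀ a, X.Zero p a c := by
    intro a
    by_cases ha : a = i
    · subst ha; exact hj a c hij hcj
    · exact hi a c ha hci
  intro a b z hz
  have h1 := key a z hz
  have h2 := zero_symm X (key b) z hz
  have h3 := ((mem_Z X).1 hz).1 p a c b
  linarith

/-- crossing a nonflat facet -/
def N (p q : P) : Prop := ∃ j, ¬ X.Flat p j ∧ q = X.nb p j

/-- the component -/
def cmp (c : Quot (N X)) : Set P := {p | Quot.mk (N X) p = c}

theorem N_rev {p q : P} (h : N X p q) : N X q p := by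
  obtain ⟨j, hj, rfl⟩ := h
  exact ⟨X.gl p j j, fun hf => hj ((flat_nb X p j).1 hf), (X.nb_nb p j).symm⟩

theorem nb_mem {c : Quot (N X)} {p : P} (hp : p ∈ cmp X c) {j : Fin 5} (hj : ¬ X.Flat p j) :
    X.nb p j ∈ cmp X c := by
  have h : N X p (X.nb p j) := ⟨j, hj, rfl⟩
  exact (Quot.sound h).symm.trans hp

theorem closed_eq {S : Set P} {c : Quot (N X)} (hS : S ⊆ cmp X c) (hne : S.Nonempty)
    (hcl : ∀ p ∈ S, ∀ j, ¬ X.Flat p j → X.nb p j ∈ S) : S = cmp X c := by
  apply Set.Subset.antisymm hS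
  intro q hq
  obtain ⟨p0, hp0⟩ := hne
  have key : ∀ p q, N X p q → (p ∈ S) = (q ∈ S) := by
    intro p q h
    apply propext
    constructor
    · intro hp
      obtain ⟨j, hj, rfl⟩ := h
      exact hcl p hp j hj
    · intro hq
      obtain ⟨j, hj, hj2⟩ := N_rev X h
      rw [hj2]
      exact hcl q hq j hj
  have h1 : Quot.mk (N X) p0 = Quot.mk (N X) q := by
    have h2 : Quot.mk (N X) p0 = c := hS hp0
    have h3 : Quot.mk (N X) q = c := hq
    rw [h2, h3]
  have h2 : (p0 ∈ S) = (q ∈ S) := by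
    have := congrArg (Quot.lift (fun p => p ∈ S) key) h1
    exact this
  rw [← h2]
  exact hp0

theorem exists_flat (hconn : X.Connected) (hflat : ∃ p i, X.Flat p i) (c : Quot (N X)) :
    ∃ p ∈ cmp X c, ∃ i, X.Flat p i := by
  by_contra h
  push Not at h
  have h1 : cmp X c = Set.univ := by
    apply hconn
    · obtain ⟨p, hp⟩ := Quot.exists_rep c
      exact ⟨p, hp⟩
    · intro p hp i
      exact nb_mem X hp (h p hp i)
  obtain ⟨p, i, hf⟩ := hflat
  exact h p (by rw [h1]; exact Set.mem_univ _) i hf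

theorem kS_pure {p : P} (hp : X.Pure p) : X.kS {p} = X.w := by
  have : X.KS {p} = X.Z := by
    ext z
    rw [mem_KS]
    constructor
    · exact fun h => h.1
    · intro hz
      refine ⟨hz, fun q hq a b => ?_⟩
      rw [Set.mem_singleton_iff] at hq
      subst hq
      exact hp a b z hz
  unfold kS w
  rw [this]

theorem ez_pure {p : P} (hp : X.Pure p) : X.ez {p} = 0 := by
  have : X.nzc {p} = ∅ := by
    ext c
    simp only [nzc, Set.mem_ofPred_eq, Set.mem_empty_iff_false, iff_false]
    rintro ⟨x, _, h1, h2⟩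
    rw [Set.mem_singleton_iff] at h1
    rw [h1] at h2
    exact h2 (hp _ _)
  unfold ez
  rw [this]
  simp

theorem cmp_pure {c : Quot (N X)} {p : P} (hp : p ∈ cmp X c) (h : X.Pure p) :
    ({p} : Set P) = cmp X c := by
  apply closed_eq X
  · intro q hq
    rw [Set.mem_singleton_iff] at hq
    rw [hq]; exact hp
  · exact ⟨p, rfl⟩
  · intro q hq j hj
    rw [Set.mem_singleton_iff] at hq
    subst hq
    exact absurd (fun a b _ _ => h a b) hj

theorem per_comp [Finite P] (hC : S_C) (hconn : X.Connected) (hflat : ∃ p i, X.Flat p i)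
    (c : Quot (N X)) :
    3 * X.w + {p | p ∈ cmp X c ∧ X.Pure p}.ncard ≤ 3 * X.kS (cmp X c) + (cmp X c).ncard +
      X.ez (cmp X c) + {p | p ∈ cmp X c ∧ X.IsCap p}.ncard := by
  obtain ⟨p, hp, i, hi⟩ := exists_flat X hconn hflat c
  by_cases hpure : X.Pure p
  · have h1 := cmp_pure X hp hpure
    rw [← h1, kS_pure X hpure, ez_pure X hpure]
    have h2 : {q | q ∈ ({p} : Set P) ∧ X.Pure q}.ncard ≤ ({p} : Set P).ncard :=
      Set.ncard_le_ncard (fun q hq => hq.1) (Set.finite_singleton p)
    omega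
  · have h1 : {q | q ∈ cmp X c ∧ X.Pure q} = ∅ := by
      ext q
      simp only [Set.mem_ofPred_eq, Set.mem_empty_iff_false, iff_false, not_and]
      intro hq hq2
      have h2 := cmp_pure X hq hq2
      have : p ∈ ({q} : Set P) := by rw [h2]; exact hp
      rw [Set.mem_singleton_iff] at this
      subst this
      exact hpure hq2
    rw [h1, Set.ncard_empty]
    obtain ⟨h2, h3⟩ := hC P X (cmp X c) (fun p hp j hj => nb_mem X hp hj)
      (fun S hS hne hcl => closed_eq X hS hne hcl) ⟨p, hp, ⟨i, hi⟩, hpure⟩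
    by_cases h4 : (cmp X c).ncard = 1 ∧ X.ez (cmp X c) = 1
    · have h5 : cmp X c = {p} := by
        obtain ⟨q, hq⟩ := Set.ncard_eq_one.1 h4.1
        rw [hq] at hp
        rw [Set.mem_singleton_iff] at hp
        rw [hq, hp]
      have hcap : X.IsCap p := by
        refine ⟨hpure, ⟨i, hi, fun j hj => ?_⟩, ?_⟩
        · have : X.nb p j ∈ cmp X c := nb_mem X hp fun hf =>
            hpure (pure_of_two_flat X hj hf hi)
          rw [h5] at this
          exact this
        · rw [← h5]; exact h4.2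
      have h6 : 1 ≤ {q | q ∈ cmp X c ∧ X.IsCap q}.ncard := by
        rw [Nat.one_le_iff_ne_zero]
        exact Set.ncard_ne_zero_of_mem (a := p) ⟨hp, hcap⟩ (Set.toFinite _)
      omega
    · have := h3 h4
      omega

theorem sum_fiber [Finite P] [Fintype (Quot (N X))] (R : P → Prop) :
    ∑ c : Quot (N X), {p | p ∈ cmp X c ∧ R p}.ncard = Nat.card {p // R p} := by
  classical
  have := Fintype.ofFinite P
  have h : ∀ c : Quot (N X), {p | p ∈ cmp X c ∧ R p}.ncard =
      ((Finset.univ.filter R).filter (fun p => Quot.mk (N X) p = c)).card := by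
    intro c
    rw [← Set.ncard_coe_finset]
    congr 1
    ext p
    simp only [cmp, Set.mem_ofPred_eq, Finset.coe_filter, Finset.mem_filter, Finset.mem_univ,
      true_and]
    exact and_comm
  have h2 := Finset.card_eq_sum_card_fiberwise (f := fun p : P => Quot.mk (N X) p)
    (s := Finset.univ.filter R) (t := Finset.univ)
    (fun p _ => Finset.mem_coe.2 (Finset.mem_univ _))
  rw [Finset.sum_congr rfl (fun c _ => h c), ← h2, Nat.card_eq_fintype_card,
    Fintype.card_subtype]

theorem relE_symmetric_data {x y : P × TF} (h : X.relE x y)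
    (hx : ¬ X.Zero x.1 x.2.1.1 x.2.1.2) :
    Quot.mk (N X) x.1 = Quot.mk (N X) y.1 ∧ ¬ X.Zero y.1 y.2.1.1 y.2.1.2 := by
  rcases h with ⟨h1, h2⟩ | ⟨i, h1, h2, h3, h4⟩
  · refine ⟨by rw [h1], fun hz => hx ?_⟩
    rw [h1, h2] at hz
    exact zero_symm X hz
  · constructor
    · rw [h3]
      exact Quot.sound ⟨i, fun hf => hx (hf _ _ h1 h2), rfl⟩
    · intro hz
      rw [h3, h4] at hz
      exact hx ((zero_nb X _ _ _ _ h1 h2).1 hz)

theorem relE_zero {x y : P × TF} (h : X.relE x y) (hx : X.Zero x.1 x.2.1.1 x.2.1.2) :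
    X.Zero y.1 y.2.1.1 y.2.1.2 := by
  rcases h with ⟨h1, h2⟩ | ⟨i, h1, h2, h3, h4⟩
  · rw [h1, h2]
    exact zero_symm X hx
  · rw [h3, h4]
    exact (zero_nb X _ _ _ _ h1 h2).2 hx

open Classical in
/-- the component of an edge on which not all cocycles vanish -/
noncomputable def fE (x : P × TF) : Option (Quot (N X)) :=
  if X.Zero x.1 x.2.1.1 x.2.1.2 then none else some (Quot.mk (N X) x.1)

theorem fE_rel (x y : P × TF) (h : X.relE x y) : fE X x = fE X y := by
  unfold fE
  by_cases hx : X.Zero x.1 x.2.1.1 x.2.1.2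
  · rw [if_pos hx, if_pos (relE_zero X h hx)]
  · obtain ⟨h1, h2⟩ := relE_symmetric_data X h hx
    rw [if_neg hx, if_neg h2, h1]

/-- lifted to the classes of edges -/
noncomputable def FE : Quot X.relE → Option (Quot (N X)) := Quot.lift (fE X) (fE_rel X)

theorem sum_ez [Finite P] [Fintype (Quot (N X))] :
    ∑ c : Quot (N X), X.ez (cmp X c) ≤ X.ez Set.univ := by
  classical
  have : Finite (Quot X.relE) := Finite.of_surjective (Quot.mk X.relE) Quot.exists_rep
  have := Fintype.ofFinite (Quot X.relE)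
  set A : Finset (Quot X.relE) := Finset.univ.filter (fun e => e ∈ X.nzc Set.univ) with hA
  have hAcard : X.ez Set.univ = A.card := by
    unfold ez
    rw [← Set.ncard_coe_finset]
    congr 1
    ext e
    simp [hA]
  have h1 : ∀ c : Quot (N X), X.ez (cmp X c) ≤ (A.filter (fun e => FE X e = some c)).card := by
    intro c
    unfold ez
    rw [← Set.ncard_coe_finset]
    apply Set.ncard_le_ncard _ (Set.toFinite _)
    rintro e ⟨x, hx, hxc, hz⟩
    simp only [Finset.coe_filter, Set.mem_ofPred_eq, hA, Finset.mem_filter, Finset.mem_univ,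
      true_and]
    refine ⟨⟨x, hx, Set.mem_univ _, hz⟩, ?_⟩
    rw [← hx]
    change fE X x = some c
    unfold fE
    rw [if_neg hz]
    exact congrArg some hxc
  rw [hAcard]
  calc ∑ c : Quot (N X), X.ez (cmp X c)
      ≤ ∑ c : Quot (N X), (A.filter (fun e => FE X e = some c)).card :=
        Finset.sum_le_sum fun c _ => h1 c
    _ = (Finset.univ.biUnion fun c => A.filter (fun e => FE X e = some c)).card := by
        rw [Finset.card_biUnion]
        intro c _ c' _ hcc
        change Disjoint _ _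
        rw [Finset.disjoint_left]
        intro e he he'
        simp only [Finset.mem_filter] at he he'
        rw [he.2] at he'
        exact hcc (Option.some.inj he'.2)
    _ ≤ A.card := by
        apply Finset.card_le_card
        intro e he
        simp only [Finset.mem_biUnion, Finset.mem_filter] at he
        obtain ⟨_, _, h, _⟩ := he
        exact h

theorem KS_union (S T : Set P) : X.KS (S ∪ T) = X.KS S ⊓ X.KS T := by
  ext z
  simp only [Submodule.mem_inf, mem_KS]
  constructor
  · rintro ⟨h1, h2⟩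
    exact ⟨⟨h1, fun p hp => h2 p (Or.inl hp)⟩, ⟨h1, fun p hp => h2 p (Or.inr hp)⟩⟩
  · rintro ⟨⟨h1, h2⟩, ⟨_, h4⟩⟩
    refine ⟨h1, fun p hp => ?_⟩
    rcases hp with hp | hp
    · exact h2 p hp
    · exact h4 p hp

theorem kS_union [Finite P] (S T : Set P) : X.kS S + X.kS T ≤ X.kS (S ∪ T) + X.w := by
  unfold kS w
  rw [KS_union]
  have h := Submodule.finrank_sup_add_finrank_inf_eq (X.KS S) (X.KS T)
  have h2 : Module.finrank ℚ ↥(X.KS S ⊔ X.KS T) ≤ Module.finrank ℚ X.Z := by
    apply Submodule.finrank_mono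
    exact sup_le (fun z hz => hz.1) (fun z hz => hz.1)
  omega

theorem kS_empty : X.kS ∅ = X.w := by
  have : X.KS ∅ = X.Z := by
    ext z
    rw [mem_KS]
    constructor
    · exact fun h => h.1
    · exact fun hz => ⟨hz, fun q hq => absurd hq (Set.notMem_empty q)⟩
  unfold kS w
  rw [this]

theorem kS_univ : X.kS Set.univ = 0 := by
  have : X.KS Set.univ = ⊥ := by
    rw [Submodule.eq_bot_iff]
    intro z hz
    funext p a b
    exact ((mem_KS X).1 hz).2 p (Set.mem_univ _) a b
  unfold kS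
  rw [this]
  simp

theorem codim [Finite P] (s : Finset (Quot (N X))) :
    X.w + ∑ c ∈ s, X.kS (cmp X c) ≤ s.card * X.w + X.kS (⋃ c ∈ s, cmp X c) := by
  classical
  induction s using Finset.induction_on with
  | empty =>
    simp [kS_empty]
  | insert c s hc ih =>
    rw [Finset.sum_insert hc, Finset.card_insert_of_notMem hc, Finset.set_biUnion_insert]
    have h := kS_union X (cmp X c) (⋃ c ∈ s, cmp X c)
    have e : (s.card + 1) * X.w = s.card * X.w + X.w := by ring
    rw [e]
    omega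

end Sum81

open Sum81 in
theorem T_Sum (hC : S_C) : S_Sum := by
  intro P _ X hconn hflat
  have : Finite (Quot (N X)) := Finite.of_surjective (Quot.mk (N X)) Quot.exists_rep
  have := Fintype.ofFinite (Quot (N X))
  have h1 : ∑ c : Quot (N X), (3 * X.w + {p | p ∈ cmp X c ∧ X.Pure p}.ncard) ≤
      ∑ c : Quot (N X), (3 * X.kS (cmp X c) + (cmp X c).ncard +
        X.ez (cmp X c) + {p | p ∈ cmp X c ∧ X.IsCap p}.ncard) :=
    Finset.sum_le_sum fun c _ => per_comp X hC hconn hflat c
  rw [Finset.sum_add_distrib, Finset.sum_add_distrib, Finset.sum_add_distrib,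
    Finset.sum_add_distrib, sum_fiber X X.Pure, sum_fiber X X.IsCap, Finset.sum_const,
    ← Finset.mul_sum, smul_eq_mul] at h1
  have h2 : ∑ c : Quot (N X), (cmp X c).ncard = Nat.card P := by
    have := sum_fiber X (fun _ => True)
    simp only [and_true, Set.ofPred_mem_eq] at this
    rw [this]
    exact Nat.card_congr (Equiv.subtypeUnivEquiv fun _ => trivial)
  have h3 := sum_ez X
  have h4 := codim X (Finset.univ : Finset (Quot (N X)))
  have h5 : (⋃ c ∈ (Finset.univ : Finset (Quot (N X))), cmp X c) = Set.univ := by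
    ext p
    simp only [Finset.mem_univ, Set.iUnion_true, Set.mem_iUnion, Set.mem_univ, iff_true]
    exact ⟨Quot.mk (N X) p, rfl⟩
  rw [h5, kS_univ] at h4
  rw [h2] at h1
  have e1 : nPure X = Nat.card {p // X.Pure p} := rfl
  have e2 : nCap X = Nat.card {p // X.IsCap p} := rfl
  rw [e1, e2]
  set m := (Finset.univ : Finset (Quot (N X))).card
  have e3 : m * (3 * X.w) = 3 * (m * X.w) := by ring
  rw [e3] at h1
  omega

end Pool.Agent.H830.GT
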