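import Pool.Agent.H830.GT.Stm

/-!
# S_V, S_Z, S_E (helper94 for helper830)
-/

namespace Pool.Agent.H830.GT

open GenTriangulation Pool.Agent.H830.OT

namespace VZ

variable {P : Type} {X : GenTriangulation P}

theorem z_self {z : P → Fin 5 → Fin 5 → ℚ} (hz : z ∈ X.Z) (p : P) (a : Fin 5) : z p a a = 0 := by
  have := hz.1 p a a a
  linarith

theorem z_swap {z : P → Fin 5 → Fin 5 → ℚ} (hz : z ∈ X.Z) (p : P) (a b : Fin 5) :
    z p b a = - z p a b := by
  have h1 := hz.1 p a b a
  rw [z_self hz] at h1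
  linarith

theorem perm_two (π : Equiv.Perm (Fin 2)) : π = 1 ∨ π = Equiv.swap 0 1 := by
  revert π; decide

theorem cocycle_mem {z : P → Fin 5 → Fin 5 → ℚ} (hz : z ∈ X.Z) :
    (fun (p : P) (x : Fin 2 → Fin 5) => z p (x 0) (x 1)) ∈ X.cocycles 1 := by
  refine ⟨⟨?_, ?_⟩, ?_⟩
  · intro p x π
    rcases perm_two π with rfl | rfl
    · simp
    · simp [z_swap hz p (x 0) (x 1)]
  · intro p x i hx
    exact hz.2 p i _ _ (hx 0) (hx 1)
  · show d (fun (p : P) (x : Fin 2 → Fin 5) => z p (x 0) (x 1)) = 0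
    funext p x
    have h := hz.1 p (x 0) (x 1) (x 2)
    show ∑ t : Fin 3, (-1 : ℚ) ^ (t : ℕ) * z p (x (t.succAbove 0)) (x (t.succAbove 1)) = 0
    rw [Fin.sum_univ_three]
    have e0 : (0 : Fin 3).succAbove (0 : Fin 2) = 1 := rfl
    have e1 : (0 : Fin 3).succAbove (1 : Fin 2) = 2 := rfl
    have e2 : (1 : Fin 3).succAbove (0 : Fin 2) = 0 := rfl
    have e3 : (1 : Fin 3).succAbove (1 : Fin 2) = 2 := rfl
    have e4 : (2 : Fin 3).succAbove (0 : Fin 2) = 0 := rfl
    have e5 : (2 : Fin 3).succAbove (1 : Fin 2) = 1 := rfl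
    have f0 : ((0 : Fin 3) : ℕ) = 0 := rfl
    have f1 : ((1 : Fin 3) : ℕ) = 1 := rfl
    have f2 : ((2 : Fin 3) : ℕ) = 2 := rfl
    rw [e0, e1, e2, e3, e4, e5, f0, f1, f2]
    linarith

end VZ

theorem T_V : S_V := by
  intro P _ X hb z hz
  have hfin : Module.Finite ℚ (P → (Fin 2 → Fin 5) → ℚ) := by
    infer_instance
  have h1 : Subsingleton (X.cocycles 1 ⧸ (X.coboundaries 1).comap (X.cocycles 1).subtype) := by
    unfold betti at hb
    exact Module.finrank_zero_iff.1 hb
  have h2 : (X.coboundaries 1).comap (X.cocycles 1).subtype = ⊤ :=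
    Submodule.Quotient.subsingleton_iff.1 h1
  have h3 := VZ.cocycle_mem hz
  have h4 : (⟨_, h3⟩ : X.cocycles 1) ∈ (X.coboundaries 1).comap (X.cocycles 1).subtype := by
    rw [h2]; trivial
  rw [Submodule.mem_comap] at h4
  obtain ⟨φ, hφ, hφd⟩ := h4
  refine ⟨fun p a => φ p ![a], ?_, ?_⟩
  · intro p i a ha
    have h := hφ.2 p ![a] i (by intro t; fin_cases t; exact ha)
    have e : (fun t => X.gl p i ((![a] : Fin 1 → Fin 5) t)) = ![X.gl p i a] := by
      funext t; fin_cases t; rfl
    rw [e] at h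
    exact h
  · intro p a b
    have h := congrFun (congrFun hφd p) ![a, b]
    change ∑ t : Fin 2, (-1 : ℚ) ^ (t : ℕ) * φ p (fun s => (![a, b] : Fin 2 → Fin 5) (t.succAbove s))
      = z p a b at h
    rw [Fin.sum_univ_two] at h
    have e0 : (fun s : Fin 1 => (![a, b] : Fin 2 → Fin 5) ((0 : Fin 2).succAbove s)) = ![b] := by
      funext t; fin_cases t; rfl
    have e1 : (fun s : Fin 1 => (![a, b] : Fin 2 → Fin 5) ((1 : Fin 2).succAbove s)) = ![a] := by
      funext t; fin_cases t; rfl
    have f0 : ((0 : Fin 2) : ℕ) = 0 := rfl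
    have f1 : ((1 : Fin 2) : ℕ) = 1 := rfl
    rw [e0, e1, f0, f1] at h
    show z p a b = φ p ![b] - φ p ![a]
    rw [← h]; ring

theorem T_Z (hV : S_V) : S_Z := by
  intro P _ X hb p a b
  constructor
  · intro h
    by_contra hne
    classical
    set φ : P → Fin 5 → ℚ := fun q c => if X.Same (p, ![a]) (q, ![c]) then 1 else 0 with hφ
    have hz : (fun (q : P) (c e : Fin 5) => φ q e - φ q c) ∈ X.Z := by
      refine ⟨fun q c e f => by ring, ?_⟩
      intro q i c e hc he
      have key : ∀ c, c ≠ i → φ (X.nb q i) (X.gl q i c) = φ q c := by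
        intro c hc
        have hG : X.Same (q, ![c]) (X.nb q i, ![X.gl q i c]) := by
          apply Relation.EqvGen.rel
          refine ⟨i, ?_, ?_⟩
          · intro t; fin_cases t; exact hc
          · refine Prod.ext rfl ?_
            funext t; fin_cases t; rfl
        simp only [hφ]
        by_cases hs : X.Same (p, ![a]) (q, ![c])
        · have hs2 : X.Same (p, ![a]) (X.nb q i, ![X.gl q i c]) := hs.trans _ _ _ hG
          rw [if_pos hs, if_pos hs2]
        · rw [if_neg hs, if_neg]
          intro hs'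
          exact hs (hs'.trans _ _ _ (hG.symm _ _))
      show φ _ _ - φ _ _ = φ q e - φ q c
      rw [key c hc, key e he]
    have h0 := h _ hz
    simp only [hφ] at h0
    have hrefl : X.Same (p, ![a]) (p, ![a]) := Relation.EqvGen.refl _
    rw [if_neg hne, if_pos hrefl] at h0
    norm_num at h0
  · intro h z hz
    obtain ⟨φ, h1, h2⟩ := hV P X hb z hz
    have key : ∀ x y : P × (Fin 1 → Fin 5), X.Same x y → φ x.1 (x.2 0) = φ y.1 (y.2 0) := by
      intro x y hxy
      induction hxy with
      | rel x y hr =>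
        obtain ⟨i, hi, rfl⟩ := hr
        exact (h1 x.1 i _ (hi 0)).symm
      | refl x => rfl
      | symm x y _ ih => exact ih.symm
      | trans x y z _ _ ih1 ih2 => exact ih1.trans ih2
    have h3 := key _ _ h
    rw [h2]
    simp at h3
    rw [h3]; ring

theorem T_E : S_E := by
  intro P _ X
  have key : ∀ x y : P × TF, X.relE x y → (X.Zero x.1 x.2.1.1 x.2.1.2 ↔ X.Zero y.1 y.2.1.1 y.2.1.2) := by
    rintro x y (⟨h1, h2⟩ | ⟨i, hi1, hi2, h1, h2⟩)
    · rw [h1, h2]
      constructor
      · intro h z hz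
        show z x.1 x.2.1.2 x.2.1.1 = 0
        rw [VZ.z_swap hz, h z hz, neg_zero]
      · intro h z hz
        have := h z hz
        change z x.1 x.2.1.2 x.2.1.1 = 0 at this
        rw [VZ.z_swap hz, this, neg_zero]
    · rw [h1, h2]
      constructor
      · intro h z hz
        show z (X.nb x.1 i) (X.gl x.1 i x.2.1.1) (X.gl x.1 i x.2.1.2) = 0
        rw [hz.2 x.1 i _ _ hi1 hi2, h z hz]
      · intro h z hz
        have := h z hz
        change z (X.nb x.1 i) (X.gl x.1 i x.2.1.1) (X.gl x.1 i x.2.1.2) = 0 at this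
        rwa [hz.2 x.1 i _ _ hi1 hi2] at this
  set f : Quot X.relE → Prop := Quot.lift (fun x : P × TF => X.Zero x.1 x.2.1.1 x.2.1.2)
    (fun x y h => propext (key x y h)) with hf
  have e1 : X.Ez = Nat.card {c : Quot X.relE // f c} := by
    unfold Ez
    apply Nat.card_congr
    apply Equiv.subtypeEquivRight
    intro c
    induction c using Quot.ind with
    | mk x =>
      constructor
      · rintro ⟨y, hy, hy2⟩
        rw [← hy]; exact hy2
      · intro h
        exact ⟨x, rfl, h⟩
  have e2 : X.ez Set.univ = Nat.card {c : Quot X.relE // ¬ f c} := by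
    unfold ez
    rw [← Nat.card_coe_set_eq]
    apply Nat.card_congr
    apply Equiv.subtypeEquivRight
    intro c
    induction c using Quot.ind with
    | mk x =>
      constructor
      · rintro ⟨y, hy, _, hy2⟩
        rw [← hy]; exact hy2
      · intro h
        exact ⟨x, rfl, trivial, h⟩
  have hfinTF : Finite TF := inferInstance
  have hfin : Finite (Quot X.relE) := inferInstance
  rw [e1, e2]
  unfold E ncl
  classical
  rw [← Nat.card_sum]
  exact Nat.card_congr (Equiv.sumCompl f).symm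

end Pool.Agent.H830.GT
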