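import Pool.Agent.H830.GT.Stm

/-!
# GT project, task C3: the dimension of the space of three-cochains (helper828, for helper830)

Instead of the signs `s (p, i)` we choose enumerations `e (p, i)` of `V \ {i}` which are compatible with
the gluings; then functions on the orbits of the involution give cochains.
-/

set_option autoImplicit false

namespace Pool.Agent.H830.GT

namespace GC3

/-- the sign as a rational number -/
def sq (π : Equiv.Perm (Fin 4)) : ℚ := (((Equiv.Perm.sign π : ℤˣ) : ℤ) : ℚ)

theorem sq_mul (π σ : Equiv.Perm (Fin 4)) : sq (π * σ) = sq π * sq σ := by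
  simp [sq]

theorem sq_one : sq 1 = 1 := by simp [sq]

/-- the alternating function of an enumeration -/
noncomputable def alt (e x : Fin 4 → Fin 5) : ℚ :=
  ∑ π : Equiv.Perm (Fin 4), if x = e ∘ π then sq π else 0

theorem alt_comp (e x : Fin 4 → Fin 5) (σ : Equiv.Perm (Fin 4)) :
    alt e (x ∘ σ) = sq σ * alt e x := by
  unfold alt
  rw [Finset.mul_sum, ← Equiv.sum_comp (Equiv.mulRight σ)]
  refine Finset.sum_congr rfl fun π _ => ?_
  have h : (x ∘ σ = e ∘ (Equiv.mulRight σ π : Equiv.Perm (Fin 4))) ↔ x = e ∘ π := by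
    constructor
    · intro h
      funext t
      have := congrFun h (σ⁻¹ t)
      simpa using this
    · rintro rfl
      rfl
  by_cases hx : x = e ∘ π
  · rw [if_pos (h.2 hx), if_pos hx, Equiv.coe_mulRight, sq_mul, mul_comm]
  · rw [if_neg (fun hh => hx (h.1 hh)), if_neg hx, mul_zero]

theorem alt_map (g : Equiv.Perm (Fin 5)) (e x : Fin 4 → Fin 5) :
    alt (g ∘ e) (g ∘ x) = alt e x := by
  unfold alt
  refine Finset.sum_congr rfl fun π _ => ?_
  have h : (g ∘ x = (g ∘ e) ∘ π) ↔ x = e ∘ π := by
    constructor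
    · intro h
      funext t
      exact g.injective (congrFun h t)
    · rintro rfl
      rfl
  by_cases hx : x = e ∘ π
  · rw [if_pos (h.2 hx), if_pos hx]
  · rw [if_neg (fun hh => hx (h.1 hh)), if_neg hx]

theorem alt_self (e : Fin 4 → Fin 5) (he : Function.Injective e) : alt e e = 1 := by
  unfold alt
  rw [Finset.sum_eq_single 1]
  · rw [if_pos (by funext t; rfl), sq_one]
  · intro π _ hπ
    rw [if_neg]
    intro h
    apply hπ
    ext t
    exact congrArg Fin.val (he (congrFun h t)).symm
  · intro h; exact absurd (Finset.mem_univ _) h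

/-- an injective enumeration with values different from `j` takes all the other values -/
theorem surj (e : Fin 4 → Fin 5) (he : Function.Injective e) (j : Fin 5) (hj : ∀ t, e t ≠ j)
    (i : Fin 5) (hi : i ≠ j) : ∃ t, e t = i := by
  have h1 : Finset.univ.image e = Finset.univ.erase j := by
    apply Finset.eq_of_subset_of_card_le
    · intro a ha
      rw [Finset.mem_image] at ha
      obtain ⟨t, _, rfl⟩ := ha
      exact Finset.mem_erase.2 ⟨hj t, Finset.mem_univ _⟩
    · rw [Finset.card_image_of_injective _ he, Finset.card_erase_of_mem (Finset.mem_univ _)]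
      simp
  have h2 : i ∈ Finset.univ.image e := by
    rw [h1]
    exact Finset.mem_erase.2 ⟨hi, Finset.mem_univ _⟩
  rw [Finset.mem_image] at h2
  obtain ⟨t, _, ht⟩ := h2
  exact ⟨t, ht⟩

theorem alt_zero (e x : Fin 4 → Fin 5) (he : Function.Injective e) (j : Fin 5)
    (hj : ∀ t, e t ≠ j) (i : Fin 5) (hi : i ≠ j) (hx : ∀ t, x t ≠ i) : alt e x = 0 := by
  unfold alt
  refine Finset.sum_eq_zero fun π _ => ?_
  rw [if_neg]
  rintro rfl
  obtain ⟨t, ht⟩ := surj e he j hj i hi
  apply hx (π⁻¹ t)
  simpa using ht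

variable {P : Type} (X : GenTriangulation P)

/-- the involution on the facets -/
def tau (x : P × Fin 5) : P × Fin 5 := (X.nb x.1 x.2, X.gl x.1 x.2 x.2)

/-- the gluing of a facet -/
def G (x : P × Fin 5) : Equiv.Perm (Fin 5) := X.gl x.1 x.2

theorem G_tau (x : P × Fin 5) : G X (tau X x) = (G X x)⁻¹ := X.gl_gl x.1 x.2

theorem tau_tau (x : P × Fin 5) : tau X (tau X x) = x := by
  obtain ⟨p, i⟩ := x
  refine Prod.ext (X.nb_nb p i) ?_
  exact X.gl_gl_apply p i i

theorem tau_ne (x : P × Fin 5) : tau X x ≠ x := by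
  obtain ⟨p, i⟩ := x
  intro h
  have h1 : X.nb p i = p := congrArg Prod.fst h
  have h2 : X.gl p i i = i := congrArg Prod.snd h
  exact X.no_fix p i h1 h2

/-- compatible enumerations -/
theorem exists_enum [Finite P] : ∃ e : P × Fin 5 → Fin 4 → Fin 5,
    (∀ x, Function.Injective (e x)) ∧ (∀ x t, e x t ≠ x.2) ∧
      ∀ x, e (tau X x) = G X x ∘ e x := by
  classical
  obtain ⟨n, ⟨ι⟩⟩ := Finite.exists_equiv_fin (P × Fin 5)
  have hne : ∀ x, ι (tau X x) ≠ ι x := fun x h => tau_ne X x (ι.injective h)
  refine ⟨fun x => if ι x < ι (tau X x) then x.2.succAbove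
    else G X (tau X x) ∘ (tau X x).2.succAbove, fun x => ?_, fun x t => ?_, fun x => ?_⟩
  · show Function.Injective (if ι x < ι (tau X x) then x.2.succAbove
      else G X (tau X x) ∘ (tau X x).2.succAbove)
    by_cases hx : ι x < ι (tau X x)
    · rw [if_pos hx]
      exact Fin.succAbove_right_injective
    · rw [if_neg hx]
      exact (G X (tau X x)).injective.comp Fin.succAbove_right_injective
  · show (if ι x < ι (tau X x) then x.2.succAbove
      else G X (tau X x) ∘ (tau X x).2.succAbove) t ≠ x.2
    by_cases hx : ι x < ι (tau X x)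
    · rw [if_pos hx]
      exact Fin.succAbove_ne _ _
    · rw [if_neg hx, G_tau]
      intro h
      apply Fin.succAbove_ne (tau X x).2 t
      have h' := congrArg (G X x) h
      rw [Function.comp_apply] at h'
      have h2 : G X x ((G X x)⁻¹ ((tau X x).2.succAbove t)) = (tau X x).2.succAbove t := by simp
      rw [h2] at h'
      exact h'
  · show (if ι (tau X x) < ι (tau X (tau X x)) then (tau X x).2.succAbove
      else G X (tau X (tau X x)) ∘ (tau X (tau X x)).2.succAbove) =
      G X x ∘ (if ι x < ι (tau X x) then x.2.succAbove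
      else G X (tau X x) ∘ (tau X x).2.succAbove)
    rw [tau_tau]
    by_cases hx : ι x < ι (tau X x)
    · rw [if_pos hx, if_neg (not_lt.2 hx.le)]
    · rw [if_neg hx, if_pos (lt_of_le_of_ne (not_lt.1 hx) (hne x)), G_tau]
      funext t
      simp

/-- the setoid of the orbits of the involution -/
def stau : Setoid (P × Fin 5) where
  r x y := y = x ∨ y = tau X x
  iseqv := by
    refine ⟨fun x => Or.inl rfl, fun {x y} h => ?_, fun {x y z} h h' => ?_⟩
    · rcases h with rfl | rfl
      · exact Or.inl rfl
      · exact Or.inr (tau_tau X x).symm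
    · rcases h with rfl | rfl
      · exact h'
      · rcases h' with rfl | rfl
        · exact Or.inr rfl
        · exact Or.inl (tau_tau X x)

theorem card_le [Finite P] : 5 * Nat.card P ≤ 2 * Nat.card (Quotient (stau X)) := by
  classical
  have h1 : Nat.card (P × Fin 5) ≤ Nat.card (Quotient (stau X) × Bool) := by
    apply Nat.card_le_card_of_surjective
      (fun y : Quotient (stau X) × Bool => if y.2 then y.1.out else tau X y.1.out)
    intro x
    have h : (stau X).r (Quotient.mk (stau X) x).out x := Quotient.exact (Quotient.out_eq _)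
    rcases h with h | h
    · exact ⟨(Quotient.mk (stau X) x, true), by simpa using h.symm⟩
    · exact ⟨(Quotient.mk (stau X) x, false), by simpa using h.symm⟩
  rw [Nat.card_prod, Nat.card_prod, Nat.card_eq_fintype_card (α := Fin 5),
    Nat.card_eq_fintype_card (α := Bool), Fintype.card_fin, Fintype.card_bool] at h1
  omega

/-- functions on the orbits give cochains -/
noncomputable def toC (e : P × Fin 5 → Fin 4 → Fin 5) :
    (Quotient (stau X) → ℚ) →ₗ[ℚ] (P → (Fin (3 + 1) → Fin 5) → ℚ) where
  toFun φ p x := ∑ j : Fin 5, φ (Quotient.mk (stau X) (p, j)) * alt (e (p, j)) x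
  map_add' φ ψ := by
    funext p x
    simp only [Pi.add_apply, add_mul, Finset.sum_add_distrib]
  map_smul' c φ := by
    funext p x
    simp only [Pi.smul_apply, smul_eq_mul, RingHom.id_apply, Finset.mul_sum, mul_assoc]

variable {X}

theorem toC_eval {e : P × Fin 5 → Fin 4 → Fin 5} (he : ∀ x, Function.Injective (e x))
    (he' : ∀ x t, e x t ≠ x.2) (φ : Quotient (stau X) → ℚ) (y : P × Fin 5)
    (x : Fin 4 → Fin 5) (hx : ∀ t, x t ≠ y.2) :
    toC X e φ y.1 x = φ (Quotient.mk (stau X) y) * alt (e y) x := by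
  obtain ⟨p, i⟩ := y
  show (∑ j : Fin 5, φ (Quotient.mk (stau X) (p, j)) * alt (e (p, j)) x) = _
  rw [Finset.sum_eq_single i]
  · intro j _ hj
    rw [alt_zero (e (p, j)) x (he _) j (he' (p, j)) i (Ne.symm hj) hx, mul_zero]
  · intro h; exact absurd (Finset.mem_univ _) h

theorem toC_mem {e : P × Fin 5 → Fin 4 → Fin 5} (he : ∀ x, Function.Injective (e x))
    (he' : ∀ x t, e x t ≠ x.2) (hG : ∀ x, e (tau X x) = G X x ∘ e x)
    (φ : Quotient (stau X) → ℚ) : toC X e φ ∈ X.cochains 3 := by
  refine ⟨fun p x π => ?_, fun p x i hx => ?_⟩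
  · show (∑ j : Fin 5, φ (Quotient.mk (stau X) (p, j)) * alt (e (p, j)) (x ∘ π)) =
      sq π * ∑ j : Fin 5, φ (Quotient.mk (stau X) (p, j)) * alt (e (p, j)) x
    rw [Finset.mul_sum]
    refine Finset.sum_congr rfl fun j _ => ?_
    rw [alt_comp]
    ring
  · have h1 := toC_eval he he' φ (p, i) x hx
    have h2 := toC_eval he he' φ (tau X (p, i)) (fun t => X.gl p i (x t))
      (fun t h => hx t ((X.gl p i).injective h))
    have h3 : alt (e (tau X (p, i))) (fun t => X.gl p i (x t)) = alt (e (p, i)) x := by
      rw [hG]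
      exact alt_map (G X (p, i)) (e (p, i)) x
    have h4 : Quotient.mk (stau X) (tau X (p, i)) = Quotient.mk (stau X) (p, i) := by
      apply Quotient.sound
      exact Or.inr (tau_tau X _).symm
    rw [h3, h4, ← h1] at h2
    exact h2

theorem toC_inj {e : P × Fin 5 → Fin 4 → Fin 5} (he : ∀ x, Function.Injective (e x))
    (he' : ∀ x t, e x t ≠ x.2) : Function.Injective (toC X e) := by
  intro φ ψ h
  funext q
  obtain ⟨y, rfl⟩ := Quotient.exists_rep q
  have h1 := toC_eval he he' φ y (e y) (he' y)
  have h2 := toC_eval he he' ψ y (e y) (he' y)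
  rw [alt_self _ (he y), mul_one] at h1 h2
  rw [← h1, ← h2, h]

end GC3

open GC3 in
theorem T_c3 : S_c3 := by
  classical
  intro P _ X
  obtain ⟨e, he, he', hG⟩ := exists_enum X
  have : Fintype P := Fintype.ofFinite P
  have : Fintype (Quotient (stau X)) := Fintype.ofFinite _
  have h1 := card_le X
  have h2 : Nat.card (Quotient (stau X)) ≤ Module.finrank ℚ (X.cochains 3) := by
    rw [Nat.card_eq_fintype_card, ← Module.finrank_fintype_fun_eq_card (R := ℚ)]
    apply LinearMap.finrank_le_finrank_of_injective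
      (f := LinearMap.codRestrict (X.cochains 3) (toC X e) (fun φ => toC_mem he he' hG φ))
    intro φ ψ h
    exact toC_inj he he' (congrArg Subtype.val h)
  omega

end Pool.Agent.H830.GT
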